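import Mathlib

set_option autoImplicit false

namespace Pool.Agent.Helper76

open Nat Finset

theorem sum_lt_pow (B : ℕ) (c : ℕ → ℕ) (hc : ∀ i, c i < B) (k : ℕ) :
    ∑ i ∈ range k, c i * B ^ i < B ^ k := by
  induction k with
  | zero => simp
  | succ k ih =>
    rw [Finset.sum_range_succ, pow_succ]
    have h1 : c k + 1 ≤ B := hc k
    have h2 : (c k + 1) * B ^ k ≤ B * B ^ k := Nat.mul_le_mul_right _ h1
    nlinarith

theorem choose_eq (n k : ℕ) :
    n.choose k = ((2 ^ (n + 1) + 1) ^ n / (2 ^ (n + 1)) ^ k) % 2 ^ (n + 1) := by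
  set B := 2 ^ (n + 1) with hB
  have hBpos : 0 < B := by positivity
  have hc : ∀ i, n.choose i < B := by
    intro i
    calc n.choose i ≤ 2 ^ n := Nat.choose_le_two_pow n i
      _ < 2 ^ (n + 1) := Nat.pow_lt_pow_right (by norm_num) (Nat.lt_succ_self n)
  have hexp : (B + 1) ^ n = ∑ i ∈ range ((k + 1) + (n + 1)), n.choose i * B ^ i := by
    rw [add_comm (k + 1) (n + 1), Finset.sum_range_add, add_pow]
    have h0 : ∑ x ∈ range (k + 1), n.choose (n + 1 + x) * B ^ (n + 1 + x) = 0 := by
      apply Finset.sum_eq_zero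
      intro x _
      rw [Nat.choose_eq_zero_of_lt (by omega)]
      simp
    rw [h0, add_zero]
    apply Finset.sum_congr rfl
    intro i _
    simp [mul_comm]
  rw [hexp, Finset.sum_range_add, Finset.sum_range_succ]
  have hL : ∑ i ∈ range k, n.choose i * B ^ i < B ^ k := sum_lt_pow B _ hc k
  set L := ∑ i ∈ range k, n.choose i * B ^ i with hLdef
  have hH : ∑ x ∈ range (n + 1), n.choose (k + 1 + x) * B ^ (k + 1 + x)
      = B ^ k * (B * ∑ x ∈ range (n + 1), n.choose (k + 1 + x) * B ^ x) := by
    rw [Finset.mul_sum, Finset.mul_sum]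
    apply Finset.sum_congr rfl
    intro x _
    rw [pow_add, pow_add]
    ring
  rw [hH]
  set H := ∑ x ∈ range (n + 1), n.choose (k + 1 + x) * B ^ x with hHdef
  have e : L + n.choose k * B ^ k + B ^ k * (B * H) = L + B ^ k * (n.choose k + B * H) := by ring
  rw [e, Nat.add_mul_div_left _ _ (by positivity), Nat.div_eq_of_lt hL, zero_add,
    Nat.add_mul_mod_self_left, Nat.mod_eq_of_lt (hc k)]

theorem factorial_eq (n : ℕ) :
    n ! = ((n ^ n + 1) * n ^ 2 + 1 + n) ^ n / (((n ^ n + 1) * n ^ 2 + 1 + n).choose n) := by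
  set r := (n ^ n + 1) * n ^ 2 + 1 + n with hr
  have hnr : n ≤ r := by omega
  have hC : 0 < r.choose n := Nat.choose_pos hnr
  have hD : r.descFactorial n = n ! * r.choose n := Nat.descFactorial_eq_factorial_mul_choose r n
  symm
  rw [Nat.div_eq_iff hC]
  have h1 : n ! * r.choose n ≤ r ^ n := by
    rw [← hD]; exact Nat.descFactorial_le_pow r n
  have h2 : r ^ n < (n ! + 1) * r.choose n := by
    -- multiply by n!
    have hf : 0 < n ! := Nat.factorial_pos n
    have key : n ! * r ^ n < (n ! + 1) * r.descFactorial n := by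
      have hlow : (r - n) ^ n ≤ r.descFactorial n :=
        le_trans (Nat.pow_le_pow_left (by omega) n) (Nat.pow_sub_le_descFactorial r n)
      have hrpos : 0 < r := by omega
      have hfle : n ! ≤ n ^ n := Nat.factorial_le_pow n
      have hrbig : (n ! + 1) * n ^ 2 < r := by
        have : (n ! + 1) * n ^ 2 ≤ (n ^ n + 1) * n ^ 2 := Nat.mul_le_mul_right _ (by omega)
        omega
      -- real computation
      have hreal : ((n ! : ℝ)) * (r : ℝ) ^ n < ((n ! : ℝ) + 1) * ((r - n : ℕ) : ℝ) ^ n := by
        have hrp : (0 : ℝ) < r := by exact_mod_cast hrpos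
        rw [Nat.cast_sub hnr]
        have hb : (1 : ℝ) + n * (-(n / r : ℝ)) ≤ (1 + (-(n / r : ℝ))) ^ n := by
          apply one_add_mul_le_pow
          have : (n : ℝ) / r ≤ 1 := by
            rw [div_le_one hrp]; exact_mod_cast hnr
          linarith
        have hfac : ((r : ℝ) - n) ^ n = (r : ℝ) ^ n * (1 + (-(n / r : ℝ))) ^ n := by
          rw [← mul_pow]
          congr 1
          field_simp
          ring
        rw [hfac]
        have hrn : (0 : ℝ) < (r : ℝ) ^ n := by positivity
        have h3 : ((n ! : ℝ) + 1) * n ^ 2 < r := by exact_mod_cast hrbig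
        have h4 : (n ! : ℝ) < ((n ! : ℝ) + 1) * (1 + n * (-(n / r : ℝ))) := by
          have : ((n ! : ℝ) + 1) * (1 + n * (-(n / r : ℝ)))
              = (n ! : ℝ) + 1 - (((n ! : ℝ) + 1) * n ^ 2) / r := by
            field_simp
            ring
          rw [this]
          have : (((n ! : ℝ) + 1) * n ^ 2) / r < 1 := by
            rw [div_lt_one hrp]; exact h3
          linarith
        have hf0 : (0 : ℝ) < (n ! : ℝ) + 1 := by positivity
        calc (n ! : ℝ) * (r : ℝ) ^ n
            < (((n ! : ℝ) + 1) * (1 + n * (-(n / r : ℝ)))) * (r : ℝ) ^ n :=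
              mul_lt_mul_of_pos_right h4 hrn
          _ ≤ (((n ! : ℝ) + 1) * ((1 + (-(n / r : ℝ))) ^ n)) * (r : ℝ) ^ n := by
              apply mul_le_mul_of_nonneg_right _ hrn.le
              exact mul_le_mul_of_nonneg_left hb hf0.le
          _ = _ := by ring
      have hnat : n ! * r ^ n < (n ! + 1) * (r - n) ^ n := by exact_mod_cast hreal
      exact lt_of_lt_of_le hnat (Nat.mul_le_mul_left _ hlow)
    rw [hD] at key
    have : n ! * r ^ n < n ! * ((n ! + 1) * r.choose n) := by
      calc n ! * r ^ n < (n ! + 1) * (n ! * r.choose n) := key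
        _ = n ! * ((n ! + 1) * r.choose n) := by ring
    exact Nat.lt_of_mul_lt_mul_left this
  constructor
  · exact h1
  · have : (n ! + 1) * r.choose n = n ! * r.choose n + r.choose n := by ring
    omega

/-- the product of the moduli -/
theorem prod_eq (t y : ℕ) (ht : 0 < t) :
    ∏ k ∈ range y, (1 + (k + 1) * t) =
      (t ^ y * (y ! * (((t - 1) * (1 + t * y) ^ y + 1) + y).choose y)) %
        (t * (1 + t * y) ^ y + 1) := by
  set K := (1 + t * y) ^ y with hK
  set M := t * K + 1 with hM
  set q := (t - 1) * K + 1 with hq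
  have hle : ∏ k ∈ range y, (1 + (k + 1) * t) ≤ K := by
    calc ∏ k ∈ range y, (1 + (k + 1) * t) ≤ ∏ _k ∈ range y, (1 + t * y) := by
          apply Finset.prod_le_prod'
          intro k hk
          have : k + 1 ≤ y := by simpa using Finset.mem_range.1 hk
          have := Nat.mul_le_mul_left t this
          nlinarith
      _ = K := by simp [hK]
  have hlt : ∏ k ∈ range y, (1 + (k + 1) * t) < M := by
    have : K ≤ t * K := Nat.le_mul_of_pos_left K ht
    omega
  have hasc : t ^ y * (y ! * (q + y).choose y) = ∏ k ∈ range y, (t * (q + 1 + k)) := by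
    rw [← Nat.ascFactorial_eq_factorial_mul_choose, Nat.ascFactorial_eq_prod_range,
      Finset.prod_mul_distrib]
    simp
  rw [hasc]
  have hcong : ∏ k ∈ range y, (t * (q + 1 + k)) ≡ ∏ k ∈ range y, (1 + (k + 1) * t) [MOD M] := by
    have htq : t * q = 1 + (t - 1) * M := by
      obtain ⟨s, rfl⟩ : ∃ s, t = s + 1 := ⟨t - 1, by omega⟩
      simp only [hq, hM, Nat.add_sub_cancel]
      ring
    apply Nat.ModEq.prod
    intro k _
    have : t * (q + 1 + k) = (1 + (k + 1) * t) + (t - 1) * M := by
      rw [show t * (q + 1 + k) = t * q + (k + 1) * t by ring, htq]; ring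
    rw [this]
    unfold Nat.ModEq
    simp
  rw [hcong, Nat.mod_eq_of_lt hlt]

end Pool.Agent.Helper76
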