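import Mathlib
import Pool.Agent.Helper76.NT

set_option autoImplicit false

namespace Pool.Agent.Helper76

open Nat Dioph Finset

/-! ## Some Diophantine functions -/

theorem choose_dioph {α : Type} {f g : (α → ℕ) → ℕ} (df : DiophFn f) (dg : DiophFn g) :
    DiophFn fun v => (f v).choose (g v) := by
  have h2 : DiophFn (fun _ : α → ℕ => 2) := const_dioph 2
  have h1 : DiophFn (fun _ : α → ℕ => 1) := const_dioph 1
  have hB := pow_dioph h2 (add_dioph df h1)
  have := mod_dioph (div_dioph (pow_dioph (add_dioph hB h1) df) (pow_dioph hB dg)) hB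
  have e : (fun v => (f v).choose (g v)) = fun v =>
      ((2 ^ (f v + 1) + 1) ^ f v / (2 ^ (f v + 1)) ^ g v) % 2 ^ (f v + 1) := by
    funext v; exact choose_eq _ _
  rw [e]
  exact this

theorem factorial_dioph {α : Type} {f : (α → ℕ) → ℕ} (df : DiophFn f) :
    DiophFn fun v => (f v)! := by
  have h2 : DiophFn (fun _ : α → ℕ => 2) := const_dioph 2
  have h1 : DiophFn (fun _ : α → ℕ => 1) := const_dioph 1
  have hr := add_dioph (add_dioph (mul_dioph (add_dioph (pow_dioph df df) h1) (pow_dioph df h2)) h1) df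
  have := div_dioph (pow_dioph hr df) (choose_dioph hr df)
  have e : (fun v => (f v)!) = fun v =>
      ((f v ^ f v + 1) * f v ^ 2 + 1 + f v) ^ f v /
        (((f v ^ f v + 1) * f v ^ 2 + 1 + f v).choose (f v)) := by
    funext v; exact factorial_eq _
  rw [e]
  exact this

/-- product of the moduli, totalised at `t = 0`-free form (we always use `t > 0`). -/
theorem prod_dioph {α : Type} {f g : (α → ℕ) → ℕ} (df : DiophFn f) (dg : DiophFn g)
    (hpos : ∀ v, 0 < f v) :
    DiophFn fun v => ∏ k ∈ range (g v), (1 + (k + 1) * f v) := by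
  have h1 : DiophFn (fun _ : α → ℕ => 1) := const_dioph 1
  have hK := pow_dioph (add_dioph h1 (mul_dioph df dg)) dg
  have hq := add_dioph (mul_dioph (sub_dioph df h1) hK) h1
  have := mod_dioph (mul_dioph (pow_dioph df dg)
    (mul_dioph (factorial_dioph dg) (choose_dioph (add_dioph hq dg) dg)))
    (add_dioph (mul_dioph df hK) h1)
  have e : (fun v => ∏ k ∈ range (g v), (1 + (k + 1) * f v)) = fun v =>
      (f v ^ g v * ((g v)! * (((f v - 1) * (1 + f v * g v) ^ g v + 1) + g v).choose (g v))) %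
        (f v * (1 + f v * g v) ^ g v + 1) := by
    funext v; exact prod_eq _ _ (hpos v)
  rw [e]
  exact this

/-! ## Polynomials: bounds, congruences, finite support -/

theorem poly_bound {γ : Type} (p : Poly γ) :
    ∃ F : (γ → ℕ) → ℕ, DiophFn F ∧ Monotone F ∧ ∀ v, (p v).natAbs ≤ F v := by
  induction p using Poly.induction with
  | H1 i => exact ⟨fun v => v i, proj_dioph i, fun v w h => h i, fun v => by simp⟩
  | H2 n => exact ⟨fun _ => n.natAbs, const_dioph _, fun _ _ _ => le_rfl, fun v => by simp⟩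
  | H3 f g hf hg =>
    obtain ⟨F, dF, mF, bF⟩ := hf
    obtain ⟨G, dG, mG, bG⟩ := hg
    refine ⟨fun v => F v + G v, add_dioph dF dG, fun v w h => Nat.add_le_add (mF h) (mG h), fun v => ?_⟩
    rw [Poly.sub_apply]
    exact le_trans (Int.natAbs_sub_le _ _) (Nat.add_le_add (bF v) (bG v))
  | H4 f g hf hg =>
    obtain ⟨F, dF, mF, bF⟩ := hf
    obtain ⟨G, dG, mG, bG⟩ := hg
    refine ⟨fun v => F v * G v, mul_dioph dF dG, fun v w h => Nat.mul_le_mul (mF h) (mG h),
      fun v => ?_⟩
    rw [Poly.mul_apply, Int.natAbs_mul]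
    exact Nat.mul_le_mul (bF v) (bG v)

theorem poly_modEq {γ : Type} (p : Poly γ) (m : ℕ) (v w : γ → ℕ)
    (h : ∀ i, v i ≡ w i [MOD m]) : p v ≡ p w [ZMOD m] := by
  induction p using Poly.induction with
  | H1 i => exact (Int.natCast_modEq_iff).2 (h i)
  | H2 n => exact Int.ModEq.refl _
  | H3 f g hf hg => exact hf.sub hg
  | H4 f g hf hg => exact hf.mul hg

theorem poly_support {γ : Type} (p : Poly γ) :
    ∃ F : Finset γ, ∀ v w : γ → ℕ, (∀ i ∈ F, v i = w i) → p v = p w := by
  classical
  induction p using Poly.induction with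
  | H1 i => exact ⟨{i}, fun v w h => by simp [h i (by simp)]⟩
  | H2 n => exact ⟨∅, fun v w _ => rfl⟩
  | H3 f g hf hg =>
    obtain ⟨F, hF⟩ := hf
    obtain ⟨G, hG⟩ := hg
    refine ⟨F ∪ G, fun v w h => ?_⟩
    rw [Poly.sub_apply, Poly.sub_apply, hF v w (fun i hi => h i (by simp [hi])),
      hG v w (fun i hi => h i (by simp [hi]))]
  | H4 f g hf hg =>
    obtain ⟨F, hF⟩ := hf
    obtain ⟨G, hG⟩ := hg
    refine ⟨F ∪ G, fun v w h => ?_⟩
    rw [Poly.mul_apply, Poly.mul_apply, hF v w (fun i hi => h i (by simp [hi])),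
      hG v w (fun i hi => h i (by simp [hi]))]

/-- the dummies can be taken to be finitely many -/
theorem finite_dummies {α β : Type} (p : Poly (α ⊕ β)) :
    ∃ (m : ℕ) (q : Poly (α ⊕ Fin m)), ∀ v : α → ℕ,
      (∃ t : β → ℕ, p (Sum.elim v t) = 0) ↔ ∃ t : Fin m → ℕ, q (Sum.elim v t) = 0 := by
  classical
  obtain ⟨F, hF⟩ := poly_support p
  set F' : Finset β := F.preimage Sum.inr (Sum.inr_injective.injOn) with hF'
  have hmem : ∀ b, b ∈ F' ↔ Sum.inr b ∈ F := by intro b; simp [hF']
  let e := F'.equivFin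
  let h : β → Fin (F'.card + 1) := fun b =>
    if hb : b ∈ F' then (e ⟨b, hb⟩).castSucc else Fin.last _
  refine ⟨F'.card + 1, p.map (Sum.map id h), fun v => ⟨?_, ?_⟩⟩
  · rintro ⟨t, ht⟩
    refine ⟨fun k => if hk : (k : ℕ) < F'.card then t (e.symm ⟨k, hk⟩) else 0, ?_⟩
    rw [Poly.map_apply, ← ht]
    apply hF
    rintro (a | b) hi
    · simp
    · have hb : b ∈ F' := (hmem b).2 hi
      simp [h, hb]
  · rintro ⟨t, ht⟩
    refine ⟨t ∘ h, ?_⟩
    rw [Poly.map_apply] at ht
    rw [← ht]
    congr 1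
    funext s
    rcases s with a | b <;> rfl

theorem forall_fin_dioph {α : Type} : ∀ {m : ℕ} {S : Fin m → Set (α → ℕ)},
    (∀ j, Dioph (S j)) → Dioph {v | ∀ j, v ∈ S j}
  | 0, S, _ => of_no_dummies _ 0 fun v => by simp
  | m + 1, S, h => by
    have h0 := (h 0).inter (forall_fin_dioph (S := fun j => S j.succ) fun j => h j.succ)
    refine Dioph.ext h0 fun v => ?_
    simp only [Set.mem_inter_iff, Set.mem_ofPred_eq]
    exact ⟨fun h j => by
      refine Fin.cases h.1 h.2 j, fun h => ⟨h 0, fun j => h j.succ⟩⟩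

/-! ## The bounded quantifier theorem -/

theorem bq_core {α : Type} {m : ℕ} (q : Poly (Option α ⊕ Fin m))
    (F : (Option α ⊕ Fin m → ℕ) → ℕ) (hmono : Monotone F) (hbd : ∀ v, (q v).natAbs ≤ F v)
    (x : α → ℕ) (y : ℕ) :
    (∀ k < y, ∃ t : Fin m → ℕ, q (Sum.elim (Option.elim' k x) t) = 0) ↔
    ∃ (u c : ℕ) (a : Fin m → ℕ),
      (∏ k ∈ range y, (1 + (k + 1) *
          (F (Sum.elim (Option.elim' y x) fun _ => u) + y + u + 1)!)) ∣
        1 + (c + 1) * (F (Sum.elim (Option.elim' y x) fun _ => u) + y + u + 1)! ∧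
      (∀ j, (∏ k ∈ range y, (1 + (k + 1) *
          (F (Sum.elim (Option.elim' y x) fun _ => u) + y + u + 1)!)) ∣
        (u + 1)! * (a j).choose (u + 1)) ∧
      (∏ k ∈ range y, (1 + (k + 1) *
          (F (Sum.elim (Option.elim' y x) fun _ => u) + y + u + 1)!)) ∣
        (q (Sum.elim (Option.elim' c x) a)).natAbs := by
  classical
  constructor
  · intro h
    have h' : ∀ k : ℕ, ∃ t : Fin m → ℕ, k < y → q (Sum.elim (Option.elim' k x) t) = 0 := by
      intro k
      by_cases hk : k < y
      · obtain ⟨t, ht⟩ := h k hk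
        exact ⟨t, fun _ => ht⟩
      · exact ⟨0, fun h => absurd h hk⟩
    choose t ht using h'
    set u : ℕ := ∑ k ∈ range y, ∑ j, t k j with hu
    have htu : ∀ k < y, ∀ j, t k j ≤ u := by
      intro k hk j
      calc t k j ≤ ∑ j, t k j :=
            Finset.single_le_sum (f := fun j => t k j) (fun _ _ => Nat.zero_le _) (Finset.mem_univ j)
        _ ≤ u := Finset.single_le_sum (f := fun k => ∑ j, t k j) (fun _ _ => Nat.zero_le _)
            (Finset.mem_range.2 hk)
    refine ⟨u, ?_⟩
    set Q := F (Sum.elim (Option.elim' y x) fun _ => u) + y + u + 1 with hQ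
    set T := Q ! with hT
    have hdiv : ∀ d, 0 < d → d ≤ Q → d ∣ T := fun d h1 h2 => Nat.dvd_factorial h1 h2
    let mo : ℕ → ℕ := fun k => 1 + (k + 1) * T
    have hcop : ∀ k l, k < l → l < y → Nat.Coprime (mo k) (mo l) := by
      intro k l hkl hly
      have := Nat.coprime_mul_succ (n := k + 1) (m := l + 1) (a := T)
        (hdiv _ (by omega) (by omega))
      simpa [mo, add_comm] using this
    have hpair : Set.Pairwise (range y : Set ℕ) (Function.onFun Nat.Coprime mo) := by
      intro k hk l hl hkl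
      have hk' : k < y := by simpa using hk
      have hl' : l < y := by simpa using hl
      rcases lt_or_gt_of_ne hkl with h | h
      · exact hcop k l h hl'
      · exact (hcop l k h hk').symm
    have hne : ∀ i ∈ range y, mo i ≠ 0 := fun i _ => by simp only [mo]; omega
    have hprod : ∀ z : ℕ, (∀ k < y, mo k ∣ z) → (∏ k ∈ range y, mo k) ∣ z := by
      intro z hz
      have : (∏ k ∈ range y, ((mo k : ℕ) : ℤ)) ∣ (z : ℤ) := by
        apply Finset.prod_dvd_of_coprime
        · intro k hk l hl hkl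
          exact Nat.isCoprime_iff_coprime.2 (hpair hk hl hkl)
        · intro k hk
          exact Int.natCast_dvd_natCast.2 (hz k (by simpa using hk))
      rw [← Nat.cast_prod] at this
      exact Int.natCast_dvd_natCast.1 this
    obtain ⟨c, hc⟩ := Nat.chineseRemainderOfFinset (fun k => k) mo (range y) hne hpair
    have ha : ∀ j : Fin m, ∃ a : ℕ, ∀ k < y, a ≡ t k j [MOD mo k] := by
      intro j
      obtain ⟨a, ha⟩ := Nat.chineseRemainderOfFinset (fun k => t k j) mo (range y) hne hpair
      exact ⟨a, fun k hk => ha k (by simpa using hk)⟩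
    choose a ha using ha
    refine ⟨c, a, ?_, ?_, ?_⟩
    · apply hprod
      intro k hk
      have hck : c ≡ k [MOD mo k] := hc k (by simpa using hk)
      have : 1 + (c + 1) * T ≡ 1 + (k + 1) * T [MOD mo k] :=
        (Nat.ModEq.refl 1).add ((hck.add_right 1).mul_right T)
      have h0 : 1 + (k + 1) * T ≡ 0 [MOD mo k] := by
        simp [Nat.ModEq, mo]
      exact (Nat.modEq_zero_iff_dvd).1 (this.trans h0)
    · intro j
      apply hprod
      intro k hk
      rw [← Nat.descFactorial_eq_factorial_mul_choose, Nat.descFactorial_eq_prod_range]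
      have hle := htu k hk j
      by_cases hcmp : t k j ≤ a j
      · have h1 : mo k ∣ a j - t k j := (Nat.modEq_iff_dvd' hcmp).1 (ha j k hk).symm
        exact h1.trans (Finset.dvd_prod_of_mem (fun i => a j - i)
          (Finset.mem_range.2 (Nat.lt_succ_of_le hle)))
      · have : ∏ i ∈ range (u + 1), (a j - i) = 0 :=
          Finset.prod_eq_zero (Finset.mem_range.2 (Nat.lt_succ_of_le hle)) (by omega)
        rw [this]
        exact dvd_zero _
    · apply hprod
      intro k hk
      rw [← Int.natCast_dvd]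
      have hcong : q (Sum.elim (Option.elim' c x) a) ≡ q (Sum.elim (Option.elim' k x) (t k))
          [ZMOD (mo k : ℕ)] := by
        apply poly_modEq
        rintro ((_ | i) | j)
        · exact hc k (by simpa using hk)
        · exact Nat.ModEq.refl _
        · exact ha j k hk
      rw [ht k hk] at hcong
      exact (Int.modEq_zero_iff_dvd).1 hcong
  · rintro ⟨u, c, a, h1, h2, h3⟩ k hk
    set Q := F (Sum.elim (Option.elim' y x) fun _ => u) + y + u + 1 with hQ
    set T := Q ! with hT
    have hTpos : 0 < T := Nat.factorial_pos _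
    set P := 1 + (k + 1) * T with hP
    have hPN : P ∣ ∏ k ∈ range y, (1 + (k + 1) * T) :=
      Finset.dvd_prod_of_mem (fun k => 1 + (k + 1) * T) (Finset.mem_range.2 hk)
    have hP1 : P ≠ 1 := by
      have : 0 < (k + 1) * T := by positivity
      omega
    obtain ⟨p, hp, hpP⟩ := Nat.exists_prime_and_dvd hP1
    have hpT : ¬ p ∣ T := by
      intro hd
      have : p ∣ 1 := (Nat.dvd_add_left (hd.mul_left (k + 1))).1 hpP
      exact hp.one_lt.ne' (Nat.dvd_one.1 this)
    have hpQ : Q < p := by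
      by_contra hle
      exact hpT (Nat.dvd_factorial hp.pos (by omega))
    -- c ≡ k mod p
    have hck : c ≡ k [MOD p] := by
      have e1 : p ∣ 1 + (c + 1) * T := hpP.trans (hPN.trans h1)
      have e2 : 1 + (c + 1) * T ≡ 1 + (k + 1) * T [MOD p] :=
        ((Nat.modEq_zero_iff_dvd).2 e1).trans ((Nat.modEq_zero_iff_dvd).2 hpP).symm
      have e3 : (c + 1) * T ≡ (k + 1) * T [MOD p] := Nat.ModEq.add_left_cancel' 1 e2
      have e4 : c + 1 ≡ k + 1 [MOD p] :=
        Nat.ModEq.cancel_right_of_coprime ((Nat.Prime.coprime_iff_not_dvd hp).2 hpT) e3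
      exact Nat.ModEq.add_right_cancel' 1 e4
    -- choose the witnesses
    have hj : ∀ j, ∃ i ≤ u, a j ≡ i [MOD p] := by
      intro j
      have e1 : p ∣ (a j).descFactorial (u + 1) := by
        rw [Nat.descFactorial_eq_factorial_mul_choose]
        exact hpP.trans (hPN.trans (h2 j))
      rw [Nat.descFactorial_eq_prod_range] at e1
      obtain ⟨i, hi, hdi⟩ := (hp.prime.dvd_finsetProd_iff _).1 e1
      have hi' : i ≤ u := Nat.lt_succ_iff.1 (Finset.mem_range.1 hi)
      by_cases hia : i ≤ a j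
      · exact ⟨i, hi', ((Nat.modEq_iff_dvd' hia).2 hdi).symm⟩
      · exact ⟨a j, by omega, Nat.ModEq.refl _⟩
    choose t htu hta using hj
    refine ⟨t, ?_⟩
    have hcong : q (Sum.elim (Option.elim' c x) a) ≡ q (Sum.elim (Option.elim' k x) t)
        [ZMOD (p : ℕ)] := by
      apply poly_modEq
      rintro ((_ | i) | j)
      · exact hck
      · exact Nat.ModEq.refl _
      · exact hta j
    have hdvd : (p : ℤ) ∣ q (Sum.elim (Option.elim' k x) t) := by
      have e1 : (p : ℤ) ∣ q (Sum.elim (Option.elim' c x) a) :=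
        Int.natCast_dvd.2 (hpP.trans (hPN.trans h3))
      exact (Int.modEq_zero_iff_dvd).1 (hcong.symm.trans ((Int.modEq_zero_iff_dvd).2 e1))
    have hsmall : (q (Sum.elim (Option.elim' k x) t)).natAbs < p := by
      calc (q (Sum.elim (Option.elim' k x) t)).natAbs
          ≤ F (Sum.elim (Option.elim' k x) t) := hbd _
        _ ≤ F (Sum.elim (Option.elim' y x) fun _ => u) := by
            apply hmono
            rintro ((_ | i) | j)
            · exact hk.le
            · exact le_rfl
            · exact htu j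
        _ ≤ Q := by omega
        _ < p := hpQ
    exact Int.eq_zero_of_abs_lt_dvd hdvd (by
      rw [Int.abs_eq_natAbs]; exact_mod_cast hsmall)

/-- **Bounded quantifier theorem**: Diophantine sets are closed under bounded universal
quantification. -/
theorem bq {α : Type} {S : Set (Option α → ℕ)} (hS : Dioph S) :
    Dioph {v : Option α → ℕ | ∀ k < v none, Option.elim' k (v ∘ some) ∈ S} := by
  obtain ⟨β, p, hp⟩ := hS
  obtain ⟨m, q, hq⟩ := finite_dummies p
  obtain ⟨F, dF, mF, bF⟩ := poly_bound q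
  -- index types
  let V := Option α ⊕ (Fin 2 ⊕ Fin m)
  have dy : DiophFn (fun w : V → ℕ => w (Sum.inl none)) := proj_dioph _
  have du : DiophFn (fun w : V → ℕ => w (Sum.inr (Sum.inl 0))) := proj_dioph _
  have dc : DiophFn (fun w : V → ℕ => w (Sum.inr (Sum.inl 1))) := proj_dioph _
  have da : ∀ j, DiophFn (fun w : V → ℕ => w (Sum.inr (Sum.inr j))) := fun j => proj_dioph _
  have d1 : DiophFn (fun _ : V → ℕ => 1) := const_dioph 1
  let ρ : Option α ⊕ Fin m → V := Sum.elim Sum.inl (fun _ => Sum.inr (Sum.inl 0))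
  let ρ' : Option α ⊕ Fin m → V :=
    Sum.elim (Option.elim' (Sum.inr (Sum.inl 1)) (fun i => Sum.inl (some i)))
      (fun j => Sum.inr (Sum.inr j))
  have dF' : DiophFn (fun w : V → ℕ => F (w ∘ ρ)) := reindex_diophFn ρ dF
  have dQ := add_dioph (add_dioph (add_dioph dF' dy) du) d1
  have dT := factorial_dioph dQ
  have dN := prod_dioph dT dy (fun v => Nat.factorial_pos _)
  have c1 := dvd_dioph dN (add_dioph d1 (mul_dioph (add_dioph dc d1) dT))
  have c2 := forall_fin_dioph (fun j => dvd_dioph dN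
    (mul_dioph (factorial_dioph (add_dioph du d1)) (choose_dioph (da j) (add_dioph du d1))))
  have c3 := dvd_dioph dN (abs_poly_dioph (q.map ρ'))
  refine Dioph.ext (ex_dioph (c1.inter (c2.inter c3))) fun v => ?_
  have hiff : (∀ k < v none, Option.elim' k (v ∘ some) ∈ S) ↔
      (∀ k < v none, ∃ t : Fin m → ℕ, q (Sum.elim (Option.elim' k (v ∘ some)) t) = 0) := by
    refine forall_congr' fun k => forall_congr' fun _ => ?_
    rw [hp, hq]
  rw [Set.mem_ofPred_eq, Set.mem_ofPred_eq, hiff, bq_core q F mF bF (v ∘ some) (v none)]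
  have hv : Option.elim' (v none) (v ∘ some) = v := by
    funext i; cases i <;> rfl
  rw [hv]
  have e1 : ∀ (z : Fin 2 ⊕ Fin m → ℕ), (Sum.elim v z) ∘ ρ = Sum.elim v (fun _ => z (Sum.inl 0)) := by
    intro z; funext s; rcases s with s | s <;> rfl
  have e2 : ∀ (z : Fin 2 ⊕ Fin m → ℕ), (Sum.elim v z) ∘ ρ' =
      Sum.elim (Option.elim' (z (Sum.inl 1)) (v ∘ some)) (fun j => z (Sum.inr j)) := by
    intro z; funext s; rcases s with (_ | s) | s <;> rfl
  constructor
  · rintro ⟨z, h1, h2, h3⟩
    refine ⟨z (Sum.inl 0), z (Sum.inl 1), fun j => z (Sum.inr j), ?_, ?_, ?_⟩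
    · simpa [e1] using h1
    · intro j; simpa [e1] using h2 j
    · simpa [e1, e2] using h3
  · rintro ⟨u, c, a, h1, h2, h3⟩
    refine ⟨Sum.elim ![u, c] a, ?_, ?_, ?_⟩
    · simpa [e1] using h1
    · intro j; simpa [e1] using h2 j
    · simpa [e1, e2] using h3

end Pool.Agent.Helper76
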