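import Pool.Agent.Helper76.DomF4

/-!
The local limit lemma for the block `(N, 2N]`: final form.
-/

namespace Pool.Agent.Helper95.Dom

open MeasureTheory ProbabilityTheory Filter
open scoped Topology

theorem win_lower {a : ℝ} {N : ℕ} (ha : 1 ≤ a) (h1 : a ≤ N) (h2 : (N : ℝ) ≤ a + 1) {z W : ℝ}
    (hz : |z| ≤ W * (N * √N)) {J : ℕ} (hJ : 1 ≤ J) (hJN : J ≤ N) :
    1 / 2 * Real.exp (-(W ^ 2 / v0)) - C8 / √√N - 16 * CF / J - 4 / N
      ≤ √N * (PA a).real {ω | |XF a (Finset.Ioc N (2 * N)) ω - z| ≤ J * N} := by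
  have hN1 : (1 : ℝ) ≤ N := by linarith
  have hN : (0 : ℝ) < N := by linarith
  have hsN : 0 < √(N : ℝ) := Real.sqrt_pos.2 hN
  have hC := CF_pos
  have h3 := fk_lower ha h1 h2 hz
  have h4 := fk_split (P := PA a) (meas_XF a (Finset.Ioc N (2 * N))) (N := N) (J := J) (M := N)
    (by exact_mod_cast hN1) hJ hJN z (p := CF / √N) (by positivity)
    (fun y => conc_c ha h1 h2 le_rfl (by omega) le_rfl (by omega) y)
  have h5 := mul_le_mul_of_nonneg_left h4 hsN.le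
  have hJ' : (0 : ℝ) < J := by exact_mod_cast hJ
  have e1 : √(N : ℝ) * (16 / J * (CF / √N)) = 16 * CF / J := by field_simp
  have e2 : √(N : ℝ) * (4 / (N : ℝ) ^ 2) ≤ 4 / N := by
    have h6 : √(N : ℝ) ≤ N := by
      rw [Real.sqrt_le_left hN.le]
      nlinarith
    calc √(N : ℝ) * (4 / (N : ℝ) ^ 2) ≤ N * (4 / (N : ℝ) ^ 2) :=
          mul_le_mul_of_nonneg_right h6 (by positivity)
      _ = _ := by field_simp
  rw [mul_add, mul_add, e1] at h5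
  linarith

theorem XF_split (a : ℝ) {L M R : ℕ} (h1 : L ≤ M) (h2 : M ≤ R) (ω : Om) :
    XF a (Finset.Ioc L R) ω = XF a (Finset.Ioc L M) ω + XF a (Finset.Ioc M R) ω := by
  unfold XF
  rw [← Finset.sum_union (Finset.Ioc_disjoint_Ioc_of_le le_rfl),
    Finset.Ioc_union_Ioc_eq_Ioc h1 h2]

theorem var_sum_le {a : ℝ} {N L R : ℕ} (ha : 1 ≤ a) (h1 : a ≤ N) (hL : N ≤ L) (hR : R ≤ 2 * N) :
    ∑ s ∈ Finset.Ioc L R, mu a s * (1 + mu a s) ≤ 2 * N := by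
  have h : ∑ s ∈ Finset.Ioc L R, mu a s * (1 + mu a s) ≤ ∑ s ∈ Finset.Ioc L R, (2 : ℝ) := by
    apply Finset.sum_le_sum
    intro s hs
    rw [Finset.mem_Ioc] at hs
    have h3 := blk_mu_le ha h1 (by omega : N < s)
    have h30 := mu_nonneg (by linarith : 0 < a) s
    nlinarith
  refine h.trans ?_
  rw [Finset.sum_const, Nat.card_Ioc, nsmul_eq_mul]
  have h3 : ((R - L : ℕ) : ℝ) ≤ N := by exact_mod_cast (by omega : R - L ≤ N)
  linarith

theorem dep_max (a : ℝ) (L R : ℕ) (x : ℝ) (ω ω' : Om)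
    (h : ∀ s ∈ Finset.Ioc L R, ω s = ω' s) :
    (ω ∈ {ω | ∃ t, L ≤ t ∧ t ≤ R ∧ x ≤ |∑ s ∈ Finset.Ioc t R, (ma s ω - mu a s)|}
      ↔ ω' ∈ {ω | ∃ t, L ≤ t ∧ t ≤ R ∧ x ≤ |∑ s ∈ Finset.Ioc t R, (ma s ω - mu a s)|}) := by
  have key : ∀ t, L ≤ t → ∑ s ∈ Finset.Ioc t R, (ma s ω - mu a s)
      = ∑ s ∈ Finset.Ioc t R, (ma s ω' - mu a s) := by
    intro t ht
    apply Finset.sum_congr rfl
    intro s hs
    rw [Finset.mem_Ioc] at hs
    unfold ma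
    rw [h s (Finset.mem_Ioc.2 ⟨by omega, hs.2⟩)]
  simp only [Set.mem_ofPred_eq]
  constructor
  · rintro ⟨t, h1, h2, h3⟩
    exact ⟨t, h1, h2, by rw [← key t h1]; exact h3⟩
  · rintro ⟨t, h1, h2, h3⟩
    exact ⟨t, h1, h2, by rw [key t h1]; exact h3⟩

theorem bad_le {a : ℝ} {N : ℕ} (ha : 1 ≤ a) (h1 : a ≤ N) (h2 : (N : ℝ) ≤ a + 1) (hN2 : 2 ≤ N)
    {lam : ℝ} (hlam : 0 < lam) {K : ℕ} (hK : 1 ≤ K) (y : ℝ) :
    (PA a).real ({ω | y ≤ XF a (Finset.Ioc N (2 * N)) ω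
        ∧ XF a (Finset.Ioc N (2 * N)) ω ≤ y + K * N}
      ∩ {ω | ¬ ∀ t, N ≤ t → t ≤ 2 * N →
        |∑ s ∈ Finset.Ioc t (2 * N), (ma s ω - mu a s)| ≤ lam * √N})
      ≤ 2 * (8 / lam ^ 2 * (K * (CF / √N))) := by
  have hN : (0 : ℝ) < N := by linarith
  have ha0 : 0 < a := by linarith
  have hsN : 0 < √(N : ℝ) := Real.sqrt_pos.2 hN
  have hC := CF_pos
  set M := N + N / 2 with hM
  have hM1 : N ≤ M := by omega
  have hM2 : M ≤ 2 * N := by omega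
  set x := lam * √N / 2 with hx
  have hx0 : 0 < x := by rw [hx]; positivity
  have hx2 : 2 * (N : ℝ) / x ^ 2 = 8 / lam ^ 2 := by
    rw [hx, div_pow, mul_pow, Real.sq_sqrt hN.le]
    field_simp
    norm_num
  set B1 : Set Om := {ω | ∃ t, N ≤ t ∧ t ≤ M ∧ x ≤ |∑ s ∈ Finset.Ioc t M, (ma s ω - mu a s)|}
    with hB1
  set B2 : Set Om := {ω | ∃ t, M ≤ t ∧ t ≤ 2 * N
    ∧ x ≤ |∑ s ∈ Finset.Ioc t (2 * N), (ma s ω - mu a s)|} with hB2
  have p1 : (PA a).real B1 ≤ 8 / lam ^ 2 := by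
    rw [← hx2]
    refine (kolm_ma ha0 M N hM1 hx0).trans ?_
    exact div_le_div_of_nonneg_right (var_sum_le ha h1 le_rfl hM2) (by positivity)
  have p2 : (PA a).real B2 ≤ 8 / lam ^ 2 := by
    rw [← hx2]
    refine (kolm_ma ha0 (2 * N) M hM2 hx0).trans ?_
    exact div_le_div_of_nonneg_right (var_sum_le ha h1 hM1 le_rfl) (by positivity)
  have hsub : {ω : Om | ¬ ∀ t, N ≤ t → t ≤ 2 * N →
        |∑ s ∈ Finset.Ioc t (2 * N), (ma s ω - mu a s)| ≤ lam * √N} ⊆ B1 ∪ B2 := by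
    intro ω hω
    simp only [Set.mem_ofPred_eq] at hω
    push Not at hω
    obtain ⟨t, ht1, ht2, ht3⟩ := hω
    rcases le_total M t with h | h
    · right
      refine ⟨t, h, ht2, ?_⟩
      rw [hx]
      have : 0 < lam * √N := by positivity
      linarith
    · have e : ∑ s ∈ Finset.Ioc t (2 * N), (ma s ω - mu a s)
          = ∑ s ∈ Finset.Ioc t M, (ma s ω - mu a s)
            + ∑ s ∈ Finset.Ioc M (2 * N), (ma s ω - mu a s) := by
        rw [← Finset.sum_union (Finset.Ioc_disjoint_Ioc_of_le le_rfl),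
          Finset.Ioc_union_Ioc_eq_Ioc h hM2]
      rw [e] at ht3
      have h5 := abs_add_le (∑ s ∈ Finset.Ioc t M, (ma s ω - mu a s))
        (∑ s ∈ Finset.Ioc M (2 * N), (ma s ω - mu a s))
      by_cases h6 : x ≤ |∑ s ∈ Finset.Ioc t M, (ma s ω - mu a s)|
      · left
        exact ⟨t, ht1, h, h6⟩
      · right
        refine ⟨M, le_rfl, hM2, ?_⟩
        push Not at h6
        have : lam * √N = x + x := by rw [hx]; ring
        linarith
  have hdisj : Disjoint (Finset.Ioc N M) (Finset.Ioc M (2 * N)) :=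
    Finset.Ioc_disjoint_Ioc_of_le le_rfl
  have q1 : (PA a).real ({ω | y ≤ XF a (Finset.Ioc N M) ω + XF a (Finset.Ioc M (2 * N)) ω
      ∧ XF a (Finset.Ioc N M) ω + XF a (Finset.Ioc M (2 * N)) ω ≤ y + K * N} ∩ B1)
      ≤ (PA a).real B1 * (K * (CF / √N)) := by
    apply indep_sup a (Finset.Ioc N M) (Finset.Ioc M (2 * N)) hdisj (dep_max a N M x)
      (XF_dep a _) (XF_dep a _) (by positivity)
    apply long_window _ K hK
    intro u
    exact conc_c ha h1 h2 hM1 hM2 le_rfl (by omega) u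
  have q2 : (PA a).real ({ω | y ≤ XF a (Finset.Ioc M (2 * N)) ω + XF a (Finset.Ioc N M) ω
      ∧ XF a (Finset.Ioc M (2 * N)) ω + XF a (Finset.Ioc N M) ω ≤ y + K * N} ∩ B2)
      ≤ (PA a).real B2 * (K * (CF / √N)) := by
    apply indep_sup a (Finset.Ioc M (2 * N)) (Finset.Ioc N M) hdisj.symm
      (dep_max a M (2 * N) x) (XF_dep a _) (XF_dep a _) (by positivity)
    apply long_window _ K hK
    intro u
    exact conc_c ha h1 h2 le_rfl hM1 hM2 (by omega) u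
  have hA1 : {ω | y ≤ XF a (Finset.Ioc N (2 * N)) ω
        ∧ XF a (Finset.Ioc N (2 * N)) ω ≤ y + K * N}
      = {ω | y ≤ XF a (Finset.Ioc N M) ω + XF a (Finset.Ioc M (2 * N)) ω
      ∧ XF a (Finset.Ioc N M) ω + XF a (Finset.Ioc M (2 * N)) ω ≤ y + K * N} := by
    ext ω
    simp only [Set.mem_ofPred_eq, XF_split a hM1 hM2]
  have hA2 : {ω | y ≤ XF a (Finset.Ioc N (2 * N)) ω
        ∧ XF a (Finset.Ioc N (2 * N)) ω ≤ y + K * N}
      = {ω | y ≤ XF a (Finset.Ioc M (2 * N)) ω + XF a (Finset.Ioc N M) ω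
      ∧ XF a (Finset.Ioc M (2 * N)) ω + XF a (Finset.Ioc N M) ω ≤ y + K * N} := by
    ext ω
    simp only [Set.mem_ofPred_eq, XF_split a hM1 hM2, add_comm]
  have hcov : {ω | y ≤ XF a (Finset.Ioc N (2 * N)) ω
        ∧ XF a (Finset.Ioc N (2 * N)) ω ≤ y + K * N}
      ∩ {ω | ¬ ∀ t, N ≤ t → t ≤ 2 * N →
        |∑ s ∈ Finset.Ioc t (2 * N), (ma s ω - mu a s)| ≤ lam * √N}
      ⊆ ({ω | y ≤ XF a (Finset.Ioc N M) ω + XF a (Finset.Ioc M (2 * N)) ω
      ∧ XF a (Finset.Ioc N M) ω + XF a (Finset.Ioc M (2 * N)) ω ≤ y + K * N} ∩ B1)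
      ∪ ({ω | y ≤ XF a (Finset.Ioc M (2 * N)) ω + XF a (Finset.Ioc N M) ω
      ∧ XF a (Finset.Ioc M (2 * N)) ω + XF a (Finset.Ioc N M) ω ≤ y + K * N} ∩ B2) := by
    rintro ω ⟨h3, h4⟩
    rcases hsub h4 with h5 | h5
    · left
      exact ⟨by rw [← hA1]; exact h3, h5⟩
    · right
      exact ⟨by rw [← hA2]; exact h3, h5⟩
  have h3 := (measureReal_mono (μ := PA a) hcov (measure_ne_top _ _)).trans
    (measureReal_union_le _ _)
  have hKC : 0 ≤ (K : ℝ) * (CF / √N) := by positivity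
  have r1 := mul_le_mul_of_nonneg_right p1 hKC
  have r2 := mul_le_mul_of_nonneg_right p2 hKC
  linarith

theorem F_local (C' : ℝ) : ∃ (K1 : ℕ) (c lam0 a0 : ℝ), 1 ≤ K1 ∧ 0 < c ∧ 0 < lam0 ∧ 1 ≤ a0 ∧
    ∀ (a : ℝ) (N : ℕ), a0 ≤ a → a ≤ N → (N : ℝ) ≤ a + 1 → ∀ y : ℝ, |y| ≤ C' * (N * √N) →
      c / √N ≤ (PA a).real {ω | y ≤ ∑ s ∈ Finset.Ioc N (2 * N), (s : ℝ) * (ma s ω - mu a s)
        ∧ ∑ s ∈ Finset.Ioc N (2 * N), (s : ℝ) * (ma s ω - mu a s) ≤ y + K1 * N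
        ∧ ∀ t, N ≤ t → t ≤ 2 * N →
          |∑ s ∈ Finset.Ioc t (2 * N), (ma s ω - mu a s)| ≤ lam0 * √N} := by
  have hv := v0_pos
  have hC := CF_pos
  have hC8 := C8_pos
  set W := |C'| + 1 with hW
  set c0 := 1 / 2 * Real.exp (-(W ^ 2 / v0)) with hc0
  have hc0p : 0 < c0 := by rw [hc0]; positivity
  obtain ⟨J, hJ⟩ : ∃ J : ℕ, 64 * CF / c0 + 1 ≤ J := exists_nat_ge _
  have hJ1 : (1 : ℝ) ≤ J := by
    have : 0 < 64 * CF / c0 := by positivity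
    linarith
  have hJ1' : 1 ≤ J := by exact_mod_cast hJ1
  have hJ0 : (0 : ℝ) < J := by linarith
  have hJc : 16 * CF / J ≤ c0 / 4 := by
    rw [div_le_iff₀ hJ0]
    have h3 : 64 * CF / c0 ≤ J := by linarith
    rw [div_le_iff₀ hc0p] at h3
    linarith
  set lam := √(128 * J * CF / c0) with hlam
  have hlam0 : 0 < lam := by rw [hlam]; positivity
  have hlam2 : lam ^ 2 = 128 * J * CF / c0 := Real.sq_sqrt (by positivity)
  set a0 : ℝ := max (max 2 ((J : ℝ) ^ 2)) (max ((8 * C8 / c0) ^ 4) (32 / c0)) with ha0def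
  refine ⟨2 * J, c0 / 4, lam, a0, by omega, by positivity, hlam0, ?_, ?_⟩
  · exact le_trans (by norm_num) ((le_max_left (2 : ℝ) _).trans (le_max_left _ _))
  intro a N haa h1 h2 y hy
  have k1 : (2 : ℝ) ≤ a := ((le_max_left (2 : ℝ) _).trans (le_max_left _ _)).trans haa
  have k2 : (J : ℝ) ^ 2 ≤ a := ((le_max_right (2 : ℝ) _).trans (le_max_left _ _)).trans haa
  have k3 : (8 * C8 / c0) ^ 4 ≤ a := ((le_max_left _ _).trans (le_max_right _ _)).trans haa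
  have k4 : 32 / c0 ≤ a := ((le_max_right _ _).trans (le_max_right _ _)).trans haa
  have ha1 : 1 ≤ a := by linarith
  have hN : (0 : ℝ) < N := by linarith
  have hN2 : 2 ≤ N := by
    have : (2 : ℝ) ≤ N := by linarith
    exact_mod_cast this
  have hsN : 0 < √(N : ℝ) := Real.sqrt_pos.2 hN
  have hssN : 0 < √√(N : ℝ) := Real.sqrt_pos.2 hsN
  have hJs : (J : ℝ) ≤ √N := Real.le_sqrt_of_sq_le (by linarith)
  have hJN : J ≤ N := by
    have : (J : ℝ) ≤ N := by nlinarith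
    exact_mod_cast this
  have e8 : C8 / √√N ≤ c0 / 8 := by
    rw [div_le_iff₀ hssN]
    have h3 : (8 * C8 / c0) ≤ √√(N : ℝ) := by
      apply Real.le_sqrt_of_sq_le
      apply Real.le_sqrt_of_sq_le
      have : ((8 * C8 / c0) ^ 2) ^ 2 = (8 * C8 / c0) ^ 4 := by ring
      rw [this]
      linarith
    rw [div_le_iff₀ hc0p] at h3
    linarith
  have e4 : 4 / (N : ℝ) ≤ c0 / 8 := by
    rw [div_le_iff₀ hN]
    have h3 : 32 / c0 ≤ N := by linarith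
    rw [div_le_iff₀ hc0p] at h3
    linarith
  have hz : |y + J * N| ≤ W * (N * √N) := by
    have h3 : |y + J * N| ≤ |y| + J * N := by
      refine (abs_add_le _ _).trans ?_
      rw [abs_of_nonneg (by positivity : (0 : ℝ) ≤ (J : ℝ) * N)]
    have h4 : C' * (N * √N) ≤ |C'| * (N * √N) :=
      mul_le_mul_of_nonneg_right (le_abs_self _) (by positivity)
    have h5 : (J : ℝ) * N ≤ N * √N := by
      rw [mul_comm]
      exact mul_le_mul_of_nonneg_left hJs hN.le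
    rw [hW]
    linarith
  have h3 := win_lower ha1 h1 h2 hz hJ1' hJN
  have hsetA : {ω : Om | |XF a (Finset.Ioc N (2 * N)) ω - (y + J * N)| ≤ J * N}
      = {ω | y ≤ XF a (Finset.Ioc N (2 * N)) ω
        ∧ XF a (Finset.Ioc N (2 * N)) ω ≤ y + ((2 * J : ℕ) : ℝ) * N} := by
    ext ω
    simp only [Set.mem_ofPred_eq, abs_le]
    push_cast
    constructor
    · rintro ⟨h4, h5⟩; constructor <;> linarith
    · rintro ⟨h4, h5⟩; constructor <;> linarith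
  rw [hsetA] at h3
  set A : Set Om := {ω | y ≤ XF a (Finset.Ioc N (2 * N)) ω
        ∧ XF a (Finset.Ioc N (2 * N)) ω ≤ y + ((2 * J : ℕ) : ℝ) * N} with hA
  have h4 : c0 / 2 ≤ √N * (PA a).real A := by linarith
  have h5 : c0 / 2 / √N ≤ (PA a).real A := by
    rw [div_le_iff₀ hsN]; linarith
  have h6 := bad_le ha1 h1 h2 hN2 hlam0 (K := 2 * J) (by omega) y
  rw [← hA] at h6
  set Bad : Set Om := {ω | ¬ ∀ t, N ≤ t → t ≤ 2 * N →
        |∑ s ∈ Finset.Ioc t (2 * N), (ma s ω - mu a s)| ≤ lam * √N} with hBad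
  have h7 : 2 * (8 / lam ^ 2 * (((2 * J : ℕ) : ℝ) * (CF / √N))) = c0 / 4 / √N := by
    rw [hlam2]
    push_cast
    field_simp
    norm_num
  rw [h7] at h6
  have h8 : A ⊆ (A ∩ Bad) ∪ {ω | y ≤ ∑ s ∈ Finset.Ioc N (2 * N), (s : ℝ) * (ma s ω - mu a s)
        ∧ ∑ s ∈ Finset.Ioc N (2 * N), (s : ℝ) * (ma s ω - mu a s) ≤ y + ((2 * J : ℕ) : ℝ) * N
        ∧ ∀ t, N ≤ t → t ≤ 2 * N →
          |∑ s ∈ Finset.Ioc t (2 * N), (ma s ω - mu a s)| ≤ lam * √N} := by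
    intro ω hω
    by_cases h9 : ω ∈ Bad
    · exact Or.inl ⟨hω, h9⟩
    · right
      rw [hBad, Set.mem_ofPred_eq, not_not] at h9
      exact ⟨hω.1, hω.2, h9⟩
  have h9 := (measureReal_mono (μ := PA a) h8 (measure_ne_top _ _)).trans
    (measureReal_union_le _ _)
  have h10 : c0 / 4 / √N = c0 / 2 / √N - c0 / 4 / √N := by ring
  rw [h10]
  linarith

end Pool.Agent.Helper95.Dom
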