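import Pool.Agent.Helper95.DomSym

/-!
The Fejér kernel, and characteristic functions of centred geometric variables.
-/

namespace Pool.Agent.Helper95.Dom

open MeasureTheory ProbabilityTheory Filter
open scoped Topology

/-- triangle function. -/
noncomputable def tri (θ : ℝ) : ℝ := max 0 (1 - |θ|)

theorem tri_nonneg (θ : ℝ) : 0 ≤ tri θ := le_max_left _ _

theorem tri_le_one (θ : ℝ) : tri θ ≤ 1 := by
  unfold tri
  exact max_le zero_le_one (by linarith [abs_nonneg θ])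

theorem tri_neg (θ : ℝ) : tri (-θ) = tri θ := by simp [tri]

theorem tri_cont : Continuous tri := by
  unfold tri; fun_prop

theorem tri_eq_zero {θ : ℝ} (h : 1 ≤ |θ|) : tri θ = 0 := by
  unfold tri
  exact max_eq_left (by linarith)

theorem tri_eq {θ : ℝ} (h : |θ| ≤ 1) : tri θ = 1 - |θ| := by
  unfold tri
  exact max_eq_right (by linarith)

theorem one_sub_tri (θ : ℝ) : 1 - tri θ ≤ |θ| := by
  unfold tri
  have := le_max_right 0 (1 - |θ|)
  linarith

theorem tri_supp : HasCompactSupport tri := by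
  apply HasCompactSupport.of_support_subset_isCompact (isCompact_Icc (a := (-1 : ℝ)) (b := 1))
  intro θ hθ
  rw [Function.mem_support] at hθ
  by_contra hcon
  apply hθ
  apply tri_eq_zero
  by_contra h
  push Not at h
  rw [abs_lt] at h
  exact hcon ⟨h.1.le, h.2.le⟩

theorem tri_int : Integrable tri := tri_cont.integrable_of_hasCompactSupport tri_supp

/-- the Fejér kernel. -/
noncomputable def fk (x : ℝ) : ℝ := ∫ θ, tri θ * Real.cos (θ * x)

theorem fk_half (x : ℝ) : fk x = 2 * ∫ θ in (0 : ℝ)..1, (1 - θ) * Real.cos (θ * x) := by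
  unfold fk
  have h1 : (fun θ : ℝ => tri θ * Real.cos (θ * x))
      = fun θ => (fun u => tri u * Real.cos (u * x)) |θ| := by
    funext θ
    show _ = tri |θ| * Real.cos (|θ| * x)
    rcases abs_cases θ with ⟨h, _⟩ | ⟨h, _⟩
    · rw [h]
    · rw [h, tri_neg, neg_mul, Real.cos_neg]
  rw [h1, integral_comp_abs (f := fun u => tri u * Real.cos (u * x))]
  congr 1
  have h2 : ∫ θ in Set.Ioi (0 : ℝ), tri θ * Real.cos (θ * x)
      = ∫ θ in Set.Ioc (0 : ℝ) 1, tri θ * Real.cos (θ * x) := by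
    apply setIntegral_eq_of_subset_of_forall_sdiff_eq_zero measurableSet_Ioi
      Set.Ioc_subset_Ioi_self
    rintro θ ⟨h3, h4⟩
    have h5 : 1 ≤ |θ| := by
      by_contra h
      push Not at h
      apply h4
      exact ⟨h3, ((abs_lt.1 h).2).le⟩
    rw [tri_eq_zero h5, zero_mul]
  rw [h2, ← intervalIntegral.integral_of_le zero_le_one]
  apply intervalIntegral.integral_congr
  intro θ hθ
  rw [Set.uIcc_of_le zero_le_one] at hθ
  show tri θ * Real.cos (θ * x) = (1 - θ) * Real.cos (θ * x)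
  rw [tri_eq (by rw [abs_of_nonneg hθ.1]; exact hθ.2), abs_of_nonneg hθ.1]

theorem fk_eq {x : ℝ} (hx : x ≠ 0) : fk x = 2 * ((1 - Real.cos x) / x ^ 2) := by
  rw [fk_half]
  congr 1
  have h4 : ∀ θ ∈ Set.uIcc (0 : ℝ) 1, HasDerivAt
      (fun θ => (1 - θ) * Real.sin (θ * x) / x - Real.cos (θ * x) / x ^ 2)
      ((1 - θ) * Real.cos (θ * x)) θ := by
    intro θ _
    have e1 : HasDerivAt (fun θ : ℝ => θ * x) x θ := by
      simpa using (hasDerivAt_id θ).mul_const x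
    have e2 : HasDerivAt (fun θ : ℝ => Real.sin (θ * x)) (Real.cos (θ * x) * x) θ := e1.sin
    have e3 : HasDerivAt (fun θ : ℝ => Real.cos (θ * x)) (-Real.sin (θ * x) * x) θ := e1.cos
    have e4 : HasDerivAt (fun θ : ℝ => 1 - θ) (-1) θ := by
      simpa using (hasDerivAt_id θ).const_sub 1
    have e5 := ((e4.mul e2).div_const x).sub (e3.div_const (x ^ 2))
    refine e5.congr_deriv ?_
    field_simp
    ring
  rw [intervalIntegral.integral_eq_sub_of_hasDerivAt h4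
    (Continuous.intervalIntegrable (by fun_prop) _ _)]
  simp
  ring

theorem fk_zero : fk 0 = 1 := by
  rw [fk_half]
  simp only [mul_zero, Real.cos_zero, mul_one]
  have h4 : ∀ θ ∈ Set.uIcc (0 : ℝ) 1, HasDerivAt (fun θ : ℝ => θ - θ ^ 2 / 2) (1 - θ) θ := by
    intro θ _
    have e1 := (hasDerivAt_id θ).sub (((hasDerivAt_id θ).pow 2).div_const 2)
    refine e1.congr_deriv ?_
    simp
  rw [intervalIntegral.integral_eq_sub_of_hasDerivAt h4
    (Continuous.intervalIntegrable (by fun_prop) _ _)]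
  norm_num

theorem fk_nonneg (x : ℝ) : 0 ≤ fk x := by
  rcases eq_or_ne x 0 with h | h
  · rw [h, fk_zero]; norm_num
  · rw [fk_eq h]
    have := Real.cos_le_one x
    have : 0 ≤ 1 - Real.cos x := by linarith
    positivity

theorem fk_le_one (x : ℝ) : fk x ≤ 1 := by
  rcases eq_or_ne x 0 with h | h
  · rw [h, fk_zero]
  · rw [fk_eq h]
    have := Real.one_sub_sq_div_two_le_cos (x := x)
    have h2 : 0 < x ^ 2 := by positivity
    rw [← mul_div_assoc, div_le_one h2]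
    linarith

theorem fk_le (x : ℝ) (h : x ≠ 0) : fk x ≤ 4 / x ^ 2 := by
  rw [fk_eq h, ← mul_div_assoc]
  apply div_le_div_of_nonneg_right _ (by positivity)
  have := Real.neg_one_le_cos x
  linarith

theorem fk_ge {x : ℝ} (h : |x| ≤ 1) : 1 / 3 ≤ fk x := by
  rcases eq_or_ne x 0 with h0 | h0
  · rw [h0, fk_zero]; norm_num
  · rw [fk_eq h0]
    have hpi := Real.pi_gt_three
    have hpi2 := Real.pi_lt_d2
    have h1 := Real.cos_le_one_sub_mul_cos_sq (x := x) (by linarith)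
    have h2 : 0 < x ^ 2 := by positivity
    have h3 : 2 / Real.pi ^ 2 * x ^ 2 ≤ 1 - Real.cos x := by linarith
    have h4 : 2 / Real.pi ^ 2 ≤ (1 - Real.cos x) / x ^ 2 := by rwa [le_div_iff₀ h2]
    have h5 : (1 : ℝ) / 6 ≤ 2 / Real.pi ^ 2 := by
      rw [div_le_div_iff₀ (by norm_num) (by positivity)]
      nlinarith
    linarith

/-! ### characteristic function of the centred geometric law -/

/-- characteristic function of the centred geometric law. -/
noncomputable def ph (m c : ℝ) : ℂ :=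
  ∫ k : ℕ, Complex.exp (((c * ((k : ℝ) - m) : ℝ) : ℂ) * Complex.I) ∂geo m

theorem ph_norm_le (m c : ℝ) : ‖ph m c‖ ≤ 1 := by
  unfold ph
  refine (norm_integral_le_of_norm_le_const (C := 1) ?_).trans ?_
  · filter_upwards with k
    rw [Complex.norm_exp_ofReal_mul_I]
  · simp

theorem ph_eq {m : ℝ} (hm : 0 ≤ m) (c : ℝ) :
    ph m c = Complex.exp (((-(c * m) : ℝ) : ℂ) * Complex.I)
      * (1 / (1 + m - m * Complex.exp (c * Complex.I))) := by
  rw [← integral_cexp hm c, ← integral_const_mul]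
  unfold ph
  congr 1
  funext k
  rw [← Complex.exp_add]
  congr 1
  push_cast
  ring

theorem ph_sq {m : ℝ} (hm : 0 ≤ m) (c : ℝ) :
    ‖ph m c‖ ^ 2 = 1 / (1 + 2 * (m * (1 + m)) * (1 - Real.cos c)) := by
  rw [ph_eq hm, norm_mul, Complex.norm_exp_ofReal_mul_I, one_mul, norm_div, norm_one, div_pow,
    one_pow]
  congr 1
  have h1 : (1 + (m : ℂ) - m * Complex.exp (c * Complex.I))
      = ((1 + m - m * Real.cos c : ℝ) : ℂ) + ((-(m * Real.sin c) : ℝ) : ℂ) * Complex.I := by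
    rw [Complex.exp_mul_I, ← Complex.ofReal_cos, ← Complex.ofReal_sin]
    push_cast
    ring
  rw [h1, ← Complex.normSq_eq_norm_sq, Complex.normSq_add_mul_I]
  have := Real.sin_sq_add_cos_sq c
  linear_combination m ^ 2 * this

theorem exp_I_taylor (y : ℝ) :
    ‖Complex.exp ((y : ℂ) * Complex.I) - (1 + (y : ℂ) * Complex.I - (y : ℂ) ^ 2 / 2)‖
      ≤ 4 * |y| ^ 3 := by
  have hn : ‖(y : ℂ) * Complex.I‖ = |y| := by
    rw [norm_mul, Complex.norm_I, mul_one, Complex.norm_real, Real.norm_eq_abs]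
  rcases le_or_gt |y| 1 with h | h
  · have h1 := Complex.exp_bound (x := (y : ℂ) * Complex.I) (by rw [hn]; exact h)
      (n := 3) (by norm_num)
    rw [hn] at h1
    have h2 : ∑ m ∈ Finset.range 3, ((y : ℂ) * Complex.I) ^ m / (m.factorial : ℂ)
        = 1 + (y : ℂ) * Complex.I - (y : ℂ) ^ 2 / 2 := by
      simp [Finset.sum_range_succ, mul_pow, Complex.I_sq]
      ring
    rw [h2] at h1
    refine h1.trans ?_
    have h3 : 0 ≤ |y| ^ 3 := by positivity
    norm_num [Nat.factorial]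
    linarith
  · have h1 : ‖Complex.exp ((y : ℂ) * Complex.I)‖ = 1 := Complex.norm_exp_ofReal_mul_I y
    have h2 : ‖(1 + (y : ℂ) * Complex.I - (y : ℂ) ^ 2 / 2)‖ ≤ 1 + |y| + |y| ^ 2 / 2 := by
      refine (norm_sub_le _ _).trans ?_
      have h3 : ‖(1 + (y : ℂ) * Complex.I)‖ ≤ 1 + |y| := by
        refine (norm_add_le _ _).trans ?_
        rw [norm_one, hn]
      have h4 : ‖(y : ℂ) ^ 2 / 2‖ = |y| ^ 2 / 2 := by
        rw [norm_div, norm_pow, Complex.norm_real, Real.norm_eq_abs]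
        simp
      rw [h4]
      linarith
    refine (norm_sub_le _ _).trans ?_
    have h5 : |y| ≤ |y| ^ 3 := by nlinarith [sq_nonneg |y|, mul_pos (lt_trans one_pos h) (lt_trans one_pos h)]
    have h6 : |y| ^ 2 ≤ |y| ^ 3 := by nlinarith [sq_nonneg |y|]
    linarith

/-- a bound for third moments. -/
noncomputable def M3 : ℝ := ∑' k : ℕ, ((k : ℝ) + 1) ^ 3 * (1 / 2 : ℝ) ^ k

theorem M3_sum : Summable (fun k : ℕ => ((k : ℝ) + 1) ^ 3 * (1 / 2 : ℝ) ^ k) := by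
  have h := summable_pow_mul_geometric_of_norm_lt_one (R := ℝ) 3 (r := 1 / 2) (by norm_num)
  have h2 := ((summable_nat_add_iff 1).2 h).mul_left 2
  refine h2.congr ?_
  intro k
  rw [pow_succ (1 / 2 : ℝ) k]
  push_cast
  ring

theorem M3_nonneg : 0 ≤ M3 := tsum_nonneg fun k => by positivity

theorem gw_le_half {m : ℝ} (h0 : 0 ≤ m) (h1 : m ≤ 1) (k : ℕ) : gw m k ≤ (1 / 2 : ℝ) ^ k := by
  rw [gw_eq h0]
  have e1 : (1 + m)⁻¹ ≤ 1 := inv_le_one_of_one_le₀ (by linarith)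
  have e2 : (m / (1 + m)) ≤ 1 / 2 := by
    rw [div_le_div_iff₀ (by linarith) (by norm_num)]; linarith
  have e3 : (m / (1 + m)) ^ k ≤ (1 / 2) ^ k := pow_le_pow_left₀ (ratio_nonneg h0) e2 k
  calc (1 + m)⁻¹ * (m / (1 + m)) ^ k ≤ 1 * (1 / 2) ^ k :=
        mul_le_mul e1 e3 (by have := ratio_nonneg h0; positivity) zero_le_one
    _ = _ := one_mul _

theorem third_le {m : ℝ} (h0 : 0 ≤ m) (h1 : m ≤ 1) (k : ℕ) :
    gw m k * |(k : ℝ) - m| ^ 3 ≤ ((k : ℝ) + 1) ^ 3 * (1 / 2 : ℝ) ^ k := by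
  have e1 : |(k : ℝ) - m| ≤ (k : ℝ) + 1 := by
    have : (0 : ℝ) ≤ k := Nat.cast_nonneg k
    rw [abs_le]; constructor <;> linarith
  have e2 : |(k : ℝ) - m| ^ 3 ≤ ((k : ℝ) + 1) ^ 3 := pow_le_pow_left₀ (abs_nonneg _) e1 3
  rw [mul_comm]
  exact mul_le_mul e2 (gw_le_half h0 h1 k) (gw_nonneg m k) (by positivity)

theorem third_int {m : ℝ} (h0 : 0 ≤ m) (h1 : m ≤ 1) :
    Integrable (fun k : ℕ => |(k : ℝ) - m| ^ 3) (geo m) := by
  rw [integrable_geo_iff]
  apply Summable.of_nonneg_of_le _ _ M3_sum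
  · intro k
    have := gw_nonneg m k
    positivity
  · intro k
    rw [Real.norm_eq_abs, abs_of_nonneg (by positivity)]
    exact third_le h0 h1 k

theorem third_integral {m : ℝ} (h0 : 0 ≤ m) (h1 : m ≤ 1) :
    ∫ k : ℕ, |(k : ℝ) - m| ^ 3 ∂geo m ≤ M3 := by
  rw [integral_geo]
  unfold M3
  apply Summable.tsum_le_tsum _ _ M3_sum
  · intro k
    exact third_le h0 h1 k
  · apply Summable.of_nonneg_of_le _ _ M3_sum
    · intro k
      have := gw_nonneg m k
      show 0 ≤ gw m k * |(k : ℝ) - m| ^ 3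
      positivity
    · intro k
      exact third_le h0 h1 k

theorem ph_taylor {m : ℝ} (h0 : 0 ≤ m) (h1 : m ≤ 1) (c : ℝ) :
    ‖ph m c - ((1 - m * (1 + m) * c ^ 2 / 2 : ℝ) : ℂ)‖ ≤ 4 * M3 * |c| ^ 3 := by
  have i1 : Integrable (fun k : ℕ => ((k : ℝ) - m)) (geo m) :=
    (integrable_id' h0).sub (integrable_const _)
  have i2 : Integrable (fun k : ℕ => ((k : ℝ) - m) ^ 2) (geo m) := by
    have h : MemLp (fun k : ℕ => (k : ℝ) - m) 2 (geo m) := (memLp_two h0).sub (memLp_const _)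
    exact h.integrable_sq
  have iE : Integrable (fun k : ℕ => Complex.exp (((c * ((k : ℝ) - m) : ℝ) : ℂ) * Complex.I))
      (geo m) := by
    apply Integrable.of_bound (measurable_of_countable _).aestronglyMeasurable 1
    filter_upwards with k
    rw [Complex.norm_exp_ofReal_mul_I]
  have i1c : Integrable (fun k : ℕ => ((c * ((k : ℝ) - m) : ℝ) : ℂ) * Complex.I) (geo m) :=
    ((i1.const_mul c).ofReal).mul_const _
  have hsq : (fun k : ℕ => ((c * ((k : ℝ) - m) : ℝ) : ℂ) ^ 2 / 2)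
      = fun k : ℕ => ((c ^ 2 / 2 * ((k : ℝ) - m) ^ 2 : ℝ) : ℂ) := by
    funext k
    push_cast
    ring
  have i2c : Integrable (fun k : ℕ => ((c * ((k : ℝ) - m) : ℝ) : ℂ) ^ 2 / 2) (geo m) := by
    rw [hsq]
    exact (i2.const_mul (c ^ 2 / 2)).ofReal
  have e1 : ∫ k : ℕ, (((c * ((k : ℝ) - m) : ℝ) : ℂ) * Complex.I) ∂geo m = 0 := by
    rw [integral_mul_const, integral_complex_ofReal, integral_const_mul,
      integral_sub (integrable_id' h0) (integrable_const _), integral_mean h0]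
    simp
  have e2 : ∫ k : ℕ, (((c * ((k : ℝ) - m) : ℝ) : ℂ) ^ 2 / 2) ∂geo m
      = ((m * (1 + m) * c ^ 2 / 2 : ℝ) : ℂ) := by
    rw [hsq, integral_complex_ofReal, integral_const_mul, integral_var h0]
    congr 1
    ring
  have i3 : Integrable (fun k : ℕ => (1 : ℂ) + ((c * ((k : ℝ) - m) : ℝ) : ℂ) * Complex.I) (geo m) :=
    (integrable_const _).add i1c
  have i4 : Integrable (fun k : ℕ => (1 : ℂ) + ((c * ((k : ℝ) - m) : ℝ) : ℂ) * Complex.I
      - ((c * ((k : ℝ) - m) : ℝ) : ℂ) ^ 2 / 2) (geo m) := i3.sub i2c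
  have e3 : ∫ k : ℕ, ((1 : ℂ) + ((c * ((k : ℝ) - m) : ℝ) : ℂ) * Complex.I
      - ((c * ((k : ℝ) - m) : ℝ) : ℂ) ^ 2 / 2) ∂geo m
      = ((1 - m * (1 + m) * c ^ 2 / 2 : ℝ) : ℂ) := by
    rw [integral_sub i3 i2c, integral_add (integrable_const _) i1c, e1, e2]
    simp
  have e4 : ph m c - ((1 - m * (1 + m) * c ^ 2 / 2 : ℝ) : ℂ)
      = ∫ k : ℕ, (Complex.exp (((c * ((k : ℝ) - m) : ℝ) : ℂ) * Complex.I)
        - ((1 : ℂ) + ((c * ((k : ℝ) - m) : ℝ) : ℂ) * Complex.I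
      - ((c * ((k : ℝ) - m) : ℝ) : ℂ) ^ 2 / 2)) ∂geo m := by
    rw [integral_sub iE i4, e3]
    rfl
  rw [e4]
  calc ‖∫ k : ℕ, (Complex.exp (((c * ((k : ℝ) - m) : ℝ) : ℂ) * Complex.I)
        - ((1 : ℂ) + ((c * ((k : ℝ) - m) : ℝ) : ℂ) * Complex.I
      - ((c * ((k : ℝ) - m) : ℝ) : ℂ) ^ 2 / 2)) ∂geo m‖
      ≤ ∫ k : ℕ, 4 * |c| ^ 3 * |(k : ℝ) - m| ^ 3 ∂geo m := by
        apply norm_integral_le_of_norm_le ((third_int h0 h1).const_mul _)
        filter_upwards with k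
        refine (exp_I_taylor (c * ((k : ℝ) - m))).trans (le_of_eq ?_)
        rw [abs_mul]
        ring
    _ = 4 * |c| ^ 3 * ∫ k : ℕ, |(k : ℝ) - m| ^ 3 ∂geo m := integral_const_mul _ _
    _ ≤ 4 * |c| ^ 3 * M3 := mul_le_mul_of_nonneg_left (third_integral h0 h1) (by positivity)
    _ = _ := by ring

/-- the local error of the Gaussian approximation. -/
theorem ph_gauss {m : ℝ} (h0 : 0 ≤ m) (h1 : m ≤ 1) (c : ℝ) :
    ‖ph m c - ((Real.exp (-(m * (1 + m) * c ^ 2 / 2)) : ℝ) : ℂ)‖ ≤ (4 * M3 + 2) * |c| ^ 3 := by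
  rcases le_or_gt |c| 1 with h | h
  · set v := m * (1 + m) * c ^ 2 / 2 with hv
    have hc2 : c ^ 2 = |c| ^ 2 := (sq_abs c).symm
    have hc3 : |c| ^ 2 ≤ 1 := pow_le_one₀ (abs_nonneg _) h
    have hm : m * (1 + m) / 2 ≤ 1 := by nlinarith
    have hm0 : 0 ≤ m * (1 + m) / 2 := by positivity
    have hv0 : 0 ≤ v := by rw [hv]; positivity
    have hvc : v ≤ |c| ^ 2 := by
      rw [hv, hc2]
      have := mul_le_mul_of_nonneg_right hm (sq_nonneg |c|)
      linarith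
    have hv1 : v ≤ 1 := hvc.trans hc3
    have h2 := Real.abs_exp_sub_one_sub_id_le (x := -v) (by rw [abs_neg, abs_of_nonneg hv0]; exact hv1)
    have h3 : ‖((1 - v : ℝ) : ℂ) - ((Real.exp (-v) : ℝ) : ℂ)‖ ≤ 2 * |c| ^ 3 := by
      have e : ((1 - v : ℝ) : ℂ) - ((Real.exp (-v) : ℝ) : ℂ)
          = ((-(Real.exp (-v) - 1 - -v) : ℝ) : ℂ) := by
        push_cast; ring
      rw [e, Complex.norm_real, Real.norm_eq_abs, abs_neg]
      refine h2.trans ?_
      have h5 : v ^ 2 ≤ (|c| ^ 2) ^ 2 := pow_le_pow_left₀ hv0 hvc 2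
      have h6 : (|c| ^ 2) ^ 2 ≤ |c| ^ 3 := by
        calc (|c| ^ 2) ^ 2 = |c| ^ 3 * |c| := by ring
          _ ≤ |c| ^ 3 * 1 := mul_le_mul_of_nonneg_left h (by positivity)
          _ = _ := mul_one _
      have h7 : 0 ≤ |c| ^ 3 := by positivity
      have h8 : (-v) ^ 2 = v ^ 2 := by ring
      rw [h8]
      linarith
    have h4 := ph_taylor h0 h1 c
    rw [← hv] at h4
    calc ‖ph m c - ((Real.exp (-v) : ℝ) : ℂ)‖
        = ‖(ph m c - ((1 - v : ℝ) : ℂ)) + (((1 - v : ℝ) : ℂ) - ((Real.exp (-v) : ℝ) : ℂ))‖ := by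
          congr 1; ring
      _ ≤ _ := norm_add_le _ _
      _ ≤ 4 * M3 * |c| ^ 3 + 2 * |c| ^ 3 := add_le_add h4 h3
      _ = _ := by ring
  · have h2 : ‖((Real.exp (-(m * (1 + m) * c ^ 2 / 2)) : ℝ) : ℂ)‖ ≤ 1 := by
      rw [Complex.norm_real, Real.norm_eq_abs, abs_of_pos (Real.exp_pos _)]
      apply Real.exp_le_one_iff.2
      have : 0 ≤ m * (1 + m) * c ^ 2 / 2 := by positivity
      linarith
    refine (norm_sub_le _ _).trans ?_
    have h3 := ph_norm_le m c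
    have h4 : 1 ≤ |c| ^ 3 := one_le_pow₀ h.le
    have h5 := M3_nonneg
    nlinarith

/-- Gaussian decay of the characteristic function. -/
theorem ph_decay {m : ℝ} (h0 : 0 ≤ m) {c v : ℝ} (hc : |c| ≤ 3) (hv : 0 ≤ v)
    (hvm : v ≤ 2 * (m * (1 + m))) (hv1 : v ≤ 1 / 4) :
    ‖ph m c‖ ≤ Real.exp (-(v / 20 * c ^ 2)) := by
  have hpi := Real.pi_gt_three
  have hpi2 := Real.pi_lt_d2
  have h1 := Real.cos_le_one_sub_mul_cos_sq (x := c) (by linarith)
  have h5 : (1 : ℝ) / 5 ≤ 2 / Real.pi ^ 2 := by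
    rw [div_le_div_iff₀ (by norm_num) (by positivity)]
    nlinarith
  have hc2 : 0 ≤ c ^ 2 := sq_nonneg c
  have hc9 : c ^ 2 ≤ 9 := by
    rw [← sq_abs]; nlinarith [abs_nonneg c]
  have h6 : c ^ 2 / 5 ≤ 1 - Real.cos c := by nlinarith
  have h7 : v * (c ^ 2 / 5) ≤ 2 * (m * (1 + m)) * (1 - Real.cos c) :=
    mul_le_mul hvm h6 (by positivity) (by positivity)
  have h8 : Real.exp (v * (c ^ 2 / 5) / 2) ≤ 1 + v * (c ^ 2 / 5) := by
    have hx0 : 0 ≤ v * (c ^ 2 / 5) := by positivity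
    have hx1 : v * (c ^ 2 / 5) / 2 ≤ 1 := by nlinarith
    have := Real.abs_exp_sub_one_sub_id_le (x := v * (c ^ 2 / 5) / 2)
      (by rw [abs_of_nonneg (by positivity)]; exact hx1)
    have h9 := (abs_le.1 this).2
    nlinarith
  have h9 : ‖ph m c‖ ^ 2 ≤ (Real.exp (-(v / 20 * c ^ 2))) ^ 2 := by
    rw [ph_sq h0, ← Real.exp_nat_mul]
    have e : ((2 : ℕ) : ℝ) * (-(v / 20 * c ^ 2)) = -(v * (c ^ 2 / 5) / 2) := by push_cast; ring
    rw [e, Real.exp_neg, one_div]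
    apply inv_anti₀ (Real.exp_pos _)
    linarith
  exact (sq_le_sq₀ (norm_nonneg _) (Real.exp_pos _).le).1 h9

/-- products of numbers in the unit disc. -/
theorem norm_prod_sub_prod_le (I : Finset ℕ) (a b : ℕ → ℂ) (ha : ∀ s ∈ I, ‖a s‖ ≤ 1)
    (hb : ∀ s ∈ I, ‖b s‖ ≤ 1) :
    ‖∏ s ∈ I, a s - ∏ s ∈ I, b s‖ ≤ ∑ s ∈ I, ‖a s - b s‖ := by
  classical
  induction I using Finset.induction_on with
  | empty => simp
  | insert i I hi ih =>
    rw [Finset.prod_insert hi, Finset.prod_insert hi, Finset.sum_insert hi]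
    have ih' := ih (fun s hs => ha s (Finset.mem_insert_of_mem hs))
      (fun s hs => hb s (Finset.mem_insert_of_mem hs))
    have h1 : a i * ∏ s ∈ I, a s - b i * ∏ s ∈ I, b s
        = a i * (∏ s ∈ I, a s - ∏ s ∈ I, b s) + (a i - b i) * ∏ s ∈ I, b s := by ring
    rw [h1]
    refine (norm_add_le _ _).trans ?_
    rw [norm_mul, norm_mul]
    have h2 : ‖∏ s ∈ I, b s‖ ≤ 1 := by
      rw [norm_prod]
      exact Finset.prod_le_one (fun s _ => norm_nonneg _)
        (fun s hs => hb s (Finset.mem_insert_of_mem hs))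
    have h3 := ha i (Finset.mem_insert_self i I)
    have h4 : ‖a i‖ * ‖∏ s ∈ I, a s - ∏ s ∈ I, b s‖ ≤ 1 * ‖∏ s ∈ I, a s - ∏ s ∈ I, b s‖ :=
      mul_le_mul_of_nonneg_right h3 (norm_nonneg _)
    have h5 : ‖a i - b i‖ * ‖∏ s ∈ I, b s‖ ≤ ‖a i - b i‖ * 1 :=
      mul_le_mul_of_nonneg_left h2 (norm_nonneg _)
    linarith

end Pool.Agent.Helper95.Dom
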