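import Pool.Agent.Helper76.DomF1

/-!
Fourier identities and the concentration bound.
-/

namespace Pool.Agent.Helper95.Dom

open MeasureTheory ProbabilityTheory Filter
open scoped Topology

/-- centred weighted sum over `I`. -/
noncomputable def XF (a : ℝ) (I : Finset ℕ) (ω : Om) : ℝ := ∑ s ∈ I, (s : ℝ) * (ma s ω - mu a s)

theorem XF_dep (a : ℝ) (I : Finset ℕ) (ω ω' : Om) (h : ∀ s ∈ I, ω s = ω' s) :
    XF a I ω = XF a I ω' := by
  unfold XF
  apply Finset.sum_congr rfl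
  intro s hs
  unfold ma
  rw [h s hs]

theorem meas_XF (a : ℝ) (I : Finset ℕ) : Measurable (XF a I) := meas_of_dep I (XF_dep a I)

theorem char_XF (a : ℝ) (I : Finset ℕ) (t : ℝ) :
    ∫ ω, Complex.exp (((t * XF a I ω : ℝ) : ℂ) * Complex.I) ∂PA a
      = ∏ s ∈ I, ph (mu a s) (t * s) := by
  have h := prod_formula (𝕜 := ℂ) (mu a) (mu a) I
    (fun s p => Complex.exp (((t * s * ((p.1 : ℝ) - mu a s) : ℝ) : ℂ) * Complex.I))
  have h1 : (fun ω : Om => Complex.exp (((t * XF a I ω : ℝ) : ℂ) * Complex.I))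
      = fun ω => ∏ s ∈ I, Complex.exp (((t * s * (((ω s).1 : ℝ) - mu a s) : ℝ) : ℂ) * Complex.I) := by
    funext ω
    rw [← Complex.exp_sum, ← Finset.sum_mul, ← Complex.ofReal_sum]
    congr 3
    unfold XF ma
    rw [Finset.mul_sum]
    apply Finset.sum_congr rfl
    intro s _
    ring
  rw [h1]
  unfold PA
  rw [h]
  apply Finset.prod_congr rfl
  intro s _
  have h2 := integral_fun_fst (μ := geo (mu a s)) (ν := geo (mu a s))
    (fun k : ℕ => Complex.exp (((t * s * ((k : ℝ) - mu a s) : ℝ) : ℂ) * Complex.I))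
  rw [h2]
  unfold ph
  simp

theorem meas_ph {m : ℝ} (hm : 0 ≤ m) : Measurable (ph m) := by
  have : ph m = fun c : ℝ => Complex.exp (((-(c * m) : ℝ) : ℂ) * Complex.I)
      * (1 / (1 + m - m * Complex.exp (c * Complex.I))) := by
    funext c
    exact ph_eq hm c
  rw [this]
  fun_prop

/-- Fourier representation. -/
theorem fk_fubini {P : Measure Om} [IsProbabilityMeasure P] {X : Om → ℝ} (hX : Measurable X) :
    ∫ ω, fk (X ω) ∂P = ∫ θ, tri θ * ∫ ω, Real.cos (θ * X ω) ∂P := by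
  have hint : Integrable (Function.uncurry fun (ω : Om) (θ : ℝ) => tri θ * Real.cos (θ * X ω))
      (P.prod volume) := by
    have h1 : Integrable (fun z : Om × ℝ => (1 : ℝ) * tri z.2) (P.prod volume) :=
      (integrable_const (1 : ℝ)).mul_prod tri_int
    refine h1.mono' ?_ ?_
    · apply Measurable.aestronglyMeasurable
      show Measurable fun z : Om × ℝ => tri z.2 * Real.cos (z.2 * X z.1)
      have h2 := tri_cont.measurable
      fun_prop
    · filter_upwards with z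
      show ‖tri z.2 * Real.cos (z.2 * X z.1)‖ ≤ 1 * tri z.2
      rw [Real.norm_eq_abs, abs_mul, abs_of_nonneg (tri_nonneg _), one_mul]
      have := Real.abs_cos_le_one (z.2 * X z.1)
      have h0 := tri_nonneg z.2
      nlinarith
  have h := integral_integral_swap hint
  unfold fk
  rw [h]
  congr 1
  funext θ
  rw [integral_const_mul]

theorem cos_XF (a : ℝ) (I : Finset ℕ) (t z : ℝ) :
    ∫ ω, Real.cos (t * (XF a I ω - z)) ∂PA a
      = (Complex.exp (((-(t * z) : ℝ) : ℂ) * Complex.I) * ∏ s ∈ I, ph (mu a s) (t * s)).re := by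
  rw [← char_XF, ← integral_const_mul]
  have h1 : ∀ ω : Om, Complex.exp (((-(t * z) : ℝ) : ℂ) * Complex.I)
      * Complex.exp (((t * XF a I ω : ℝ) : ℂ) * Complex.I)
      = Complex.exp (((t * (XF a I ω - z) : ℝ) : ℂ) * Complex.I) := by
    intro ω
    rw [← Complex.exp_add]
    congr 1
    push_cast
    ring
  simp_rw [h1]
  have hi : Integrable (fun ω : Om => Complex.exp (((t * (XF a I ω - z) : ℝ) : ℂ) * Complex.I))
      (PA a) := by
    apply Integrable.of_bound _ 1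
    · filter_upwards with k
      rw [Complex.norm_exp_ofReal_mul_I]
    · apply Measurable.aestronglyMeasurable
      have := meas_XF a I
      fun_prop
  have h2 := integral_re hi
  simp only [RCLike.re_to_complex] at h2
  rw [← h2]
  congr 1
  funext ω
  rw [Complex.exp_ofReal_mul_I_re]

theorem cos_XF_le (a : ℝ) (I : Finset ℕ) (t z : ℝ) :
    |∫ ω, Real.cos (t * (XF a I ω - z)) ∂PA a| ≤ ∏ s ∈ I, ‖ph (mu a s) (t * s)‖ := by
  rw [cos_XF]
  refine (Complex.abs_re_le_norm _).trans ?_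
  rw [norm_mul, Complex.norm_exp_ofReal_mul_I, one_mul, norm_prod]

/-- lower bound for the variances in the block. -/
noncomputable def v0 : ℝ := 2 * Real.exp (-4)

theorem v0_pos : 0 < v0 := by unfold v0; positivity

theorem v0_le : v0 ≤ 1 / 4 := by
  unfold v0
  have h1 : Real.exp 4 = Real.exp 1 ^ 4 := by rw [← Real.exp_nat_mul]; norm_num
  have h2 := Real.exp_one_gt_d9
  have h3 : (16 : ℝ) ≤ Real.exp 4 := by
    rw [h1]
    have : (2 : ℝ) ^ 4 ≤ Real.exp 1 ^ 4 := pow_le_pow_left₀ (by norm_num) (by linarith) 4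
    linarith
  rw [Real.exp_neg]
  have h4 : (Real.exp 4)⁻¹ ≤ (16 : ℝ)⁻¹ := inv_anti₀ (by norm_num) h3
  linarith

section Block

variable {a : ℝ} {N : ℕ}

theorem blk_mu_le (ha : 1 ≤ a) (h1 : a ≤ N) {s : ℕ} (hs : N < s) : mu a s ≤ 1 := by
  unfold mu
  have ha0 : 0 < a := by linarith
  have hsN : (N : ℝ) < s := by exact_mod_cast hs
  have h2 : 1 ≤ (s : ℝ) / a := by rw [le_div_iff₀ ha0]; linarith
  have h3 := Real.add_one_le_exp ((s : ℝ) / a)
  exact inv_le_one_of_one_le₀ (by linarith)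

theorem blk_vv (ha : 1 ≤ a) (_h1 : a ≤ N) (h2 : (N : ℝ) ≤ a + 1) {s : ℕ} (hs : N < s)
    (hs2 : s ≤ 2 * N) : v0 ≤ 2 * (mu a s * (1 + mu a s)) := by
  have ha0 : 0 < a := by linarith
  have h3 := vv_ge' ha0 (s := s) (by omega)
  have h4 : (s : ℝ) / a ≤ 4 := by
    rw [div_le_iff₀ ha0]
    have : (s : ℝ) ≤ 2 * N := by exact_mod_cast hs2
    linarith
  have h5 : Real.exp (-4) ≤ Real.exp (-((s : ℝ) / a)) := Real.exp_le_exp.2 (by linarith)
  unfold vv at h3
  unfold v0
  linarith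

theorem blk_decay (ha : 1 ≤ a) (h1 : a ≤ N) (h2 : (N : ℝ) ≤ a + 1) {s : ℕ} (hs : N < s)
    (hs2 : s ≤ 2 * N) {θ : ℝ} (hθ : |θ| ≤ 1) :
    ‖ph (mu a s) (θ / N * s)‖ ≤ Real.exp (-(v0 / 20 * θ ^ 2)) := by
  have ha0 : 0 < a := by linarith
  have hN : (0 : ℝ) < N := by linarith
  have hsN : (N : ℝ) < s := by exact_mod_cast hs
  have hs2' : (s : ℝ) ≤ 2 * N := by exact_mod_cast hs2
  have hr : 1 ≤ (s : ℝ) / N := by rw [le_div_iff₀ hN]; linarith
  have hr2 : (s : ℝ) / N ≤ 2 := by rw [div_le_iff₀ hN]; linarith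
  have e : θ / N * s = θ * (s / N) := by ring
  have h3 : |θ / N * s| ≤ 3 := by
    rw [e, abs_mul, abs_of_nonneg (by linarith : (0 : ℝ) ≤ (s : ℝ) / N)]
    nlinarith [abs_nonneg θ]
  refine (ph_decay (mu_nonneg ha0 s) h3 v0_pos.le (blk_vv ha h1 h2 hs hs2) v0_le).trans ?_
  apply Real.exp_le_exp.2
  rw [e, mul_pow]
  have h4 : 1 ≤ ((s : ℝ) / N) ^ 2 := one_le_pow₀ hr
  have h5 : 0 ≤ v0 / 20 * θ ^ 2 := by have := v0_pos; positivity
  nlinarith

theorem blk_prod_decay (ha : 1 ≤ a) (h1 : a ≤ N) (h2 : (N : ℝ) ≤ a + 1) {L R : ℕ} (hL : N ≤ L)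
    (hR : R ≤ 2 * N) (hLR : L ≤ R) {θ : ℝ} (hθ : |θ| ≤ 1) :
    ∏ s ∈ Finset.Ioc L R, ‖ph (mu a s) (θ / N * s)‖
      ≤ Real.exp (-(v0 / 20 * ((R : ℝ) - L) * θ ^ 2)) := by
  calc ∏ s ∈ Finset.Ioc L R, ‖ph (mu a s) (θ / N * s)‖
      ≤ ∏ s ∈ Finset.Ioc L R, Real.exp (-(v0 / 20 * θ ^ 2)) := by
        apply Finset.prod_le_prod (fun s _ => norm_nonneg _)
        intro s hs
        rw [Finset.mem_Ioc] at hs
        exact blk_decay ha h1 h2 (by omega) (by omega) hθ
    _ = _ := by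
        rw [Finset.prod_const, Nat.card_Ioc, ← Real.exp_nat_mul, Nat.cast_sub hLR]
        congr 1
        ring

end Block

/-- constant in the concentration bound. -/
noncomputable def CF : ℝ := 3 * Real.sqrt (Real.pi / (v0 / 80))

theorem CF_pos : 0 < CF := by
  unfold CF
  have := v0_pos
  have := Real.pi_pos
  positivity

theorem fk_expect_le {a : ℝ} {N L R : ℕ} (ha : 1 ≤ a) (h1 : a ≤ N) (h2 : (N : ℝ) ≤ a + 1)
    (hL : N ≤ L) (hLR : L ≤ R) (hR : R ≤ 2 * N) (h4 : N ≤ 4 * (R - L)) (z : ℝ) :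
    ∫ ω, fk ((XF a (Finset.Ioc L R) ω - z) / N) ∂PA a
      ≤ Real.sqrt (Real.pi / (v0 / 80)) / Real.sqrt N := by
  have hN : (0 : ℝ) < N := by linarith
  have hv := v0_pos
  have hm : Measurable fun ω => (XF a (Finset.Ioc L R) ω - z) / N :=
    ((meas_XF a _).sub_const z).div_const _
  rw [fk_fubini hm]
  have hb : 0 < v0 / 80 * N := by positivity
  have key : ∀ θ : ℝ, tri θ * ∫ ω, Real.cos (θ * ((XF a (Finset.Ioc L R) ω - z) / N)) ∂PA a
      ≤ Real.exp (-(v0 / 80 * N) * θ ^ 2) := by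
    intro θ
    rcases le_or_gt 1 |θ| with h | h
    · rw [tri_eq_zero h, zero_mul]; exact (Real.exp_pos _).le
    · have e : ∀ ω : Om, θ * ((XF a (Finset.Ioc L R) ω - z) / N)
          = θ / N * (XF a (Finset.Ioc L R) ω - z) := by
        intro ω; ring
      simp_rw [e]
      have h5 := (le_abs_self _).trans (cos_XF_le a (Finset.Ioc L R) (θ / N) z)
      have h6 := blk_prod_decay ha h1 h2 hL hR hLR h.le
      have h7 : Real.exp (-(v0 / 20 * ((R : ℝ) - L) * θ ^ 2)) ≤ Real.exp (-(v0 / 80 * N) * θ ^ 2) := by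
        apply Real.exp_le_exp.2
        have h8 : (N : ℝ) ≤ 4 * ((R : ℝ) - L) := by
          rw [← Nat.cast_sub hLR]; exact_mod_cast h4
        have h9 : 0 ≤ v0 * θ ^ 2 := by positivity
        nlinarith
      have h8 := tri_le_one θ
      have h9 := tri_nonneg θ
      have h10 := h5.trans (h6.trans h7)
      calc tri θ * ∫ ω, Real.cos (θ / N * (XF a (Finset.Ioc L R) ω - z)) ∂PA a
          ≤ tri θ * Real.exp (-(v0 / 80 * N) * θ ^ 2) := mul_le_mul_of_nonneg_left h10 h9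
        _ ≤ 1 * Real.exp (-(v0 / 80 * N) * θ ^ 2) :=
            mul_le_mul_of_nonneg_right h8 (Real.exp_pos _).le
        _ = _ := one_mul _
  have hlhs : Integrable (fun θ : ℝ => tri θ
      * ∫ ω, Real.cos (θ * ((XF a (Finset.Ioc L R) ω - z) / N)) ∂PA a) := by
    refine tri_int.mono' ?_ ?_
    · apply Measurable.aestronglyMeasurable
      apply tri_cont.measurable.mul
      have e : ∀ θ : ℝ, ∫ ω, Real.cos (θ * ((XF a (Finset.Ioc L R) ω - z) / N)) ∂PA a
          = (Complex.exp (((-(θ / N * z) : ℝ) : ℂ) * Complex.I)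
            * ∏ s ∈ Finset.Ioc L R, ph (mu a s) (θ / N * s)).re := by
        intro θ
        rw [← cos_XF]
        congr 1
        funext ω
        congr 1
        ring
      simp_rw [e]
      apply Complex.measurable_re.comp
      apply Measurable.mul (by fun_prop)
      apply Finset.measurable_fun_prod
      intro s _
      exact (meas_ph (mu_nonneg (by linarith) s)).comp (by fun_prop)
    · filter_upwards with θ
      rw [Real.norm_eq_abs, abs_mul, abs_of_nonneg (tri_nonneg _)]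
      have h5 : |∫ ω, Real.cos (θ * ((XF a (Finset.Ioc L R) ω - z) / N)) ∂PA a| ≤ 1 := by
        rw [← Real.norm_eq_abs]
        refine (norm_integral_le_of_norm_le_const (C := 1) ?_).trans (by simp)
        filter_upwards with ω
        exact Real.abs_cos_le_one _
      have h9 := tri_nonneg θ
      nlinarith
  calc ∫ θ, tri θ * ∫ ω, Real.cos (θ * ((XF a (Finset.Ioc L R) ω - z) / N)) ∂PA a
      ≤ ∫ θ : ℝ, Real.exp (-(v0 / 80 * N) * θ ^ 2) :=
        integral_mono hlhs (integrable_exp_neg_mul_sq hb) key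
    _ = Real.sqrt (Real.pi / (v0 / 80 * N)) := integral_gaussian _
    _ = _ := by
        rw [← Real.sqrt_div (by positivity), div_div]

theorem fk_integrable {P : Measure Om} [IsProbabilityMeasure P] {X : Om → ℝ} (hX : Measurable X) :
    Integrable (fun ω => fk (X ω)) P := by
  have hm : Measurable fk := by
    have : fk = fun x : ℝ => if x = 0 then 1 else 2 * ((1 - Real.cos x) / x ^ 2) := by
      funext x
      split_ifs with h
      · rw [h, fk_zero]
      · exact fk_eq h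
    rw [this]
    apply Measurable.ite (measurableSet_singleton 0) measurable_const
    fun_prop
  apply Integrable.of_bound (hm.comp hX).aestronglyMeasurable 1
  filter_upwards with ω
  show ‖fk (X ω)‖ ≤ 1
  rw [Real.norm_eq_abs, abs_of_nonneg (fk_nonneg _)]
  exact fk_le_one _

theorem conc_c {a : ℝ} {N L R : ℕ} (ha : 1 ≤ a) (h1 : a ≤ N) (h2 : (N : ℝ) ≤ a + 1)
    (hL : N ≤ L) (hLR : L ≤ R) (hR : R ≤ 2 * N) (h4 : N ≤ 4 * (R - L)) (y : ℝ) :
    (PA a).real {ω | y ≤ XF a (Finset.Ioc L R) ω ∧ XF a (Finset.Ioc L R) ω ≤ y + N}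
      ≤ CF / Real.sqrt N := by
  have hN : (0 : ℝ) < N := by linarith
  have hX := meas_XF a (Finset.Ioc L R)
  have hA : MeasurableSet {ω | y ≤ XF a (Finset.Ioc L R) ω ∧ XF a (Finset.Ioc L R) ω ≤ y + N} :=
    (measurableSet_le measurable_const hX).inter (measurableSet_le hX measurable_const)
  have h5 := fk_expect_le ha h1 h2 hL hLR hR h4 (y + N / 2)
  have hm : Measurable fun ω => (XF a (Finset.Ioc L R) ω - (y + N / 2)) / N :=
    (hX.sub_const _).div_const _
  have h6 : (PA a).real {ω | y ≤ XF a (Finset.Ioc L R) ω ∧ XF a (Finset.Ioc L R) ω ≤ y + N}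
      ≤ ∫ ω, 3 * fk ((XF a (Finset.Ioc L R) ω - (y + N / 2)) / N) ∂PA a := by
    rw [← integral_indicator_one hA]
    apply integral_mono ((integrable_const _).indicator hA) ((fk_integrable hm).const_mul 3)
    intro ω
    by_cases hω : ω ∈ {ω | y ≤ XF a (Finset.Ioc L R) ω ∧ XF a (Finset.Ioc L R) ω ≤ y + N}
    · rw [Set.indicator_of_mem hω]
      have h7 : |(XF a (Finset.Ioc L R) ω - (y + N / 2)) / N| ≤ 1 := by
        rw [abs_div, abs_of_pos hN, div_le_one hN, abs_le]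
        constructor <;> linarith [hω.1, hω.2]
      have h8 := fk_ge h7
      show (1 : ℝ) ≤ 3 * fk ((XF a (Finset.Ioc L R) ω - (y + N / 2)) / N)
      linarith
    · rw [Set.indicator_of_notMem hω]
      have h8 := fk_nonneg ((XF a (Finset.Ioc L R) ω - (y + N / 2)) / N)
      show (0 : ℝ) ≤ 3 * fk ((XF a (Finset.Ioc L R) ω - (y + N / 2)) / N)
      linarith
  rw [integral_const_mul] at h6
  refine h6.trans ?_
  unfold CF
  rw [mul_div_assoc]
  exact mul_le_mul_of_nonneg_left h5 (by norm_num)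

theorem sum_eq_XF (a : ℝ) (I : Finset ℕ) (ω : Om) :
    ∑ s ∈ I, (s : ℝ) * ma s ω = XF a I ω + ∑ s ∈ I, (s : ℝ) * mu a s := by
  unfold XF
  rw [← Finset.sum_add_distrib]
  apply Finset.sum_congr rfl
  intro s _
  ring

theorem F_conc : ∃ C : ℝ, 0 < C ∧ ∀ (a : ℝ) (N L R : ℕ), 1 ≤ a → a ≤ N → (N : ℝ) ≤ a + 1 →
    N ≤ L → L ≤ R → R ≤ 2 * N → N ≤ 4 * (R - L) → ∀ y : ℝ,
    (PA a).real {ω | y ≤ ∑ s ∈ Finset.Ioc L R, (s : ℝ) * ma s ω
      ∧ ∑ s ∈ Finset.Ioc L R, (s : ℝ) * ma s ω ≤ y + N} ≤ C / √N := by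
  refine ⟨CF, CF_pos, ?_⟩
  intro a N L R ha h1 h2 hL hLR hR h4 y
  have h := conc_c ha h1 h2 hL hLR hR h4 (y - ∑ s ∈ Finset.Ioc L R, (s : ℝ) * mu a s)
  refine le_trans (le_of_eq ?_) h
  congr 1
  ext ω
  simp only [Set.mem_ofPred_eq, sum_eq_XF a]
  constructor
  · rintro ⟨h5, h6⟩; constructor <;> linarith
  · rintro ⟨h5, h6⟩; constructor <;> linarith

end Pool.Agent.Helper95.Dom
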