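import Pool.Agent.Helper76.DomF2

/-!
The local limit estimate for the block.
-/

namespace Pool.Agent.Helper95.Dom

open MeasureTheory ProbabilityTheory Filter
open scoped Topology

/-- normalised variance of the block. -/
noncomputable def VN (a : ℝ) (N : ℕ) : ℝ :=
  (∑ s ∈ Finset.Ioc N (2 * N), (s : ℝ) ^ 2 * (mu a s * (1 + mu a s))) / (N : ℝ) ^ 3

section Block

variable {a : ℝ} {N : ℕ}

theorem VN_ge (ha : 1 ≤ a) (h1 : a ≤ N) (h2 : (N : ℝ) ≤ a + 1) : v0 / 2 ≤ VN a N := by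
  have hN : (0 : ℝ) < N := by linarith
  unfold VN
  rw [le_div_iff₀ (by positivity)]
  have h : ∑ s ∈ Finset.Ioc N (2 * N), (N : ℝ) ^ 2 * (v0 / 2)
      ≤ ∑ s ∈ Finset.Ioc N (2 * N), (s : ℝ) ^ 2 * (mu a s * (1 + mu a s)) := by
    apply Finset.sum_le_sum
    intro s hs
    rw [Finset.mem_Ioc] at hs
    have h3 := blk_vv ha h1 h2 hs.1 hs.2
    have h4 : (N : ℝ) ≤ s := by exact_mod_cast hs.1.le
    have h5 : (N : ℝ) ^ 2 ≤ (s : ℝ) ^ 2 := pow_le_pow_left₀ hN.le h4 2
    exact mul_le_mul h5 (by linarith) (by have := v0_pos; positivity) (by positivity)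
  rw [Finset.sum_const, Nat.card_Ioc] at h
  have e : 2 * N - N = N := by omega
  rw [e, nsmul_eq_mul] at h
  refine le_trans (le_of_eq ?_) h
  ring

theorem VN_le (ha : 1 ≤ a) (h1 : a ≤ N) : VN a N ≤ 8 := by
  have hN : (0 : ℝ) < N := by linarith
  unfold VN
  rw [div_le_iff₀ (by positivity)]
  have h : ∑ s ∈ Finset.Ioc N (2 * N), (s : ℝ) ^ 2 * (mu a s * (1 + mu a s))
      ≤ ∑ s ∈ Finset.Ioc N (2 * N), (2 * (N : ℝ)) ^ 2 * 2 := by
    apply Finset.sum_le_sum
    intro s hs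
    rw [Finset.mem_Ioc] at hs
    have h3 := blk_mu_le ha h1 hs.1
    have h30 := mu_nonneg (by linarith : 0 < a) s
    have h4 : (s : ℝ) ≤ 2 * N := by exact_mod_cast hs.2
    have h5 : (s : ℝ) ^ 2 ≤ (2 * (N : ℝ)) ^ 2 := pow_le_pow_left₀ (Nat.cast_nonneg s) h4 2
    exact mul_le_mul h5 (by nlinarith) (by positivity) (by positivity)
  rw [Finset.sum_const, Nat.card_Ioc] at h
  have e : 2 * N - N = N := by omega
  rw [e, nsmul_eq_mul] at h
  refine h.trans (le_of_eq ?_)
  ring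

/-- the rescaled characteristic function. -/
noncomputable def psi (a : ℝ) (N : ℕ) (β : ℝ) : ℂ :=
  ∏ s ∈ Finset.Ioc N (2 * N), ph (mu a s) (β / √N / N * s)

theorem psi_decay (ha : 1 ≤ a) (h1 : a ≤ N) (h2 : (N : ℝ) ≤ a + 1) {β : ℝ} (hβ : |β| ≤ √N) :
    ‖psi a N β‖ ≤ Real.exp (-(v0 / 20) * β ^ 2) := by
  have hN : (0 : ℝ) < N := by linarith
  have hsN : 0 < √(N : ℝ) := Real.sqrt_pos.2 hN
  unfold psi
  rw [norm_prod]
  have hθ : |β / √N| ≤ 1 := by
    rw [abs_div, abs_of_pos hsN, div_le_one hsN]; exact hβ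
  have h := blk_prod_decay ha h1 h2 le_rfl le_rfl (by omega : N ≤ 2 * N) hθ
  refine h.trans (le_of_eq ?_)
  congr 1
  have e : (β / √N) ^ 2 = β ^ 2 / N := by rw [div_pow, Real.sq_sqrt hN.le]
  rw [e]
  push_cast
  field_simp
  ring

theorem psi_gauss (ha : 1 ≤ a) (h1 : a ≤ N) (β : ℝ) :
    ‖psi a N β - ((Real.exp (-(VN a N / 2) * β ^ 2) : ℝ) : ℂ)‖
      ≤ (4 * M3 + 2) * 8 * |β| ^ 3 / √N := by
  have hN : (0 : ℝ) < N := by linarith
  have ha0 : 0 < a := by linarith
  have hsN : 0 < √(N : ℝ) := Real.sqrt_pos.2 hN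
  have hsq : √(N : ℝ) ^ 2 = N := Real.sq_sqrt hN.le
  have hM := M3_nonneg
  have e1 : ((Real.exp (-(VN a N / 2) * β ^ 2) : ℝ) : ℂ)
      = ∏ s ∈ Finset.Ioc N (2 * N),
        ((Real.exp (-(mu a s * (1 + mu a s) * (β / √N / N * s) ^ 2 / 2)) : ℝ) : ℂ) := by
    rw [← Complex.ofReal_prod, ← Real.exp_sum]
    congr 2
    unfold VN
    rw [Finset.sum_div, Finset.sum_div, ← Finset.sum_neg_distrib, Finset.sum_mul]
    apply Finset.sum_congr rfl
    intro s _
    have e2 : (β / √N / N * s) ^ 2 = β ^ 2 / (N : ℝ) ^ 3 * s ^ 2 := by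
      have : (β / √N / N * s) ^ 2 = β ^ 2 / (√N ^ 2 * (N : ℝ) ^ 2) * s ^ 2 := by
        field_simp
      rw [this, hsq]
      congr 2
      ring
    rw [e2]
    ring
  rw [e1]
  unfold psi
  refine (norm_prod_sub_prod_le _ _ _ (fun s _ => ph_norm_le _ _) ?_).trans ?_
  · intro s _
    rw [Complex.norm_real, Real.norm_eq_abs, abs_of_pos (Real.exp_pos _)]
    apply Real.exp_le_one_iff.2
    have := mu_nonneg ha0 s
    have : 0 ≤ mu a s * (1 + mu a s) * (β / √N / N * s) ^ 2 / 2 := by positivity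
    linarith
  · have h3 : ∀ s ∈ Finset.Ioc N (2 * N),
        ‖ph (mu a s) (β / √N / N * s)
          - ((Real.exp (-(mu a s * (1 + mu a s) * (β / √N / N * s) ^ 2 / 2)) : ℝ) : ℂ)‖
        ≤ (4 * M3 + 2) * 8 * |β| ^ 3 / √N / N := by
      intro s hs
      rw [Finset.mem_Ioc] at hs
      refine (ph_gauss (mu_nonneg ha0 s) (blk_mu_le ha h1 hs.1) _).trans ?_
      have h4 : (s : ℝ) ≤ 2 * N := by exact_mod_cast hs.2
      have h5 : |β / √N / N * s| ≤ 2 * (|β| / √N) := by
        rw [abs_mul, abs_div, abs_div, abs_of_pos hsN, abs_of_pos hN,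
          abs_of_nonneg (by positivity : (0 : ℝ) ≤ (s : ℝ))]
        rw [div_mul_eq_mul_div, div_le_iff₀ hN]
        have : 0 ≤ |β| / √N := by positivity
        nlinarith
      have h6 : |β / √N / N * s| ^ 3 ≤ (2 * (|β| / √N)) ^ 3 :=
        pow_le_pow_left₀ (abs_nonneg _) h5 3
      have h7 : (2 * (|β| / √N)) ^ 3 = 8 * |β| ^ 3 / √N / N := by
        have : (2 * (|β| / √N)) ^ 3 = 8 * |β| ^ 3 / √N / √N ^ 2 := by
          field_simp
          ring
        rw [this, hsq]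
      rw [h7] at h6
      calc (4 * M3 + 2) * |β / √N / N * s| ^ 3 ≤ (4 * M3 + 2) * (8 * |β| ^ 3 / √N / N) :=
            mul_le_mul_of_nonneg_left h6 (by positivity)
        _ = _ := by ring
    refine (Finset.sum_le_sum h3).trans (le_of_eq ?_)
    rw [Finset.sum_const, Nat.card_Ioc]
    have e : 2 * N - N = N := by omega
    rw [e, nsmul_eq_mul]
    field_simp

end Block

/-- constants. -/
noncomputable def KP : ℝ := 1 + 8 / (v0 / 20) ^ 2

theorem KP_pos : 0 < KP := by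
  unfold KP
  have := v0_pos
  positivity

theorem poly_le (x : ℝ) (hx : 0 ≤ x) :
    x ^ 3 ≤ KP * Real.exp (v0 / 20 * x ^ 2 / 2) ∧ x ≤ KP * Real.exp (v0 / 20 * x ^ 2 / 2) := by
  have hv := v0_pos
  set u := v0 / 20 * x ^ 2 / 2 with hu
  have hu0 : 0 ≤ u := by rw [hu]; positivity
  have h1 := Real.quadratic_le_exp_of_nonneg hu0
  have h2 : x ^ 4 = 8 / (v0 / 20) ^ 2 * (u ^ 2 / 2) := by
    rw [hu]
    field_simp
    ring
  have h3 : 1 + x ^ 4 ≤ KP * Real.exp u := by
    have h4 : (1 : ℝ) ≤ Real.exp u := Real.one_le_exp hu0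
    have h5 : u ^ 2 / 2 ≤ Real.exp u := by linarith
    have h6 : 0 ≤ 8 / (v0 / 20) ^ 2 := by positivity
    rw [h2]
    unfold KP
    nlinarith [mul_le_mul_of_nonneg_left h5 h6]
  constructor
  · refine le_trans ?_ h3
    rcases le_or_gt x 1 with h | h
    · have h7 : x ^ 3 ≤ 1 := pow_le_one₀ hx h
      have : 0 ≤ x ^ 4 := by positivity
      linarith
    · have h7 : x ^ 3 ≤ x ^ 4 := pow_le_pow_right₀ h.le (by norm_num)
      linarith
  · refine le_trans ?_ h3
    rcases le_or_gt x 1 with h | h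
    · have : 0 ≤ x ^ 4 := by positivity
      linarith
    · have h7 : x ^ 1 ≤ x ^ 4 := pow_le_pow_right₀ h.le (by norm_num)
      rw [pow_one] at h7
      linarith

/-- constant. -/
noncomputable def C5 : ℝ := √(2 * ((4 * M3 + 2) * 8 + 1) * KP)

theorem C5_pos : 0 < C5 := by
  unfold C5
  have := KP_pos
  have := M3_nonneg
  positivity

theorem D_bound {a : ℝ} {N : ℕ} (ha : 1 ≤ a) (h1 : a ≤ N) (h2 : (N : ℝ) ≤ a + 1) (β : ℝ) :
    ‖((tri (β / √N) : ℝ) : ℂ) * psi a N β - ((Real.exp (-(VN a N / 2) * β ^ 2) : ℝ) : ℂ)‖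
      ≤ C5 / √√N * Real.exp (-(v0 / 80) * β ^ 2) := by
  have hN : (0 : ℝ) < N := by linarith
  have hv := v0_pos
  have hsN : 0 < √(N : ℝ) := Real.sqrt_pos.2 hN
  have hsN2 : 0 < √√(N : ℝ) := Real.sqrt_pos.2 hsN
  have hM := M3_nonneg
  have hK := KP_pos
  set g : ℝ := Real.exp (-(VN a N / 2) * β ^ 2) with hg
  have hg0 : 0 < g := Real.exp_pos _
  have hV := VN_ge ha h1 h2
  have hg1 : g ≤ Real.exp (-(v0 / 20) * β ^ 2) := by
    apply Real.exp_le_exp.2
    have : 0 ≤ β ^ 2 := sq_nonneg β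
    nlinarith
  have hgle : g ≤ 1 := by
    apply Real.exp_le_one_iff.2
    have : 0 ≤ β ^ 2 := sq_nonneg β
    have : 0 ≤ VN a N / 2 := by linarith
    nlinarith
  set D := ‖((tri (β / √N) : ℝ) : ℂ) * psi a N β - ((g : ℝ) : ℂ)‖ with hD
  have hD0 : 0 ≤ D := norm_nonneg _
  -- first bound
  have b1 : D ≤ ((4 * M3 + 2) * 8 * |β| ^ 3 + |β|) / √N := by
    rcases le_or_gt |β| (√N) with h | h
    · have e : ((tri (β / √N) : ℝ) : ℂ) * psi a N β - ((g : ℝ) : ℂ)
          = ((tri (β / √N) : ℝ) : ℂ) * (psi a N β - ((g : ℝ) : ℂ))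
            - (((1 - tri (β / √N)) * g : ℝ) : ℂ) := by
        push_cast; ring
      have h3 : ‖((tri (β / √N) : ℝ) : ℂ) * (psi a N β - ((g : ℝ) : ℂ))‖
          ≤ (4 * M3 + 2) * 8 * |β| ^ 3 / √N := by
        rw [norm_mul, Complex.norm_real, Real.norm_eq_abs, abs_of_nonneg (tri_nonneg _)]
        have h4 := psi_gauss ha h1 β
        rw [← hg] at h4
        have h5 := tri_le_one (β / √N)
        calc tri (β / √N) * ‖psi a N β - ((g : ℝ) : ℂ)‖
            ≤ 1 * ‖psi a N β - ((g : ℝ) : ℂ)‖ := mul_le_mul_of_nonneg_right h5 (norm_nonneg _)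
          _ ≤ _ := by rw [one_mul]; exact h4
      have h6 : ‖(((1 - tri (β / √N)) * g : ℝ) : ℂ)‖ ≤ |β| / √N := by
        have h7 : 0 ≤ 1 - tri (β / √N) := by linarith [tri_le_one (β / √N)]
        rw [Complex.norm_real, Real.norm_eq_abs, abs_of_nonneg (mul_nonneg h7 hg0.le)]
        have h8 := one_sub_tri (β / √N)
        rw [abs_div, abs_of_pos hsN] at h8
        calc (1 - tri (β / √N)) * g ≤ (1 - tri (β / √N)) * 1 := mul_le_mul_of_nonneg_left hgle h7
          _ ≤ _ := by rw [mul_one]; exact h8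
      rw [hD, e, add_div]
      exact (norm_sub_le _ _).trans (add_le_add h3 h6)
    · have h3 : tri (β / √N) = 0 := by
        apply tri_eq_zero
        rw [abs_div, abs_of_pos hsN, le_div_iff₀ hsN]
        linarith
      rw [hD, h3]
      simp only [Complex.ofReal_zero, zero_mul, zero_sub, norm_neg]
      rw [Complex.norm_real, Real.norm_eq_abs, abs_of_pos hg0]
      have h4 : 1 ≤ |β| / √N := by rw [le_div_iff₀ hsN]; linarith
      have h5 : |β| / √N ≤ ((4 * M3 + 2) * 8 * |β| ^ 3 + |β|) / √N := by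
        apply div_le_div_of_nonneg_right _ hsN.le
        have : 0 ≤ (4 * M3 + 2) * 8 * |β| ^ 3 := by positivity
        linarith
      linarith
  -- second bound
  have b2 : D ≤ 2 * Real.exp (-(v0 / 20) * β ^ 2) := by
    have h3 : ‖((tri (β / √N) : ℝ) : ℂ) * psi a N β‖ ≤ Real.exp (-(v0 / 20) * β ^ 2) := by
      rw [norm_mul, Complex.norm_real, Real.norm_eq_abs, abs_of_nonneg (tri_nonneg _)]
      rcases le_or_gt |β| (√N) with h | h
      · have h4 := psi_decay ha h1 h2 h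
        have h5 := tri_le_one (β / √N)
        calc tri (β / √N) * ‖psi a N β‖
            ≤ 1 * ‖psi a N β‖ := mul_le_mul_of_nonneg_right h5 (norm_nonneg _)
          _ ≤ _ := by rw [one_mul]; exact h4
      · have h3 : tri (β / √N) = 0 := by
          apply tri_eq_zero
          rw [abs_div, abs_of_pos hsN, le_div_iff₀ hsN]
          linarith
        rw [h3, zero_mul]
        exact (Real.exp_pos _).le
    have h4 : ‖((g : ℝ) : ℂ)‖ ≤ Real.exp (-(v0 / 20) * β ^ 2) := by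
      rw [Complex.norm_real, Real.norm_eq_abs, abs_of_pos hg0]
      exact hg1
    calc D ≤ _ := norm_sub_le _ _
      _ ≤ _ := add_le_add h3 h4
      _ = _ := by ring
  have hp := poly_le |β| (abs_nonneg β)
  rw [sq_abs] at hp
  have b3 : ((4 * M3 + 2) * 8 * |β| ^ 3 + |β|)
      ≤ ((4 * M3 + 2) * 8 + 1) * KP * Real.exp (v0 / 20 * β ^ 2 / 2) := by
    have h3 : 0 ≤ (4 * M3 + 2) * 8 := by positivity
    have h4 := mul_le_mul_of_nonneg_left hp.1 h3
    linarith [hp.2]
  have b4 : D ^ 2 ≤ (C5 / √√N * Real.exp (-(v0 / 80) * β ^ 2)) ^ 2 := by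
    have h3 : D ^ 2 ≤ (((4 * M3 + 2) * 8 * |β| ^ 3 + |β|) / √N)
        * (2 * Real.exp (-(v0 / 20) * β ^ 2)) := by
      rw [sq]
      exact mul_le_mul b1 b2 hD0 (hD0.trans b1)
    have h4 : (((4 * M3 + 2) * 8 * |β| ^ 3 + |β|) / √N)
        * (2 * Real.exp (-(v0 / 20) * β ^ 2))
        ≤ (((4 * M3 + 2) * 8 + 1) * KP * Real.exp (v0 / 20 * β ^ 2 / 2) / √N)
        * (2 * Real.exp (-(v0 / 20) * β ^ 2)) := by
      apply mul_le_mul_of_nonneg_right _ (by positivity)
      exact div_le_div_of_nonneg_right b3 hsN.le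
    refine h3.trans (h4.trans (le_of_eq ?_))
    rw [mul_pow, div_pow, Real.sq_sqrt hsN.le]
    unfold C5
    rw [Real.sq_sqrt (by positivity), ← Real.exp_nat_mul]
    have e : Real.exp (v0 / 20 * β ^ 2 / 2) * Real.exp (-(v0 / 20) * β ^ 2)
        = Real.exp (((2 : ℕ) : ℝ) * (-(v0 / 80) * β ^ 2)) := by
      rw [← Real.exp_add]
      congr 1
      push_cast
      ring
    rw [← e]
    ring
  have h5 : 0 ≤ C5 / √√N * Real.exp (-(v0 / 80) * β ^ 2) := by
    have := C5_pos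
    positivity
  exact (sq_le_sq₀ hD0 h5).1 b4

theorem gauss_cos {b : ℝ} (hb : 0 < b) (w : ℝ) :
    ∫ β : ℝ, Real.exp (-b * β ^ 2) * Real.cos (β * w)
      = √(Real.pi / b) * Real.exp (-w ^ 2 / (4 * b)) := by
  have h := fourierIntegral_gaussian (b := (b : ℂ)) (by simpa using hb) (w : ℂ)
  have e : ((Real.pi : ℂ) / (b : ℂ)) ^ (1 / 2 : ℂ) = ((√(Real.pi / b) : ℝ) : ℂ) := by
    rw [Real.sqrt_eq_rpow, Complex.ofReal_cpow (by positivity)]
    push_cast
    rfl
  have e2 : Complex.exp (-(w : ℂ) ^ 2 / (4 * (b : ℂ))) = ((Real.exp (-w ^ 2 / (4 * b)) : ℝ) : ℂ) := by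
    push_cast
    rfl
  rw [e, e2] at h
  have h2 := congrArg Complex.re h
  rw [← Complex.ofReal_mul, Complex.ofReal_re] at h2
  rw [← h2]
  have hi : Integrable (fun x : ℝ => Complex.exp (Complex.I * w * x)
      * Complex.exp (-(b : ℂ) * (x : ℂ) ^ 2)) := by
    have h3 := integrable_cexp_neg_mul_sq (b := (b : ℂ)) (by simpa using hb)
    apply h3.norm.mono' (by fun_prop)
    filter_upwards with x
    rw [norm_mul]
    have : Complex.I * w * x = ((w * x : ℝ) : ℂ) * Complex.I := by push_cast; ring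
    rw [this, Complex.norm_exp_ofReal_mul_I, one_mul]
  have h4 := integral_re hi
  simp only [RCLike.re_to_complex] at h4
  rw [← h4]
  congr 1
  funext x
  have e3 : Complex.I * w * x = ((x * w : ℝ) : ℂ) * Complex.I := by push_cast; ring
  have e4 : -(b : ℂ) * (x : ℂ) ^ 2 = ((-b * x ^ 2 : ℝ) : ℂ) := by push_cast; ring
  rw [e3, e4, ← Complex.ofReal_exp, Complex.re_mul_ofReal, Complex.exp_ofReal_mul_I_re]
  ring

/-- constant. -/
noncomputable def C8 : ℝ := C5 * √(Real.pi / (v0 / 80))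

theorem C8_pos : 0 < C8 := by
  unfold C8
  have := C5_pos
  have := v0_pos
  have := Real.pi_pos
  positivity

theorem fk_local {a : ℝ} {N : ℕ} (ha : 1 ≤ a) (h1 : a ≤ N) (h2 : (N : ℝ) ≤ a + 1) (z : ℝ) :
    √(Real.pi / (VN a N / 2)) * Real.exp (-(z / √N / N) ^ 2 / (4 * (VN a N / 2))) - C8 / √√N
      ≤ √N * ∫ ω, fk ((XF a (Finset.Ioc N (2 * N)) ω - z) / N) ∂PA a := by
  have hN : (0 : ℝ) < N := by linarith
  have ha0 : 0 < a := by linarith
  have hv := v0_pos
  have hsN : 0 < √(N : ℝ) := Real.sqrt_pos.2 hN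
  have hV := VN_ge ha h1 h2
  have hb : 0 < VN a N / 2 := by linarith
  set X := XF a (Finset.Ioc N (2 * N)) with hX
  have hm : Measurable fun ω => (X ω - z) / N :=
    ((meas_XF a _).sub_const z).div_const _
  rw [fk_fubini hm]
  have hres := Measure.integral_comp_div
    (fun θ : ℝ => tri θ * ∫ ω, Real.cos (θ * ((X ω - z) / N)) ∂PA a) (√(N : ℝ))
  rw [abs_of_pos hsN, smul_eq_mul] at hres
  rw [← hres, ← gauss_cos hb]
  have e : ∀ β : ℝ, ∫ ω, Real.cos (β / √N * ((X ω - z) / N)) ∂PA a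
      = (Complex.exp (((-(β / √N / N * z) : ℝ) : ℂ) * Complex.I) * psi a N β).re := by
    intro β
    unfold psi
    rw [← cos_XF]
    congr 1
    funext ω
    congr 1
    ring
  simp_rw [e]
  have i1 : Integrable (fun β : ℝ => Real.exp (-(VN a N / 2) * β ^ 2)
      * Real.cos (β * (z / √N / N))) := by
    apply (integrable_exp_neg_mul_sq hb).mono' (by fun_prop)
    filter_upwards with β
    rw [Real.norm_eq_abs, abs_mul, abs_of_pos (Real.exp_pos _)]
    have := Real.abs_cos_le_one (β * (z / √N / N))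
    have := Real.exp_pos (-(VN a N / 2) * β ^ 2)
    nlinarith
  have ib : Integrable (fun β : ℝ => C5 / √√N * Real.exp (-(v0 / 80) * β ^ 2)) :=
    (integrable_exp_neg_mul_sq (by positivity)).const_mul _
  have key : ∀ β : ℝ, |tri (β / √N)
      * (Complex.exp (((-(β / √N / N * z) : ℝ) : ℂ) * Complex.I) * psi a N β).re
      - Real.exp (-(VN a N / 2) * β ^ 2) * Real.cos (β * (z / √N / N))|
      ≤ C5 / √√N * Real.exp (-(v0 / 80) * β ^ 2) := by
    intro β
    refine le_trans ?_ (D_bound ha h1 h2 β)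
    have e2 : tri (β / √N)
        * (Complex.exp (((-(β / √N / N * z) : ℝ) : ℂ) * Complex.I) * psi a N β).re
        - Real.exp (-(VN a N / 2) * β ^ 2) * Real.cos (β * (z / √N / N))
        = (Complex.exp (((-(β / √N / N * z) : ℝ) : ℂ) * Complex.I)
          * (((tri (β / √N) : ℝ) : ℂ) * psi a N β
            - ((Real.exp (-(VN a N / 2) * β ^ 2) : ℝ) : ℂ))).re := by
      have e3 : Complex.exp (((-(β / √N / N * z) : ℝ) : ℂ) * Complex.I)
          * (((tri (β / √N) : ℝ) : ℂ) * psi a N β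
            - ((Real.exp (-(VN a N / 2) * β ^ 2) : ℝ) : ℂ))
          = ((tri (β / √N) : ℝ) : ℂ)
            * (Complex.exp (((-(β / √N / N * z) : ℝ) : ℂ) * Complex.I) * psi a N β)
            - ((Real.exp (-(VN a N / 2) * β ^ 2) : ℝ) : ℂ)
              * Complex.exp (((-(β / √N / N * z) : ℝ) : ℂ) * Complex.I) := by ring
      rw [e3, Complex.sub_re, Complex.re_ofReal_mul, Complex.re_ofReal_mul,
        Complex.exp_ofReal_mul_I_re, Real.cos_neg]
      congr 3
      ring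
    rw [e2]
    refine (Complex.abs_re_le_norm _).trans ?_
    rw [norm_mul, Complex.norm_exp_ofReal_mul_I, one_mul]
  have i2 : Integrable (fun β : ℝ => tri (β / √N)
      * (Complex.exp (((-(β / √N / N * z) : ℝ) : ℂ) * Complex.I) * psi a N β).re) := by
    have hmeas : AEStronglyMeasurable (fun β : ℝ => tri (β / √N)
      * (Complex.exp (((-(β / √N / N * z) : ℝ) : ℂ) * Complex.I) * psi a N β).re) volume := by
      apply Measurable.aestronglyMeasurable
      apply Measurable.mul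
      · exact tri_cont.measurable.comp (by fun_prop)
      · apply Complex.measurable_re.comp
        apply Measurable.mul (by fun_prop)
        unfold psi
        apply Finset.measurable_fun_prod
        intro s _
        exact (meas_ph (mu_nonneg ha0 s)).comp (by fun_prop)
    apply (i1.norm.add ib).mono' hmeas
    filter_upwards with β
    have h3 := key β
    rw [Real.norm_eq_abs]
    show _ ≤ ‖Real.exp (-(VN a N / 2) * β ^ 2) * Real.cos (β * (z / √N / N))‖
      + C5 / √√N * Real.exp (-(v0 / 80) * β ^ 2)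
    rw [Real.norm_eq_abs]
    have h4 := abs_sub_abs_le_abs_sub (tri (β / √N)
      * (Complex.exp (((-(β / √N / N * z) : ℝ) : ℂ) * Complex.I) * psi a N β).re)
      (Real.exp (-(VN a N / 2) * β ^ 2) * Real.cos (β * (z / √N / N)))
    linarith
  have h5 : |(∫ β : ℝ, tri (β / √N)
      * (Complex.exp (((-(β / √N / N * z) : ℝ) : ℂ) * Complex.I) * psi a N β).re)
      - ∫ β : ℝ, Real.exp (-(VN a N / 2) * β ^ 2) * Real.cos (β * (z / √N / N))|
      ≤ C8 / √√N := by
    rw [← integral_sub i2 i1, ← Real.norm_eq_abs]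
    refine (norm_integral_le_of_norm_le ib ?_).trans (le_of_eq ?_)
    · filter_upwards with β
      rw [Real.norm_eq_abs]
      exact key β
    · rw [integral_const_mul, integral_gaussian]
      unfold C8
      ring
  have h6 := (abs_le.1 h5).1
  linarith

theorem fk_lower {a : ℝ} {N : ℕ} (ha : 1 ≤ a) (h1 : a ≤ N) (h2 : (N : ℝ) ≤ a + 1) {z W : ℝ}
    (hz : |z| ≤ W * (N * √N)) :
    1 / 2 * Real.exp (-(W ^ 2 / v0)) - C8 / √√N
      ≤ √N * ∫ ω, fk ((XF a (Finset.Ioc N (2 * N)) ω - z) / N) ∂PA a := by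
  have hN : (0 : ℝ) < N := by linarith
  have hv := v0_pos
  have hsN : 0 < √(N : ℝ) := Real.sqrt_pos.2 hN
  have hV := VN_ge ha h1 h2
  have hV8 := VN_le ha h1
  have hb : 0 < VN a N / 2 := by linarith
  refine le_trans ?_ (fk_local ha h1 h2 z)
  apply sub_le_sub_right
  have e1 : (1 : ℝ) / 2 ≤ √(Real.pi / (VN a N / 2)) := by
    apply Real.le_sqrt_of_sq_le
    rw [le_div_iff₀ hb]
    have := Real.pi_gt_three
    nlinarith
  have hw : |z / √N / N| ≤ W := by
    rw [abs_div, abs_div, abs_of_pos hsN, abs_of_pos hN, div_div, div_le_iff₀ (by positivity)]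
    rw [mul_comm (√(N : ℝ)) (N : ℝ)]
    exact hz
  have hw2 : (z / √N / N) ^ 2 ≤ W ^ 2 := by
    rw [← sq_abs]
    exact pow_le_pow_left₀ (abs_nonneg _) hw 2
  have e2 : Real.exp (-(W ^ 2 / v0)) ≤ Real.exp (-(z / √N / N) ^ 2 / (4 * (VN a N / 2))) := by
    apply Real.exp_le_exp.2
    rw [neg_div]
    apply neg_le_neg
    apply div_le_div₀ (sq_nonneg W) hw2 hv
    linarith
  exact mul_le_mul e1 e2 (Real.exp_pos _).le (by positivity)

end Pool.Agent.Helper95.Dom
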