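import Pool.Agent.Helper76.DomF3

/-!
The local limit lemma for the block `(N, 2N]`, with a constraint on the partial sums.
-/

namespace Pool.Agent.Helper95.Dom

open MeasureTheory ProbabilityTheory Filter
open scoped Topology

theorem sum_inv_sq (J M : ℕ) (hJ : 1 ≤ J) :
    ∑ j ∈ Finset.Ico J M, (4 : ℝ) / (j : ℝ) ^ 2 ≤ 8 / (J : ℝ) := by
  have h := sum_Ioo_inv_sq_le (α := ℝ) (J - 1) M
  have e : Finset.Ioo (J - 1) M = Finset.Ico J M := by
    ext j
    simp only [Finset.mem_Ioo, Finset.mem_Ico]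
    omega
  have e2 : ((J - 1 : ℕ) : ℝ) + 1 = J := by
    rw [Nat.cast_sub hJ]; push_cast; ring
  rw [e, e2] at h
  calc ∑ j ∈ Finset.Ico J M, 4 / (j : ℝ) ^ 2
      = 4 * ∑ j ∈ Finset.Ico J M, ((j : ℝ) ^ 2)⁻¹ := by
        rw [Finset.mul_sum]
        apply Finset.sum_congr rfl
        intro j _
        rw [div_eq_mul_inv]
    _ ≤ 4 * (2 / J) := mul_le_mul_of_nonneg_left h (by norm_num)
    _ = _ := by ring

theorem fk_split {P : Measure Om} [IsProbabilityMeasure P] {X : Om → ℝ} (hX : Measurable X)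
    {N J M : ℕ} (hN : 1 ≤ N) (hJ : 1 ≤ J) (hJM : J ≤ M) (z : ℝ) {p : ℝ} (hp0 : 0 ≤ p)
    (hp : ∀ y : ℝ, P.real {ω | y ≤ X ω ∧ X ω ≤ y + N} ≤ p) :
    ∫ ω, fk ((X ω - z) / N) ∂P
      ≤ P.real {ω | |X ω - z| ≤ J * N} + 16 / J * p + 4 / (M : ℝ) ^ 2 := by
  have hN' : (0 : ℝ) < N := by exact_mod_cast hN
  have hM' : (0 : ℝ) < M := by exact_mod_cast (by omega : 0 < M)
  let B : ℝ → Set Om := fun y => {ω | y ≤ X ω ∧ X ω ≤ y + N}
  have hB : ∀ y, MeasurableSet (B y) := fun y =>
    (measurableSet_le measurable_const hX).inter (measurableSet_le hX measurable_const)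
  have hA : MeasurableSet {ω | |X ω - z| ≤ J * N} := by
    apply measurableSet_le _ measurable_const
    fun_prop
  let b : ℕ → Om → ℝ := fun j ω => 4 / (j : ℝ) ^ 2 * ((B (z + j * N)).indicator 1 ω
    + (B (z - (j + 1) * N)).indicator 1 ω)
  have ib : ∀ j, Integrable (b j) P := fun j =>
    (((integrable_const (1 : ℝ)).indicator (hB _)).add
      ((integrable_const (1 : ℝ)).indicator (hB _))).const_mul _
  have hb0 : ∀ j ω, 0 ≤ b j ω := by
    intro j ω
    have h1 : 0 ≤ (B (z + j * N)).indicator (1 : Om → ℝ) ω :=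
      Set.indicator_nonneg (fun _ _ => zero_le_one) ω
    have h2 : 0 ≤ (B (z - (j + 1) * N)).indicator (1 : Om → ℝ) ω :=
      Set.indicator_nonneg (fun _ _ => zero_le_one) ω
    show 0 ≤ 4 / (j : ℝ) ^ 2 * ((B (z + j * N)).indicator 1 ω
      + (B (z - (j + 1) * N)).indicator 1 ω)
    positivity
  have ibs : Integrable (fun ω => ∑ j ∈ Finset.Ico J M, b j ω) P :=
    integrable_finsetSum _ fun j _ => ib j
  have iA : Integrable (fun ω => Set.indicator {ω | |X ω - z| ≤ J * N} (1 : Om → ℝ) ω) P :=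
    (integrable_const (1 : ℝ)).indicator hA
  have iAb : Integrable (fun ω => Set.indicator {ω | |X ω - z| ≤ J * N} (1 : Om → ℝ) ω
    + ∑ j ∈ Finset.Ico J M, b j ω) P := iA.add ibs
  have hm : Measurable fun ω => (X ω - z) / N := (hX.sub_const z).div_const _
  have h1 : ∫ ω, fk ((X ω - z) / N) ∂P
      ≤ ∫ ω, (Set.indicator {ω | |X ω - z| ≤ J * N} (1 : Om → ℝ) ω
        + ∑ j ∈ Finset.Ico J M, b j ω + 4 / (M : ℝ) ^ 2) ∂P := by
    apply integral_mono (fk_integrable hm) (iAb.add (integrable_const _))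
    intro ω
    show fk ((X ω - z) / N) ≤ Set.indicator {ω | |X ω - z| ≤ J * N} (1 : Om → ℝ) ω
        + ∑ j ∈ Finset.Ico J M, b j ω + 4 / (M : ℝ) ^ 2
    have hs0 : 0 ≤ ∑ j ∈ Finset.Ico J M, b j ω := Finset.sum_nonneg fun j _ => hb0 j ω
    have hM0 : 0 ≤ 4 / (M : ℝ) ^ 2 := by positivity
    by_cases hω : |X ω - z| ≤ J * N
    · rw [Set.indicator_of_mem (show ω ∈ {ω | |X ω - z| ≤ J * N} from hω)]
      have := fk_le_one ((X ω - z) / N)
      show _ ≤ (1 : ℝ) + _ + _
      linarith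
    · rw [Set.indicator_of_notMem (show ω ∉ {ω | |X ω - z| ≤ J * N} from hω)]
      push Not at hω
      set x := (X ω - z) / N with hx
      have hxX : X ω - z = x * N := by rw [hx]; field_simp
      have hxabs : (J : ℝ) < |x| := by
        rw [hxX, abs_mul, abs_of_pos hN'] at hω
        exact lt_of_mul_lt_mul_right hω hN'.le
      have hJ' : (1 : ℝ) ≤ J := by exact_mod_cast hJ
      have hx0 : x ≠ 0 := by
        intro h
        rw [h, abs_zero] at hxabs
        linarith
      have h2 := fk_le x hx0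
      set j := ⌊|x|⌋₊ with hj
      have hj1 : (j : ℝ) ≤ |x| := Nat.floor_le (abs_nonneg _)
      have hj2 : |x| < j + 1 := Nat.lt_floor_add_one _
      have hJj : J ≤ j := Nat.le_floor hxabs.le
      have hj0 : (0 : ℝ) < j := by exact_mod_cast (by omega : 0 < j)
      rcases le_or_gt M j with h3 | h3
      · have h4 : (M : ℝ) ≤ |x| := le_trans (by exact_mod_cast h3) hj1
        have h5 : 4 / x ^ 2 ≤ 4 / (M : ℝ) ^ 2 := by
          apply div_le_div_of_nonneg_left (by norm_num) (by positivity)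
          rw [← sq_abs x]
          exact pow_le_pow_left₀ hM'.le h4 2
        linarith
      · have h5 : 4 / x ^ 2 ≤ 4 / (j : ℝ) ^ 2 := by
          apply div_le_div_of_nonneg_left (by norm_num) (by positivity)
          rw [← sq_abs x]
          exact pow_le_pow_left₀ hj0.le hj1 2
        have h6 : 4 / (j : ℝ) ^ 2 ≤ b j ω := by
          have h7 : 1 ≤ (B (z + j * N)).indicator (1 : Om → ℝ) ω
              + (B (z - (j + 1) * N)).indicator (1 : Om → ℝ) ω := by
            have p1 : 0 ≤ (B (z + j * N)).indicator (1 : Om → ℝ) ω :=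
              Set.indicator_nonneg (fun _ _ => zero_le_one) ω
            have p2 : 0 ≤ (B (z - (j + 1) * N)).indicator (1 : Om → ℝ) ω :=
              Set.indicator_nonneg (fun _ _ => zero_le_one) ω
            rcases le_or_gt 0 x with h8 | h8
            · rw [abs_of_nonneg h8] at hj1 hj2
              have h9 : ω ∈ B (z + j * N) := by
                constructor
                · nlinarith
                · nlinarith
              rw [Set.indicator_of_mem h9]
              show (1 : ℝ) ≤ 1 + _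
              linarith
            · rw [abs_of_neg h8] at hj1 hj2
              have h9 : ω ∈ B (z - (j + 1) * N) := by
                constructor
                · nlinarith
                · nlinarith
              rw [Set.indicator_of_mem h9]
              show (1 : ℝ) ≤ _ + 1
              linarith
          show 4 / (j : ℝ) ^ 2 ≤ 4 / (j : ℝ) ^ 2 * ((B (z + j * N)).indicator 1 ω
            + (B (z - (j + 1) * N)).indicator 1 ω)
          have : 0 ≤ 4 / (j : ℝ) ^ 2 := by positivity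
          nlinarith
        have h7 : b j ω ≤ ∑ j ∈ Finset.Ico J M, b j ω :=
          Finset.single_le_sum (f := fun j => b j ω) (fun i _ => hb0 i ω)
            (Finset.mem_Ico.2 ⟨hJj, h3⟩)
        linarith
  refine h1.trans ?_
  rw [integral_add iAb (integrable_const _), integral_add iA ibs, integral_finsetSum _ fun j _ => ib j,
    integral_indicator_one hA, integral_const, probReal_univ, one_smul]
  have h2 : ∑ j ∈ Finset.Ico J M, ∫ ω, b j ω ∂P ≤ ∑ j ∈ Finset.Ico J M, 4 / (j : ℝ) ^ 2 * (2 * p) := by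
    apply Finset.sum_le_sum
    intro j _
    have e : ∫ ω, b j ω ∂P = 4 / (j : ℝ) ^ 2 * (P.real (B (z + j * N)) + P.real (B (z - (j + 1) * N))) := by
      show ∫ ω, 4 / (j : ℝ) ^ 2 * ((B (z + j * N)).indicator 1 ω
        + (B (z - (j + 1) * N)).indicator 1 ω) ∂P = _
      have i1 : ∀ y, Integrable (fun ω => (B y).indicator (1 : Om → ℝ) ω) P := fun y =>
        (integrable_const (1 : ℝ)).indicator (hB y)
      rw [integral_const_mul, integral_add (i1 _) (i1 _), integral_indicator_one (hB _),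
        integral_indicator_one (hB _)]
    rw [e]
    apply mul_le_mul_of_nonneg_left _ (by positivity)
    have := hp (z + j * N)
    have := hp (z - (j + 1) * N)
    linarith
  have h3 : ∑ j ∈ Finset.Ico J M, 4 / (j : ℝ) ^ 2 * (2 * p) ≤ 16 / J * p := by
    rw [← Finset.sum_mul]
    calc (∑ j ∈ Finset.Ico J M, 4 / (j : ℝ) ^ 2) * (2 * p) ≤ 8 / J * (2 * p) :=
          mul_le_mul_of_nonneg_right (sum_inv_sq J M hJ) (by linarith)
      _ = _ := by ring
  linarith

/-- Kolmogorov's inequality for the first coordinates. -/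
theorem kolm_ma {a : ℝ} (ha : 0 < a) (T t0 : ℕ) (hT : t0 ≤ T) {x : ℝ} (hx : 0 < x) :
    (PA a).real {ω | ∃ t, t0 ≤ t ∧ t ≤ T ∧ x ≤ |∑ s ∈ Finset.Ioc t T, (ma s ω - mu a s)|}
      ≤ (∑ s ∈ Finset.Ioc t0 T, mu a s * (1 + mu a s)) / x ^ 2 := by
  have h := hajek (mu a) (mu a) (fun s p => (p.1 : ℝ) - mu a s) T
    (fun s => mu a s * (1 + mu a s)) (fun _ => 1 / x ^ 2) t0 hT
    (fun s _ => (memLp_ma s (mu_nonneg ha s)).sub (memLp_const _))
    (fun s _ => by
      have h1 : ∫ ω, (ma s ω - mu a s) ∂PP (mu a) (mu a) = 0 := by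
        rw [integral_sub ((memLp_ma s (mu_nonneg ha s)).integrable (by norm_num))
          (integrable_const _), integral_ma s (mu_nonneg ha s)]
        simp
      exact h1)
    (fun s _ => by
      have h1 := var_ma (μ := mu a) (μ' := mu a) s (mu_nonneg ha s)
      rw [variance_eq_integral (memLp_ma s (mu_nonneg ha s)).aemeasurable,
        integral_ma s (mu_nonneg ha s)] at h1
      exact h1.le)
    (fun _ => by positivity) (fun _ _ _ => le_rfl)
  have h1 : {ω | ∃ t, t0 ≤ t ∧ t ≤ T ∧ x ≤ |∑ s ∈ Finset.Ioc t T, (ma s ω - mu a s)|}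
      = {ω | ∃ t, t0 ≤ t ∧ t ≤ T ∧ 1 ≤ 1 / x ^ 2
        * (rS (fun s p => (p.1 : ℝ) - mu a s) T t ω) ^ 2} := by
    ext ω
    have key : ∀ t, x ≤ |∑ s ∈ Finset.Ioc t T, (ma s ω - mu a s)| ↔ 1 ≤ 1 / x ^ 2
        * (rS (fun s p => (p.1 : ℝ) - mu a s) T t ω) ^ 2 := by
      intro t
      rw [one_div, inv_mul_eq_div, one_le_div (by positivity)]
      show x ≤ |rS (fun s p => (p.1 : ℝ) - mu a s) T t ω| ↔ _
      rw [← sq_abs (rS (fun s p => (p.1 : ℝ) - mu a s) T t ω)]
      exact (sq_le_sq₀ hx.le (abs_nonneg _)).symm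
    simp only [Set.mem_ofPred_eq, key]
  rw [h1]
  refine h.trans (le_of_eq ?_)
  rw [← Finset.mul_sum]
  ring

/-- independent blocks: concentration of the sum on an event of the other block. -/
theorem indep_sup (a : ℝ) (I J : Finset ℕ) (hIJ : Disjoint I J) {E : Set Om}
    (hE : ∀ ω ω' : Om, (∀ s ∈ I, ω s = ω' s) → (ω ∈ E ↔ ω' ∈ E)) {f g : Om → ℝ}
    (hf : ∀ ω ω' : Om, (∀ s ∈ I, ω s = ω' s) → f ω = f ω')
    (hg : ∀ ω ω' : Om, (∀ s ∈ J, ω s = ω' s) → g ω = g ω') {H p : ℝ} (hp0 : 0 ≤ p)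
    (hp : ∀ x : ℝ, (PA a).real {ω | x ≤ g ω ∧ g ω ≤ x + H} ≤ p) (y : ℝ) :
    (PA a).real ({ω | y ≤ f ω + g ω ∧ f ω + g ω ≤ y + H} ∩ E) ≤ (PA a).real E * p := by
  classical
  have mE : MeasurableSet E := measSet_of_dep I hE
  have mf : Measurable f := meas_of_dep I hf
  have mg : Measurable g := meas_of_dep J hg
  let F : Om → ℝ × ℝ := fun ω => (f ω, E.indicator 1 ω)
  have hF : ∀ ω ω' : Om, (∀ s ∈ I, ω s = ω' s) → F ω = F ω' := by
    intro ω ω' h
    show (f ω, E.indicator (1 : Om → ℝ) ω) = (f ω', E.indicator (1 : Om → ℝ) ω')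
    rw [hf ω ω' h]
    congr 1
    by_cases h1 : ω ∈ E
    · rw [Set.indicator_of_mem h1, Set.indicator_of_mem ((hE ω ω' h).1 h1)]
      rfl
    · rw [Set.indicator_of_notMem h1, Set.indicator_of_notMem (fun h2 => h1 ((hE ω ω' h).2 h2))]
  have mF : Measurable F := meas_of_dep I hF
  have hind : IndepFun F g (PA a) := indep_of_dep (mu a) (mu a) I J hIJ hF hg
  have hmap := (indepFun_iff_map_prod_eq_prod_map_map mF.aemeasurable mg.aemeasurable).1 hind
  let S : Set ((ℝ × ℝ) × ℝ) := {w | w.1.2 = 1 ∧ y ≤ w.1.1 + w.2 ∧ w.1.1 + w.2 ≤ y + H}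
  have mS : MeasurableSet S := by
    apply MeasurableSet.inter
    · exact measurableSet_eq_fun (f := fun w : (ℝ × ℝ) × ℝ => w.1.2) (by fun_prop) measurable_const
    · exact (measurableSet_le (g := fun w : (ℝ × ℝ) × ℝ => w.1.1 + w.2)
        measurable_const (by fun_prop)).inter
        (measurableSet_le (f := fun w : (ℝ × ℝ) × ℝ => w.1.1 + w.2) (by fun_prop)
          measurable_const)
  have e1 : {ω | y ≤ f ω + g ω ∧ f ω + g ω ≤ y + H} ∩ E = (fun ω => (F ω, g ω)) ⁻¹' S := by
    ext ω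
    simp only [Set.mem_inter_iff, Set.mem_ofPred_eq, Set.mem_preimage, S, F]
    by_cases h1 : ω ∈ E
    · rw [Set.indicator_of_mem h1]
      simp [h1]
    · rw [Set.indicator_of_notMem h1]
      simp [h1]
  have h2 : (PA a) ({ω | y ≤ f ω + g ω ∧ f ω + g ω ≤ y + H} ∩ E)
      ≤ (PA a) E * ENNReal.ofReal p := by
    rw [e1, ← Measure.map_apply (mF.prodMk mg) mS, hmap, Measure.prod_apply mS]
    have h3 : ∀ x : ℝ × ℝ, ((PA a).map g) (Prod.mk x ⁻¹' S)
        ≤ ({x : ℝ × ℝ | x.2 = 1}).indicator (fun _ => ENNReal.ofReal p) x := by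
      intro x
      by_cases h4 : x.2 = 1
      · rw [Set.indicator_of_mem (show x ∈ {x : ℝ × ℝ | x.2 = 1} from h4)]
        rw [Measure.map_apply mg (measurable_prodMk_left mS)]
        have e2 : g ⁻¹' (Prod.mk x ⁻¹' S) = {ω | (y - x.1) ≤ g ω ∧ g ω ≤ (y - x.1) + H} := by
          ext ω
          simp only [Set.mem_preimage, Set.mem_ofPred_eq, S, h4, true_and]
          constructor
          · rintro ⟨h5, h6⟩; constructor <;> linarith
          · rintro ⟨h5, h6⟩; constructor <;> linarith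
        rw [e2]
        have h5 := hp (y - x.1)
        rw [Measure.real] at h5
        exact (ENNReal.le_ofReal_iff_toReal_le (measure_ne_top _ _) hp0).2 h5
      · rw [Set.indicator_of_notMem (show x ∉ {x : ℝ × ℝ | x.2 = 1} from h4)]
        have e2 : Prod.mk x ⁻¹' S = ∅ := by
          ext v
          simp [S, h4]
        rw [e2]
        simp
    refine (lintegral_mono h3).trans ?_
    have m1 : MeasurableSet {x : ℝ × ℝ | x.2 = 1} :=
      measurableSet_eq_fun measurable_snd measurable_const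
    rw [lintegral_indicator m1, setLIntegral_const, Measure.map_apply mF m1, mul_comm]
    have e3 : F ⁻¹' {x : ℝ × ℝ | x.2 = 1} = E := by
      ext ω
      simp only [Set.mem_preimage, Set.mem_ofPred_eq, F]
      by_cases h1 : ω ∈ E
      · rw [Set.indicator_of_mem h1]
        simp [h1]
      · rw [Set.indicator_of_notMem h1]
        simp [h1]
    rw [e3]
  have h3 := ENNReal.toReal_mono (ENNReal.mul_ne_top (measure_ne_top _ _) ENNReal.ofReal_ne_top) h2
  rw [ENNReal.toReal_mul, ENNReal.toReal_ofReal hp0] at h3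
  exact h3

theorem long_window {P : Measure Om} [IsProbabilityMeasure P] {g : Om → ℝ} {N : ℝ} {p : ℝ}
    (hp : ∀ x : ℝ, P.real {ω | x ≤ g ω ∧ g ω ≤ x + N} ≤ p) (K : ℕ) (hK : 1 ≤ K) :
    ∀ x : ℝ, P.real {ω | x ≤ g ω ∧ g ω ≤ x + K * N} ≤ K * p := by
  induction K, hK using Nat.le_induction with
  | base =>
    intro x
    simpa using hp x
  | succ K _ ih =>
    intro x
    have h1 : {ω | x ≤ g ω ∧ g ω ≤ x + ((K + 1 : ℕ) : ℝ) * N}
        ⊆ {ω | x ≤ g ω ∧ g ω ≤ x + K * N}
          ∪ {ω | x + K * N ≤ g ω ∧ g ω ≤ (x + K * N) + N} := by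
      rintro ω ⟨h2, h3⟩
      rcases le_total (g ω) (x + K * N) with h | h
      · exact Or.inl ⟨h2, h⟩
      · refine Or.inr ⟨h, ?_⟩
        push_cast at h3
        linarith
    have h2 := (measureReal_mono (μ := P) h1 (measure_ne_top _ _)).trans (measureReal_union_le _ _)
    have h3 := ih x
    have h4 := hp (x + K * N)
    have h5 : ((K + 1 : ℕ) : ℝ) * p = K * p + p := by push_cast; ring
    rw [h5]
    linarith

end Pool.Agent.Helper95.Dom
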