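import Pool.Agent.Helper76.DomF
import Pool.Agent.Helper95.DomW
import Pool.Agent.Helper95.DomInd

/-!
Concentration of the sizes, jointly for the two configurations.
-/

namespace Pool.Agent.Helper95.Dom

open MeasureTheory ProbabilityTheory Filter
open scoped Topology

/-- the coordinates outside of the block. -/
def rst (n N : ℕ) : Finset ℕ := Finset.Icc 1 n \ Finset.Ioc N (2 * N)

theorem rst_disj (n N : ℕ) : Disjoint (rst n N) (Finset.Ioc N (2 * N)) :=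
  Finset.sdiff_disjoint

theorem wa_split {n N : ℕ} (h : 2 * N ≤ n) (ω : Om) :
    wa (Finset.Icc 1 n) ω = wa (rst n N) ω + wa (Finset.Ioc N (2 * N)) ω := by
  unfold wa rst
  rw [Finset.sum_sdiff]
  intro s hs
  rw [Finset.mem_Ioc] at hs
  rw [Finset.mem_Icc]
  omega

theorem wb_split {n N : ℕ} (h : 2 * N ≤ n) (ω : Om) :
    wb (Finset.Icc 1 n) ω = wb (rst n N) ω + wb (Finset.Ioc N (2 * N)) ω := by
  unfold wb rst
  rw [Finset.sum_sdiff]
  intro s hs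
  rw [Finset.mem_Ioc] at hs
  rw [Finset.mem_Icc]
  omega

theorem wa_cast (I : Finset ℕ) (ω : Om) : ((wa I ω : ℕ) : ℝ) = ∑ s ∈ I, (s : ℝ) * ma s ω := by
  unfold wa ma
  push_cast
  rfl

theorem wb_cast (I : Finset ℕ) (ω : Om) : ((wb I ω : ℕ) : ℝ) = ∑ s ∈ I, (s : ℝ) * mb s ω := by
  unfold wb mb
  push_cast
  rfl

/-- windows of length `K N` for the size of the block. -/
theorem winF (K : ℕ) : ∃ C : ℝ, 0 < C ∧ ∀ (a : ℝ) (N : ℕ), 1 ≤ a → a ≤ N → (N : ℝ) ≤ a + 1 →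
    ∀ x : ℝ, (PA a).real {ω | x ≤ ((wa (Finset.Ioc N (2 * N)) ω : ℕ) : ℝ)
      ∧ ((wa (Finset.Ioc N (2 * N)) ω : ℕ) : ℝ) ≤ x + K * N} ≤ C / √N := by
  obtain ⟨C, hC, h⟩ := F_conc
  refine ⟨(K + 1) * C, by positivity, ?_⟩
  intro a N ha h1 h2 x
  have hN : (0 : ℝ) < N := by linarith
  have h3 := long_window (P := PA a) (g := fun ω => ((wa (Finset.Ioc N (2 * N)) ω : ℕ) : ℝ))
    (N := (N : ℝ)) (p := C / √N) (fun x => by
      have := h a N N (2 * N) ha h1 h2 le_rfl (by omega) le_rfl (by omega) x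
      simpa only [wa_cast] using this) (K + 1) (by omega) x
  have hsub : {ω : Om | x ≤ ((wa (Finset.Ioc N (2 * N)) ω : ℕ) : ℝ)
      ∧ ((wa (Finset.Ioc N (2 * N)) ω : ℕ) : ℝ) ≤ x + K * N}
      ⊆ {ω | x ≤ ((wa (Finset.Ioc N (2 * N)) ω : ℕ) : ℝ)
      ∧ ((wa (Finset.Ioc N (2 * N)) ω : ℕ) : ℝ) ≤ x + ((K + 1 : ℕ) : ℝ) * N} := by
    rintro ω ⟨h4, h5⟩
    refine ⟨h4, ?_⟩
    push_cast
    linarith
  refine (measureReal_mono hsub (measure_ne_top _ _)).trans (h3.trans (le_of_eq ?_))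
  push_cast
  ring

theorem meas_window_a (I : Finset ℕ) (p : ℕ → Prop) :
    MeasurableSet {ω : Om | p (wa I ω)} := by
  apply measSet_of_dep I
  intro ω ω' h
  simp only [Set.mem_ofPred_eq, wa_dep I ω ω' h]

theorem swp_wa (I : Finset ℕ) (ω : Om) : wa I (swp ω) = wb I ω := rfl

/-- windows for the second configuration. -/
theorem winF_b (K : ℕ) : ∃ C : ℝ, 0 < C ∧ ∀ (a : ℝ) (N : ℕ), 1 ≤ a → a ≤ N → (N : ℝ) ≤ a + 1 →
    ∀ x : ℝ, (PA a).real {ω | x ≤ ((wb (Finset.Ioc N (2 * N)) ω : ℕ) : ℝ)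
      ∧ ((wb (Finset.Ioc N (2 * N)) ω : ℕ) : ℝ) ≤ x + K * N} ≤ C / √N := by
  obtain ⟨C, hC, h⟩ := winF K
  refine ⟨C, hC, ?_⟩
  intro a N ha h1 h2 x
  refine le_trans (le_of_eq ?_) (h a N ha h1 h2 x)
  have hm := meas_window_a (Finset.Ioc N (2 * N))
    (fun w => x ≤ (w : ℝ) ∧ (w : ℝ) ≤ x + K * N)
  have h3 := swp_real (mu a) hm
  unfold PA
  rw [← h3]
  rfl

/-- Upper bound for windows of the size of the first configuration. -/
theorem W_upper (K : ℕ) : ∃ C : ℝ, 0 < C ∧ ∀ (a : ℝ) (N n y : ℕ), 1 ≤ a → a ≤ N →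
    (N : ℝ) ≤ a + 1 → 2 * N ≤ n →
    (PA a).real {ω | y ≤ wa (Finset.Icc 1 n) ω ∧ wa (Finset.Icc 1 n) ω ≤ y + K * N} ≤ C / √N := by
  obtain ⟨C, hC, h⟩ := winF K
  refine ⟨C, hC, ?_⟩
  intro a N n y ha h1 h2 hn
  have hN : (0 : ℝ) < N := by linarith
  have h3 := indep_sup a (rst n N) (Finset.Ioc N (2 * N)) (rst_disj n N) (E := Set.univ)
    (fun _ _ _ => Iff.rfl) (f := fun ω => ((wa (rst n N) ω : ℕ) : ℝ))
    (g := fun ω => ((wa (Finset.Ioc N (2 * N)) ω : ℕ) : ℝ))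
    (fun ω ω' hh => by rw [wa_dep _ ω ω' hh]) (fun ω ω' hh => by rw [wa_dep _ ω ω' hh])
    (H := (K : ℝ) * N) (p := C / √N) (by positivity) (fun x => h a N ha h1 h2 x) y
  rw [Set.inter_univ, probReal_univ, one_mul] at h3
  refine le_trans (le_of_eq ?_) h3
  congr 1
  ext ω
  simp only [Set.mem_ofPred_eq, wa_split hn]
  norm_cast

/-- Joint concentration for both sizes, on an event of the coordinates outside of the block. -/
theorem F_joint (K K' : ℕ) : ∃ C : ℝ, 0 < C ∧ ∀ (a : ℝ) (N n y y' : ℕ), 1 ≤ a → a ≤ N →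
    (N : ℝ) ≤ a + 1 → 2 * N ≤ n → ∀ E : Set Om,
    (∀ ω ω' : Om, (∀ s ∈ Finset.Icc 1 n \ Finset.Ioc N (2 * N), ω s = ω' s) → (ω ∈ E ↔ ω' ∈ E)) →
    (PA a).real (E ∩ {ω | y ≤ wa (Finset.Icc 1 n) ω ∧ wa (Finset.Icc 1 n) ω ≤ y + K * N
      ∧ y' ≤ wb (Finset.Icc 1 n) ω ∧ wb (Finset.Icc 1 n) ω ≤ y' + K' * N})
      ≤ (PA a).real E * (C / N) := by
  obtain ⟨C1, hC1, hw1⟩ := winF K
  obtain ⟨C2, hC2, hw2⟩ := winF_b K'
  refine ⟨C1 * C2, by positivity, ?_⟩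
  intro a N n y y' ha h1 h2 hn E hE
  have hN : (0 : ℝ) < N := by linarith
  have hsN : 0 < √(N : ℝ) := Real.sqrt_pos.2 hN
  let G : ℕ × ℕ → Set Om := fun k => {ω | y ≤ k.1 + wa (Finset.Ioc N (2 * N)) ω
    ∧ k.1 + wa (Finset.Ioc N (2 * N)) ω ≤ y + K * N
    ∧ y' ≤ k.2 + wb (Finset.Ioc N (2 * N)) ω
    ∧ k.2 + wb (Finset.Ioc N (2 * N)) ω ≤ y' + K' * N}
  have hG : ∀ k, (PA a).real (G k) ≤ C1 * C2 / N := by
    intro k
    have e1 : G k = {ω | y ≤ k.1 + wa (Finset.Ioc N (2 * N)) ω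
        ∧ k.1 + wa (Finset.Ioc N (2 * N)) ω ≤ y + K * N}
        ∩ {ω | y' ≤ k.2 + wb (Finset.Ioc N (2 * N)) ω
        ∧ k.2 + wb (Finset.Ioc N (2 * N)) ω ≤ y' + K' * N} := by
      ext ω
      simp only [G, Set.mem_ofPred_eq, Set.mem_inter_iff]
      tauto
    have h3 := indep_sets_fs (mu a) (mu a) (Finset.Ioc N (2 * N)) (Finset.Ioc N (2 * N))
      (A := {ω | y ≤ k.1 + wa (Finset.Ioc N (2 * N)) ω
        ∧ k.1 + wa (Finset.Ioc N (2 * N)) ω ≤ y + K * N})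
      (B := {ω | y' ≤ k.2 + wb (Finset.Ioc N (2 * N)) ω
        ∧ k.2 + wb (Finset.Ioc N (2 * N)) ω ≤ y' + K' * N})
      (fun ω ω' hh => by
        have : wa (Finset.Ioc N (2 * N)) ω = wa (Finset.Ioc N (2 * N)) ω' :=
          Finset.sum_congr rfl fun s hs => by rw [hh s hs]
        simp only [Set.mem_ofPred_eq, this])
      (fun ω ω' hh => by
        have : wb (Finset.Ioc N (2 * N)) ω = wb (Finset.Ioc N (2 * N)) ω' :=
          Finset.sum_congr rfl fun s hs => by rw [hh s hs]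
        simp only [Set.mem_ofPred_eq, this])
    rw [e1]
    unfold PA at *
    rw [h3]
    have h4 := hw1 a N ha h1 h2 ((y : ℝ) - k.1)
    have h5 := hw2 a N ha h1 h2 ((y' : ℝ) - k.2)
    have h6 : (PP (mu a) (mu a)).real {ω | y ≤ k.1 + wa (Finset.Ioc N (2 * N)) ω
        ∧ k.1 + wa (Finset.Ioc N (2 * N)) ω ≤ y + K * N} ≤ C1 / √N := by
      refine le_trans (le_of_eq ?_) h4
      congr 1
      ext ω
      simp only [Set.mem_ofPred_eq]
      constructor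
      · rintro ⟨h7, h8⟩
        have h7' : (y : ℝ) ≤ k.1 + wa (Finset.Ioc N (2 * N)) ω := by exact_mod_cast h7
        have h8' : (k.1 : ℝ) + wa (Finset.Ioc N (2 * N)) ω ≤ y + K * N := by exact_mod_cast h8
        constructor <;> linarith
      · rintro ⟨h7, h8⟩
        constructor
        · have : (y : ℝ) ≤ k.1 + wa (Finset.Ioc N (2 * N)) ω := by linarith
          exact_mod_cast this
        · have : (k.1 : ℝ) + wa (Finset.Ioc N (2 * N)) ω ≤ y + K * N := by linarith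
          exact_mod_cast this
    have h7 : (PP (mu a) (mu a)).real {ω | y' ≤ k.2 + wb (Finset.Ioc N (2 * N)) ω
        ∧ k.2 + wb (Finset.Ioc N (2 * N)) ω ≤ y' + K' * N} ≤ C2 / √N := by
      refine le_trans (le_of_eq ?_) h5
      congr 1
      ext ω
      simp only [Set.mem_ofPred_eq]
      constructor
      · rintro ⟨h7, h8⟩
        have h7' : (y' : ℝ) ≤ k.2 + wb (Finset.Ioc N (2 * N)) ω := by exact_mod_cast h7
        have h8' : (k.2 : ℝ) + wb (Finset.Ioc N (2 * N)) ω ≤ y' + K' * N := by exact_mod_cast h8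
        constructor <;> linarith
      · rintro ⟨h7, h8⟩
        constructor
        · have : (y' : ℝ) ≤ k.2 + wb (Finset.Ioc N (2 * N)) ω := by linarith
          exact_mod_cast this
        · have : (k.2 : ℝ) + wb (Finset.Ioc N (2 * N)) ω ≤ y' + K' * N := by linarith
          exact_mod_cast this
    calc _ ≤ C1 / √N * (C2 / √N) := mul_le_mul h6 h7 measureReal_nonneg (by positivity)
      _ = C1 * C2 / (√N * √N) := by rw [div_mul_div_comm]
      _ = _ := by rw [Real.mul_self_sqrt hN.le]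
  have h8 := sum_values_le (mu a) (mu a) (rst n N) (Finset.Ioc N (2 * N)) (rst_disj n N)
    (fun ω => (wa (rst n N) ω, wb (rst n N) ω))
    (fun ω ω' hh => by rw [wa_dep _ ω ω' hh, wb_dep _ ω ω' hh]) (E := E) hE G
    (fun k ω ω' hh => by
      simp only [G, Set.mem_ofPred_eq, wa_dep _ ω ω' hh, wb_dep _ ω ω' hh])
    (c := C1 * C2 / N) (by positivity) hG
  refine le_trans (le_of_eq ?_) h8
  unfold PA
  congr 1
  ext ω
  simp only [Set.mem_inter_iff, Set.mem_ofPred_eq, G, wa_split hn, wb_split hn]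

end Pool.Agent.Helper95.Dom
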