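import Pool.Agent.Helper76.DomG1
import Pool.Agent.Helper95.DomN
import Pool.Agent.Helper95.DomKol

/-!
Lower bound for the window of the size.
-/

namespace Pool.Agent.Helper95.Dom

open MeasureTheory ProbabilityTheory Filter
open scoped Topology

theorem x_exp_le (x : ℝ) : x * Real.exp (-(x / 2)) ≤ 2 * Real.exp (-(x / 4)) := by
  have h1 := Real.add_one_le_exp (x / 4 - 1)
  have h2 : Real.exp (x / 4 - 1) = Real.exp (x / 4) * Real.exp (-1) := by
    rw [← Real.exp_add]; congr 1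
  have h3 : Real.exp (-1) < 0.3678794412 := Real.exp_neg_one_lt_d9
  have h4 : Real.exp (-(x / 2)) = Real.exp (-(x / 4)) * Real.exp (-(x / 4)) := by
    rw [← Real.exp_add]; congr 1; ring
  have h5 : Real.exp (x / 4) * Real.exp (-(x / 4)) = 1 := by rw [← Real.exp_add]; simp
  have h6 := Real.exp_pos (-(x / 4))
  have h7 := Real.exp_pos (x / 4)
  have h8 : x ≤ 2 * Real.exp (x / 4) := by
    rw [h2] at h1
    norm_num at h3
    nlinarith
  calc x * Real.exp (-(x / 2)) ≤ 2 * Real.exp (x / 4) * Real.exp (-(x / 2)) :=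
        mul_le_mul_of_nonneg_right h8 (Real.exp_pos _).le
    _ = 2 * Real.exp (-(x / 4)) * (Real.exp (x / 4) * Real.exp (-(x / 4))) := by rw [h4]; ring
    _ = _ := by rw [h5, mul_one]

theorem s2_var_le {a : ℝ} (ha : 0 < a) (s : ℕ) :
    (s : ℝ) ^ 2 * (mu a s * (1 + mu a s)) ≤ 3 * a ^ 2 * Real.exp (-(s / (4 * a))) := by
  have h1 := s_mu_le ha s
  have h0 : 0 ≤ (s : ℝ) * mu a s := mul_nonneg (Nat.cast_nonneg _) (mu_nonneg ha s)
  have hs : (0 : ℝ) ≤ s := Nat.cast_nonneg _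
  have h2 : ((s : ℝ) * mu a s) ^ 2 ≤ (a * Real.exp (-(s / (2 * a)))) ^ 2 :=
    pow_le_pow_left₀ h0 h1 2
  have h3 : (a * Real.exp (-(s / (2 * a)))) ^ 2 ≤ a ^ 2 * Real.exp (-(s / (4 * a))) := by
    rw [mul_pow, ← Real.exp_nat_mul]
    apply mul_le_mul_of_nonneg_left _ (sq_nonneg a)
    apply Real.exp_le_exp.2
    have e1 : ((2 : ℕ) : ℝ) * -((s : ℝ) / (2 * a)) = -((s : ℝ) / a) := by
      push_cast; field_simp
    rw [e1]
    apply neg_le_neg
    apply div_le_div_of_nonneg_left hs ha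
    linarith
  have h4 : (s : ℝ) * ((s : ℝ) * mu a s) ≤ 2 * a ^ 2 * Real.exp (-(s / (4 * a))) := by
    have h5 := x_exp_le ((s : ℝ) / a)
    have e2 : (s : ℝ) / a / 2 = s / (2 * a) := by field_simp
    have e3 : (s : ℝ) / a / 4 = s / (4 * a) := by field_simp
    rw [e2, e3] at h5
    calc (s : ℝ) * ((s : ℝ) * mu a s) ≤ s * (a * Real.exp (-(s / (2 * a)))) :=
          mul_le_mul_of_nonneg_left h1 hs
      _ = a ^ 2 * (s / a * Real.exp (-(s / (2 * a)))) := by field_simp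
      _ ≤ a ^ 2 * (2 * Real.exp (-(s / (4 * a)))) := mul_le_mul_of_nonneg_left h5 (sq_nonneg a)
      _ = _ := by ring
  calc (s : ℝ) ^ 2 * (mu a s * (1 + mu a s))
      = (s : ℝ) * ((s : ℝ) * mu a s) + ((s : ℝ) * mu a s) ^ 2 := by ring
    _ ≤ 2 * a ^ 2 * Real.exp (-(s / (4 * a))) + a ^ 2 * Real.exp (-(s / (4 * a))) :=
        add_le_add h4 (h2.trans h3)
    _ = _ := by ring

theorem var_total {a : ℝ} (ha : 1 ≤ a) (L R : ℕ) :
    ∑ s ∈ Finset.Ioc L R, (s : ℝ) ^ 2 * (mu a s * (1 + mu a s)) ≤ 15 * a ^ 3 := by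
  have hpos : 0 < a := by linarith
  have hsub : Finset.Ioc L R ⊆ Finset.Icc 1 R := by
    intro s hs
    rw [Finset.mem_Ioc] at hs
    rw [Finset.mem_Icc]
    omega
  calc ∑ s ∈ Finset.Ioc L R, (s : ℝ) ^ 2 * (mu a s * (1 + mu a s))
      ≤ ∑ s ∈ Finset.Icc 1 R, (s : ℝ) ^ 2 * (mu a s * (1 + mu a s)) := by
        apply Finset.sum_le_sum_of_subset_of_nonneg hsub
        intro s _ _
        have := mu_nonneg hpos s
        positivity
    _ ≤ ∑ s ∈ Finset.Icc 1 R, 3 * a ^ 2 * Real.exp (-(s / (4 * a))) :=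
        Finset.sum_le_sum fun s _ => s2_var_le hpos s
    _ = 3 * a ^ 2 * ∑ s ∈ Finset.Icc 1 R, Real.exp (-((s : ℝ) / (4 * a))) := by
        rw [Finset.mul_sum]
    _ ≤ 3 * a ^ 2 * (1 + 4 * a) :=
        mul_le_mul_of_nonneg_left (sum_exp_le (by linarith) _) (by positivity)
    _ ≤ 15 * a ^ 3 := by nlinarith [sq_nonneg a]

theorem chebXF {a : ℝ} (ha : 1 ≤ a) {L R : ℕ} (hLR : L ≤ R) :
    (PA a).real {ω | 16 * (a * √a) ≤ |XF a (Finset.Ioc L R) ω|} ≤ 1 / 8 := by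
  have hpos : 0 < a := by linarith
  have hsa : 0 < √a := Real.sqrt_pos.2 hpos
  have hx : 0 < 16 * (a * √a) := by positivity
  have h := kolm_gen (μ := mu a) (μ' := mu a) (mu_nonneg hpos) (mu_nonneg hpos)
    (fun s => (s : ℝ)) (fun _ => 0) hLR hx
  have hsub : {ω : Om | 16 * (a * √a) ≤ |XF a (Finset.Ioc L R) ω|}
      ⊆ {ω | ∃ t, L ≤ t ∧ t ≤ R ∧ 16 * (a * √a)
        ≤ |∑ s ∈ Finset.Ioc t R, ((s : ℝ) * (ma s ω - mu a s) + 0 * (mb s ω - mu a s))|} := by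
    intro ω hω
    refine ⟨L, le_rfl, hLR, ?_⟩
    have e : ∑ s ∈ Finset.Ioc L R, ((s : ℝ) * (ma s ω - mu a s) + 0 * (mb s ω - mu a s))
        = XF a (Finset.Ioc L R) ω := by
      unfold XF
      apply Finset.sum_congr rfl
      intro s _
      ring
    rw [e]
    exact hω
  unfold PA
  refine (measureReal_mono hsub (measure_ne_top _ _)).trans (h.trans ?_)
  have e2 : (16 * (a * √a)) ^ 2 = 256 * a ^ 3 := by
    rw [mul_pow, mul_pow, Real.sq_sqrt hpos.le]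
    ring
  rw [e2, div_le_iff₀ (by positivity)]
  have h3 := var_total ha L R
  have h4 : ∑ s ∈ Finset.Ioc L R, (2 * (s : ℝ) ^ 2 * (mu a s * (1 + mu a s))
      + 2 * (0 : ℝ) ^ 2 * (mu a s * (1 + mu a s)))
      = 2 * ∑ s ∈ Finset.Ioc L R, (s : ℝ) ^ 2 * (mu a s * (1 + mu a s)) := by
    rw [Finset.mul_sum]
    apply Finset.sum_congr rfl
    intro s _
    ring
  rw [h4]
  have : 0 ≤ a ^ 3 := by positivity
  linarith

theorem rst_eq {n N : ℕ} (h : 2 * N ≤ n) :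
    rst n N = Finset.Ioc 0 N ∪ Finset.Ioc (2 * N) n := by
  ext s
  simp only [rst, Finset.mem_sdiff, Finset.mem_Icc, Finset.mem_Ioc, Finset.mem_union]
  omega

theorem XF_rst {n N : ℕ} (h : 2 * N ≤ n) (a : ℝ) (ω : Om) :
    XF a (rst n N) ω = XF a (Finset.Ioc 0 N) ω + XF a (Finset.Ioc (2 * N) n) ω := by
  unfold XF
  rw [rst_eq h, Finset.sum_union]
  rw [Finset.disjoint_left]
  intro s hs hs'
  rw [Finset.mem_Ioc] at hs hs'
  omega

theorem rest_prob {a : ℝ} (ha : 1 ≤ a) {n N : ℕ} (h : 2 * N ≤ n) :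
    1 / 2 ≤ (PA a).real {ω | |XF a (rst n N) ω| ≤ 32 * (a * √a)} := by
  have h1 := chebXF ha (Nat.zero_le N)
  have h2 := chebXF ha h
  have hcov : (Set.univ : Set Om) ⊆ {ω | |XF a (rst n N) ω| ≤ 32 * (a * √a)}
      ∪ ({ω | 16 * (a * √a) ≤ |XF a (Finset.Ioc 0 N) ω|}
        ∪ {ω | 16 * (a * √a) ≤ |XF a (Finset.Ioc (2 * N) n) ω|}) := by
    intro ω _
    by_cases h3 : 16 * (a * √a) ≤ |XF a (Finset.Ioc 0 N) ω|
    · exact Or.inr (Or.inl h3)
    by_cases h4 : 16 * (a * √a) ≤ |XF a (Finset.Ioc (2 * N) n) ω|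
    · exact Or.inr (Or.inr h4)
    left
    show |XF a (rst n N) ω| ≤ 32 * (a * √a)
    rw [XF_rst h]
    push Not at h3 h4
    have := abs_add_le (XF a (Finset.Ioc 0 N) ω) (XF a (Finset.Ioc (2 * N) n) ω)
    linarith
  have h5 := measureReal_mono (μ := PA a) hcov (measure_ne_top _ _)
  rw [probReal_univ] at h5
  have h6 := measureReal_union_le (μ := PA a) {ω | |XF a (rst n N) ω| ≤ 32 * (a * √a)}
    ({ω | 16 * (a * √a) ≤ |XF a (Finset.Ioc 0 N) ω|}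
        ∪ {ω | 16 * (a * √a) ≤ |XF a (Finset.Ioc (2 * N) n) ω|})
  have h7 := measureReal_union_le (μ := PA a) {ω | 16 * (a * √a) ≤ |XF a (Finset.Ioc 0 N) ω|}
    {ω | 16 * (a * √a) ≤ |XF a (Finset.Ioc (2 * N) n) ω|}
  linarith

theorem W_lower : ∃ (K : ℕ) (c a0 : ℝ), 1 ≤ K ∧ 0 < c ∧ 1 ≤ a0 ∧ ∀ (a : ℝ) (N n : ℕ), a0 ≤ a →
    a ≤ N → (N : ℝ) ≤ a + 1 → EX a (Finset.Icc 1 n) = n → (n : ℝ) ≤ 3 * a ^ 2 → a ^ 2 ≤ 6 * n →
    c / √N ≤ (PA a).real {ω | n - K * N ≤ wa (Finset.Icc 1 n) ω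
      ∧ wa (Finset.Icc 1 n) ω ≤ n - K * N + K * N} := by
  obtain ⟨K, c, lam0, a1, hK, hc, hlam, ha1, hloc⟩ := F_local 33
  refine ⟨K, c / 2, max (max a1 24) (max (12 * K) ((K : ℝ) ^ 2)), hK, by positivity,
    ha1.trans ((le_max_left _ _).trans (le_max_left _ _)), ?_⟩
  intro a N n haa h1 h2 hEX _ hn6
  have k1 : a1 ≤ a := ((le_max_left _ _).trans (le_max_left _ _)).trans haa
  have k2 : (24 : ℝ) ≤ a := ((le_max_right _ _).trans (le_max_left _ _)).trans haa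
  have k3 : 12 * (K : ℝ) ≤ a := ((le_max_left _ _).trans (le_max_right _ _)).trans haa
  have k4 : (K : ℝ) ^ 2 ≤ a := ((le_max_right _ _).trans (le_max_right _ _)).trans haa
  have ha : 1 ≤ a := by linarith
  have hpos : 0 < a := by linarith
  have hN : (0 : ℝ) < N := by linarith
  have hsN : 0 < √(N : ℝ) := Real.sqrt_pos.2 hN
  have hK0 : (0 : ℝ) ≤ K := Nat.cast_nonneg _
  have hn : 2 * N ≤ n := by
    have : (2 : ℝ) * N ≤ n := by nlinarith
    exact_mod_cast this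
  have hKN : K * N ≤ n := by
    have h3 : (K : ℝ) * N ≤ K * (2 * a) := mul_le_mul_of_nonneg_left (by linarith) hK0
    have : (K : ℝ) * N ≤ n := by nlinarith
    exact_mod_cast this
  have hKs : (K : ℝ) ≤ √N := Real.le_sqrt_of_sq_le (by linarith)
  -- the events
  let E : Set Om := {ω | |XF a (rst n N) ω| ≤ 32 * (a * √a)}
  let G : ℕ → Set Om := fun k => {ω | n - K * N ≤ k + wa (Finset.Ioc N (2 * N)) ω
    ∧ k + wa (Finset.Ioc N (2 * N)) ω ≤ n - K * N + K * N}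
  have hEp : 1 / 2 ≤ (PA a).real E := rest_prob ha hn
  have hGc : ∀ ω ∈ E, c / √N ≤ (PA a).real (G (wa (rst n N) ω)) := by
    intro ω hω
    have hω' : |XF a (rst n N) ω| ≤ 32 * (a * √a) := hω
    have haN : a * √a ≤ N * √N :=
      mul_le_mul h1 (Real.sqrt_le_sqrt h1) (Real.sqrt_nonneg _) hN.le
    have hy : |-(K * N) - XF a (rst n N) ω| ≤ 33 * (N * √N) := by
      have h3 : |-((K : ℝ) * N) - XF a (rst n N) ω| ≤ |-((K : ℝ) * N)| + |XF a (rst n N) ω| :=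
        abs_sub _ _
      rw [abs_neg, abs_of_nonneg (by positivity : (0 : ℝ) ≤ (K : ℝ) * N)] at h3
      have h4 : (K : ℝ) * N ≤ N * √N := by
        rw [mul_comm]
        exact mul_le_mul_of_nonneg_left hKs hN.le
      linarith
    have h3 := hloc a N k1 h1 h2 (-(K * N) - XF a (rst n N) ω) hy
    refine h3.trans (measureReal_mono ?_ (measure_ne_top _ _))
    rintro ω' ⟨h4, h5, _⟩
    have e1 : ∑ s ∈ Finset.Ioc N (2 * N), (s : ℝ) * (ma s ω' - mu a s)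
        = XF a (Finset.Ioc N (2 * N)) ω' := rfl
    rw [e1] at h4 h5
    have e2 : ((wa (Finset.Ioc N (2 * N)) ω' : ℕ) : ℝ)
        = XF a (Finset.Ioc N (2 * N)) ω' + ∑ s ∈ Finset.Ioc N (2 * N), (s : ℝ) * mu a s := by
      rw [wa_cast, sum_eq_XF]
    have e3 : ((wa (rst n N) ω : ℕ) : ℝ)
        = XF a (rst n N) ω + ∑ s ∈ rst n N, (s : ℝ) * mu a s := by
      rw [wa_cast, sum_eq_XF]
    have e4 : ∑ s ∈ rst n N, (s : ℝ) * mu a s
        + ∑ s ∈ Finset.Ioc N (2 * N), (s : ℝ) * mu a s = n := by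
      rw [← hEX]
      unfold EX rst
      rw [Finset.sum_sdiff]
      intro s hs
      rw [Finset.mem_Ioc] at hs
      rw [Finset.mem_Icc]
      omega
    have e5 : ((n - K * N : ℕ) : ℝ) = n - K * N := by
      rw [Nat.cast_sub hKN]; push_cast; ring
    show n - K * N ≤ wa (rst n N) ω + wa (Finset.Ioc N (2 * N)) ω'
      ∧ wa (rst n N) ω + wa (Finset.Ioc N (2 * N)) ω' ≤ n - K * N + K * N
    constructor
    · have : ((n - K * N : ℕ) : ℝ) ≤ ((wa (rst n N) ω : ℕ) : ℝ)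
          + ((wa (Finset.Ioc N (2 * N)) ω' : ℕ) : ℝ) := by
        rw [e5, e2, e3]; linarith
      exact_mod_cast this
    · have : ((wa (rst n N) ω : ℕ) : ℝ) + ((wa (Finset.Ioc N (2 * N)) ω' : ℕ) : ℝ)
          ≤ ((n - K * N : ℕ) : ℝ) + K * N := by
        rw [e5, e2, e3]; linarith
      exact_mod_cast this
  have h3 := le_sum_values (mu a) (mu a) (rst n N) (Finset.Ioc N (2 * N)) (rst_disj n N)
    (fun ω => wa (rst n N) ω) (fun ω ω' hh => wa_dep _ ω ω' hh) (E := E)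
    (fun ω ω' hh => by simp only [E, Set.mem_ofPred_eq, XF_dep a _ ω ω' hh]) G
    (fun k ω ω' hh => by simp only [G, Set.mem_ofPred_eq, wa_dep _ ω ω' hh])
    (c := c / √N) (by positivity) hGc
  have h4 : {ω | ω ∈ E ∧ ω ∈ G (wa (rst n N) ω)} ⊆ {ω | n - K * N ≤ wa (Finset.Icc 1 n) ω
      ∧ wa (Finset.Icc 1 n) ω ≤ n - K * N + K * N} := by
    rintro ω ⟨_, h5⟩
    simp only [Set.mem_ofPred_eq, wa_split hn]
    exact h5
  have h5 := measureReal_mono (μ := PA a) h4 (measure_ne_top _ _)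
  have h6 : c / 2 / √N = 1 / 2 * (c / √N) := by ring
  rw [h6]
  refine le_trans ?_ (le_trans h3 h5)
  exact mul_le_mul_of_nonneg_right hEp (by positivity)

end Pool.Agent.Helper95.Dom
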