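import Pool.Agent.Helper76.DomG2
import Pool.Agent.Helper95.DomTail3
import Pool.Agent.Helper95.DomVerify
import Pool.Agent.Helper95.DomUp

/-!
The upper bound for the probability of comparability.
-/

namespace Pool.Agent.Helper95.Dom

open MeasureTheory ProbabilityTheory Filter
open scoped Topology

theorem r_nonneg (n : ℕ) : 0 ≤ r n := by
  unfold r
  positivity

theorem r_le_one (n : ℕ) : r n ≤ 1 := by
  unfold r
  have hB : (0 : ℝ) < Nat.card n.Partition := by exact_mod_cast Nat.card_pos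
  rw [div_le_one (by positivity)]
  have h : comparablePairs n ≤ Nat.card (n.Partition × n.Partition) := by
    unfold comparablePairs
    exact Nat.card_le_card_of_injective Subtype.val Subtype.val_injective
  rw [Nat.card_prod] at h
  rw [sq]
  exact_mod_cast h

theorem GB_swp (T t : ℕ) (ω : Om) : GB T t (swp ω) = -GB T t ω := by
  unfold GB
  rw [← Finset.sum_neg_distrib]
  apply Finset.sum_congr rfl
  intro s _
  rw [xs_swp]
  ring

theorem xs_eq_of {s : ℕ} {ω ω' : Om} (h : ω s = ω' s) : xs s ω = xs s ω' := by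
  unfold xs ma mb
  rw [h]

theorem GB_dep' (T t : ℕ) (ω ω' : Om) (h : ∀ s ∈ Finset.Icc 1 T, ω s = ω' s) :
    GB T t ω = GB T t ω' := by
  unfold GB
  apply Finset.sum_congr rfl
  intro s hs
  rw [xs_eq_of (h s hs)]

theorem low_swp (a ε t1 Tm : ℝ) (T : ℕ) :
    (PA a).real {ω | ∀ t : ℕ, t1 ≤ t → (t : ℝ) ≤ Tm → -ε * bB a t ≤ -GB T t ω}
      = (PA a).real {ω | ∀ t : ℕ, t1 ≤ t → (t : ℝ) ≤ Tm → -ε * bB a t ≤ GB T t ω} := by
  have hm : MeasurableSet {ω : Om | ∀ t : ℕ, t1 ≤ t → (t : ℝ) ≤ Tm → -ε * bB a t ≤ GB T t ω} := by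
    apply measSet_of_dep (Finset.Icc 1 T)
    intro ω ω' h
    simp only [Set.mem_ofPred_eq, GB_dep' T _ ω ω' h]
  have h := swp_real (mu a) hm
  unfold PA
  rw [← h]
  congr 1
  ext ω
  simp only [Set.mem_ofPred_eq, Set.mem_preimage, GB_swp]

theorem NS_tail {K' : ℝ} (hK' : 0 ≤ K') : ∃ k : ℝ, 0 < k ∧ ∃ a0 : ℝ, 1 ≤ a0 ∧
    ∀ (a : ℝ) (T S : ℕ), a0 ≤ a → a ≤ T + 1 →
      (PA a).real {ω | 2 * (k * √(Real.log a) * √a) ≤ |NS T S ω|}
        ≤ 4 * Real.exp (-(K' * Real.log a)) := by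
  set k := √(32 * K') + 1 with hk
  have hk0 : 0 < k := by rw [hk]; positivity
  have hk2 : K' ≤ k ^ 2 / (32 * 1) := by
    have h1 : √(32 * K') ^ 2 = 32 * K' := Real.sq_sqrt (by positivity)
    have h2 : 0 ≤ √(32 * K') := Real.sqrt_nonneg _
    rw [hk, le_div_iff₀ (by norm_num)]
    nlinarith
  obtain ⟨a0, ha0, h⟩ := tail_one_log hk0 one_pos hk2
  refine ⟨k, hk0, a0, ha0, ?_⟩
  intro a T S ha hT
  have ha1 : 1 ≤ a := ha0.trans ha
  have hv : Real.exp (-((T : ℝ) / a)) ≤ 1 := by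
    apply Real.exp_le_one_iff.2
    have : 0 ≤ (T : ℝ) / a := by positivity
    linarith
  have h1 := h a T S ha hT hv
  have h2 := swp_ma_one a (Finset.Ioc T S) (k * √(Real.log a) * √a)
  set x := k * √(Real.log a) * √a with hx
  have hsub : {ω : Om | 2 * x ≤ |NS T S ω|}
      ⊆ {ω | x ≤ |∑ s ∈ Finset.Ioc T S, (ma s ω - mu a s)|}
        ∪ {ω | x ≤ |∑ s ∈ Finset.Ioc T S, (mb s ω - mu a s)|} := by
    intro ω hω
    by_cases h3 : x ≤ |∑ s ∈ Finset.Ioc T S, (ma s ω - mu a s)|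
    · exact Or.inl h3
    by_cases h4 : x ≤ |∑ s ∈ Finset.Ioc T S, (mb s ω - mu a s)|
    · exact Or.inr h4
    exfalso
    have hω' : 2 * x ≤ |NS T S ω| := hω
    have e : NS T S ω = ∑ s ∈ Finset.Ioc T S, (ma s ω - mu a s)
        - ∑ s ∈ Finset.Ioc T S, (mb s ω - mu a s) := by
      unfold NS xs
      rw [← Finset.sum_sub_distrib]
      apply Finset.sum_congr rfl
      intro s _
      ring
    rw [e] at hω'
    push Not at h3 h4
    have h5 := abs_sub (∑ s ∈ Finset.Ioc T S, (ma s ω - mu a s))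
      (∑ s ∈ Finset.Ioc T S, (mb s ω - mu a s))
    linarith
  have h3 := (measureReal_mono (μ := PA a) hsub (measure_ne_top _ _)).trans
    (measureReal_union_le _ _)
  rw [h2] at h3
  linarith

/-- `log (c a / log a) ≥ (1 - η) log a` eventually. -/
theorem log_quot {η c : ℝ} (hη : 0 < η) (hc : 0 < c) : ∃ a0 : ℝ, 3 ≤ a0 ∧ ∀ a, a0 ≤ a →
    (1 - η) * Real.log a ≤ Real.log (c * a / Real.log a) := by
  obtain ⟨b0, hb0, hb⟩ := exists_log_le (c := √(η / 2)) (by positivity)
  rw [Real.sq_sqrt (by positivity)] at hb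
  refine ⟨max 3 (Real.exp (max b0 (-(2 * Real.log c / η)))), le_max_left _ _, ?_⟩
  intro a ha
  have ha3 : 3 ≤ a := (le_max_left _ _).trans ha
  have hpos : 0 < a := by linarith
  have hexp : Real.exp (max b0 (-(2 * Real.log c / η))) ≤ a := (le_max_right _ _).trans ha
  have hlog : max b0 (-(2 * Real.log c / η)) ≤ Real.log a := by
    rw [Real.le_log_iff_exp_le hpos]; exact hexp
  have h1 := hb (Real.log a) ((le_max_left _ _).trans hlog)
  have h2 : -(2 * Real.log c / η) ≤ Real.log a := (le_max_right _ _).trans hlog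
  have hl0 : 0 < Real.log a := by
    have := (le_max_left b0 (-(2 * Real.log c / η))).trans hlog
    linarith
  rw [Real.log_div (by positivity) hl0.ne', Real.log_mul hc.ne' hpos.ne']
  have h3 : -Real.log c ≤ η / 2 * Real.log a := by
    have h4 : -(2 * Real.log c / η) * η = -(2 * Real.log c) := by field_simp
    have h5 := mul_le_mul_of_nonneg_right h2 hη.le
    rw [h4] at h5
    linarith
  linarith

private theorem g3_1 {N a n : ℝ} (h2 : N ≤ a + 1) (k5 : 24 ≤ a) (hn6 : a ^ 2 ≤ 6 * n) :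
    2 * N ≤ n := by
  nlinarith

private theorem g3_2 {K c l a : ℝ} (h : 2 * K * c ≤ l) (ha : 0 < a) : K * (c * a) ≤ a / 2 * l := by
  nlinarith

private theorem g3_3 {δ θ : ℝ} (hδ : 0 < δ) : δ * (θ - δ) ≤ δ * (θ + 1) := by
  nlinarith

private theorem g3_4 {δ θ η l t : ℝ} (h4 : (θ - δ) * ((1 - η) * l) ≤ (θ - δ) * t)
    (h6 : η * (θ - δ) * l ≤ δ * l) : -((θ - δ) * t) ≤ -((θ - 2 * δ) * l) := by
  nlinarith

private theorem g3_5 {b l a n : ℝ} (k6 : 12 * b ≤ a) (hl : l ≤ a / 16) (hn6 : a ^ 2 ≤ 6 * n)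
    (ha : 0 < a) : (b + l) * a ≤ n := by
  have h1 : b + l ≤ a / 6 := by linarith
  have h2 := mul_le_mul_of_nonneg_right h1 ha.le
  have h3 : a / 6 * a = a ^ 2 / 6 := by ring
  linarith

private theorem g3_6 {K T : ℝ} (hK : 1 ≤ K) (hT : 0 < T) : T ≤ K * T := by
  nlinarith

private theorem g3_7 {N a : ℝ} (h2 : N ≤ a + 1) (ha : 1 ≤ a) : 1 * N ≤ 2 * a ^ 2 := by
  nlinarith

private theorem g3_8 {δ θ l : ℝ} (h : 0 ≤ 3 * δ * l) : -(2 * θ * l) ≤ -((2 * θ - 3 * δ) * l) := by
  nlinarith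

/-- Upper bound for the relaxed comparability event. -/
theorem Qev_upper {δ : ℝ} (hδ : 0 < δ) (hθ : δ ≤ theta) (K : ℕ) : ∃ C a0 : ℝ, 0 < C ∧ 1 ≤ a0 ∧
    ∀ (a : ℝ) (N n : ℕ), a0 ≤ a → a ≤ N → (N : ℝ) ≤ a + 1 → a ^ 2 ≤ 6 * n →
      (PA a).real (Qev n (n + K * N) (K * N))
        ≤ C / N * Real.exp (-((2 * theta - 3 * δ) * Real.log a)) := by
  have hth := theta_nonneg
  obtain ⟨ε, hε, hlo⟩ := lo_upper hδ
  set t1 : ℝ := max 1 (4 * (K : ℝ) ^ 2 / ε ^ 2) with ht1
  obtain ⟨Cl, Kl, hCl, hKl, hlo⟩ := hlo t1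
  obtain ⟨Ch, a0h, b1, hCh, ha0h, hb1, hhi⟩ := hi_upper hδ 3
  obtain ⟨k, hk, a0t, ha0t, htail⟩ := NS_tail (K' := 2 + 2 * theta) (by linarith)
  obtain ⟨CJ, hCJ, hJ⟩ := F_joint K (2 * K)
  set c1 : ℝ := (ε / (2 * k)) ^ 2 with hc1
  have hc1p : 0 < c1 := by rw [hc1]; positivity
  set η : ℝ := δ / (theta + 1) with hη
  have hηp : 0 < η := by rw [hη]; positivity
  have hη1 : η < 1 := by rw [hη, div_lt_one (by linarith)]; linarith
  obtain ⟨a0q, ha0q, hquot⟩ := log_quot hηp hc1p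
  obtain ⟨a0l, ha0l, hlogle⟩ := exists_log_le (c := 1 / 4) (by norm_num)
  refine ⟨Cl * Ch * CJ + 8, max (max (max a0h a0t) (max a0q a0l))
    (max (max 24 (12 * b1)) (Real.exp (2 * Kl * c1))), by positivity,
    ha0h.trans ((le_max_left _ _).trans ((le_max_left _ _).trans (le_max_left _ _))), ?_⟩
  intro a N n haa h1 h2 hn6
  have k1 : a0h ≤ a := ((le_max_left _ _).trans ((le_max_left _ _).trans (le_max_left _ _))).trans haa
  have k2 : a0t ≤ a := ((le_max_right _ _).trans ((le_max_left _ _).trans (le_max_left _ _))).trans haa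
  have k3 : a0q ≤ a := ((le_max_left _ _).trans ((le_max_right _ _).trans (le_max_left _ _))).trans haa
  have k4 : a0l ≤ a := ((le_max_right _ _).trans ((le_max_right _ _).trans (le_max_left _ _))).trans haa
  have k5 : (24 : ℝ) ≤ a := ((le_max_left _ _).trans ((le_max_left _ _).trans (le_max_right _ _))).trans haa
  have k6 : 12 * b1 ≤ a := ((le_max_right _ _).trans ((le_max_left _ _).trans (le_max_right _ _))).trans haa
  have k7 : Real.exp (2 * Kl * c1) ≤ a := ((le_max_right _ _).trans (le_max_right _ _)).trans haa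
  have ha : 1 ≤ a := by linarith
  have hpos : 0 < a := by linarith
  have hsa : 0 < √a := Real.sqrt_pos.2 hpos
  have hsa2 : √a * √a = a := Real.mul_self_sqrt hpos.le
  have hN : (0 : ℝ) < N := by linarith
  have hlogK : 2 * Kl * c1 ≤ Real.log a := by rw [Real.le_log_iff_exp_le hpos]; exact k7
  have hlogpos : 0 < Real.log a := Real.log_pos (by linarith)
  have hlogle' : Real.log a ≤ a / 16 := by
    have := hlogle a k4
    norm_num at this
    linarith
  set L := √(Real.log a) with hL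
  have hL0 : 0 < L := Real.sqrt_pos.2 hlogpos
  have hL2 : L * L = Real.log a := Real.mul_self_sqrt hlogpos.le
  have hn : 2 * N ≤ n := by
    have : (2 : ℝ) * N ≤ n := g3_1 h2 k5 hn6
    exact_mod_cast this
  set T := ⌊a⌋₊ with hT
  have hTa : (T : ℝ) ≤ a := Nat.floor_le hpos.le
  have hTa2 : a < T + 1 := Nat.lt_floor_add_one a
  have hTN : T ≤ N := by
    have : (T : ℝ) ≤ N := hTa.trans h1
    exact_mod_cast this
  have hTn : T ≤ n := by omega
  set M3' := ⌊a * 3⌋₊ with hM3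
  have hM3a : a * 3 < M3' + 1 := Nat.lt_floor_add_one _
  have hM3N : 2 * N ≤ M3' := by
    have : ((2 * N : ℕ) : ℝ) < M3' + 1 := by push_cast; linarith
    have h3 : ((2 * N : ℕ) : ℝ) < ((M3' + 1 : ℕ) : ℝ) := by push_cast; push_cast at this; exact this
    have := Nat.cast_lt.1 h3
    omega
  set Tm := c1 * a / Real.log a with hTm
  have hTm0 : 0 < Tm := by rw [hTm]; positivity
  have hlogTm := hquot a k3
  rw [← hTm] at hlogTm
  have hTm1 : 1 ≤ Tm := by
    have h3 : 0 ≤ Real.log Tm := by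
      refine le_trans ?_ hlogTm
      have : 0 ≤ 1 - η := by linarith
      positivity
    by_contra hcon
    push Not at hcon
    have := Real.log_neg hTm0 hcon
    linarith
  have hKT : Kl * Tm ≤ T := by
    have h3 : Kl * Tm ≤ a / 2 := by
      rw [hTm, ← mul_div_assoc, div_le_iff₀ hlogpos]
      exact g3_2 hlogK hpos
    linarith
  -- the events
  let G : Set Om := {ω | ∀ t : ℕ, t1 ≤ t → (t : ℝ) ≤ Tm → -ε * bB a t ≤ -GB T t ω}
  let H : Set Om := {ω | ∀ t, M3' ≤ t → 0 ≤ DA n t ω}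
  let Bad : Set Om := {ω | 2 * (k * L * √a) ≤ |NS T n ω|}
  have pG : (PA a).real G ≤ Cl * Real.exp (-((theta - 2 * δ) * Real.log a)) := by
    have h3 := hlo a Tm T hTm1 hKT hTa
    rw [← low_swp] at h3
    refine h3.trans ?_
    apply mul_le_mul_of_nonneg_left _ hCl.le
    apply Real.exp_le_exp.2
    have h4 := mul_le_mul_of_nonneg_left hlogTm (by linarith : 0 ≤ theta - δ)
    have h5 : η * (theta - δ) ≤ δ := by
      rw [hη, div_mul_eq_mul_div, div_le_iff₀ (by linarith)]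
      exact g3_3 hδ
    have h6 := mul_le_mul_of_nonneg_right h5 hlogpos.le
    exact g3_4 h4 h6
  have pH : (PA a).real H ≤ Ch * Real.exp (-((theta - δ) * Real.log a)) := by
    apply hhi a n k1
    rw [le_div_iff₀ hpos]
    exact g3_5 k6 hlogle' hn6 hpos
  have pBad : (PA a).real Bad ≤ 4 * Real.exp (-((2 + 2 * theta) * Real.log a)) :=
    htail a T n k2 hTa2.le
  have dG : ∀ ω ω' : Om, (∀ s ∈ Finset.Icc 1 T, ω s = ω' s) → (ω ∈ G ↔ ω' ∈ G) := by
    intro ω ω' hh
    simp only [G, Set.mem_ofPred_eq, GB_dep' T _ ω ω' hh]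
  have dH : ∀ ω ω' : Om, (∀ s ∈ Finset.Ioc M3' n, ω s = ω' s) → (ω ∈ H ↔ ω' ∈ H) := by
    intro ω ω' hh
    have key : ∀ t, M3' ≤ t → DA n t ω = DA n t ω' := by
      intro t ht
      apply DA_dep
      intro s hs
      apply hh
      rw [Finset.mem_Ioc] at hs ⊢
      omega
    constructor
    · intro h3 t ht
      rw [← key t ht]; exact h3 t ht
    · intro h3 t ht
      rw [key t ht]; exact h3 t ht
  have pGH : (PA a).real (G ∩ H) = (PA a).real G * (PA a).real H := by
    apply indep_sets (mu a) (mu a) (Finset.Icc 1 T) (Finset.Ioc M3' n) _ dG dH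
    rw [Finset.disjoint_left]
    intro s hs hs'
    rw [Finset.mem_Icc] at hs
    rw [Finset.mem_Ioc] at hs'
    omega
  have dE : ∀ ω ω' : Om, (∀ s ∈ Finset.Icc 1 n \ Finset.Ioc N (2 * N), ω s = ω' s) →
      (ω ∈ G ∩ H ↔ ω' ∈ G ∩ H) := by
    intro ω ω' hh
    have h3 := dG ω ω' (fun s hs => by
      apply hh
      rw [Finset.mem_Icc] at hs
      rw [Finset.mem_sdiff, Finset.mem_Icc, Finset.mem_Ioc]
      omega)
    have h4 := dH ω ω' (fun s hs => by
      apply hh
      rw [Finset.mem_Ioc] at hs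
      rw [Finset.mem_sdiff, Finset.mem_Icc, Finset.mem_Ioc]
      omega)
    rw [Set.mem_inter_iff, Set.mem_inter_iff, h3, h4]
  have hJ' := hJ a N n (n + K * N) n ha h1 h2 hn (G ∩ H) dE
  -- the inclusion
  have hsub : Qev n (n + K * N) (K * N) ⊆ Bad ∪ ((G ∩ H) ∩ {ω | n + K * N ≤ wa (Finset.Icc 1 n) ω
      ∧ wa (Finset.Icc 1 n) ω ≤ n + K * N + K * N
      ∧ n ≤ wb (Finset.Icc 1 n) ω ∧ wb (Finset.Icc 1 n) ω ≤ n + 2 * K * N}) := by
    rintro ω ⟨q1, q2, q3, q4, q5⟩
    by_cases hb : ω ∈ Bad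
    · exact Or.inl hb
    right
    have hb' : |NS T n ω| < 2 * (k * L * √a) := by
      by_contra hcon
      push Not at hcon
      exact hb hcon
    have hD0 : DA n 0 ω ≤ K * N := by
      rw [DA_eq_At, At_cf1, At_cf2]
      have : ((wa (Finset.Icc 1 n) ω : ℕ) : ℝ) ≤ ((wb (Finset.Icc 1 n) ω : ℕ) : ℝ) + K * N := by
        exact_mod_cast q4
      linarith
    refine ⟨⟨?_, ?_⟩, q1, q2, by omega, ?_⟩
    · intro t ht htm
      have ht1' : (1 : ℝ) ≤ t := (le_max_left _ _).trans ht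
      have ht2' : 4 * (K : ℝ) ^ 2 / ε ^ 2 ≤ t := (le_max_right _ _).trans ht
      have htnat : 1 ≤ t := by exact_mod_cast ht1'
      have hst : 0 < √(t : ℝ) := Real.sqrt_pos.2 (by linarith)
      have hstt : √(t : ℝ) * √(t : ℝ) = t := Real.mul_self_sqrt (by linarith)
      have htT : t ≤ T := by
        have h3 : (t : ℝ) ≤ T := by
          have : Tm ≤ Kl * Tm := g3_6 hKl hTm0
          linarith
        exact_mod_cast h3
      have h3 := DA_low htT hTn ω
      have h4 := q5 t htnat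
      have hNS := (abs_lt.1 hb').1
      have hst1 : √(t : ℝ) ≤ ε / (2 * k) * √a / L := by
        rw [Real.sqrt_le_left (by positivity)]
        refine htm.trans (le_of_eq ?_)
        have e : (ε / (2 * k) * √a / L) ^ 2 = (ε / (2 * k)) ^ 2 * (√a * √a) / (L * L) := by ring
        rw [e, hsa2, hL2, hTm, hc1]
      have h5 : (t : ℝ) * (2 * (k * L * √a)) ≤ ε * (a * √t) := by
        have e1 : √(t : ℝ) * (2 * (k * L * √a)) * √(t : ℝ)
            = (√(t : ℝ) * √(t : ℝ)) * (2 * (k * L * √a)) := by ring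
        calc (t : ℝ) * (2 * (k * L * √a)) = √t * (2 * (k * L * √a)) * √t := by
              rw [e1, hstt]
          _ ≤ √t * (2 * (k * L * √a)) * (ε / (2 * k) * √a / L) :=
              mul_le_mul_of_nonneg_left hst1 (by positivity)
          _ = ε * ((√a * √a) * √t) := by field_simp
          _ = _ := by rw [hsa2]
      have h6 : (K : ℝ) * N ≤ ε * (a * √t) := by
        have h7 : 2 * (K : ℝ) / ε ≤ √t := by
          apply Real.le_sqrt_of_sq_le
          refine le_trans (le_of_eq ?_) ht2'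
          rw [div_pow]; ring
        rw [div_le_iff₀ hε] at h7
        have hK0 : (0 : ℝ) ≤ K := Nat.cast_nonneg _
        calc (K : ℝ) * N ≤ K * (2 * a) := mul_le_mul_of_nonneg_left (by linarith) hK0
          _ = 2 * K * a := by ring
          _ ≤ √t * ε * a := mul_le_mul_of_nonneg_right h7 hpos.le
          _ = _ := by ring
      have h7 : -((t : ℝ) * (2 * (k * L * √a))) ≤ t * NS T n ω := by
        have := mul_le_mul_of_nonneg_left hNS.le (by linarith : (0 : ℝ) ≤ t)
        linarith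
      have h8 : bB a t = 2 * (a * √t) := by unfold bB; ring
      rw [h8]
      linarith
    · intro t ht
      apply q5
      have : 1 ≤ N := by exact_mod_cast (by linarith : (1 : ℝ) ≤ N)
      omega
    · have : 2 * K * N = K * N + K * N := by ring
      omega
  have h3 := (measureReal_mono (μ := PA a) hsub (measure_ne_top _ _)).trans
    (measureReal_union_le _ _)
  have h4 : (PA a).real G * (PA a).real H
      ≤ (Cl * Real.exp (-((theta - 2 * δ) * Real.log a)))
        * (Ch * Real.exp (-((theta - δ) * Real.log a))) :=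
    mul_le_mul pG pH measureReal_nonneg (by positivity)
  have h5 : (Cl * Real.exp (-((theta - 2 * δ) * Real.log a)))
        * (Ch * Real.exp (-((theta - δ) * Real.log a)))
      = Cl * Ch * Real.exp (-((2 * theta - 3 * δ) * Real.log a)) := by
    have : Real.exp (-((2 * theta - 3 * δ) * Real.log a))
        = Real.exp (-((theta - 2 * δ) * Real.log a)) * Real.exp (-((theta - δ) * Real.log a)) := by
      rw [← Real.exp_add]; congr 1; ring
    rw [this]; ring
  rw [h5] at h4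
  rw [pGH] at hJ'
  have h6 := mul_le_mul_of_nonneg_right h4 (by positivity : 0 ≤ CJ / (N : ℝ))
  have h7 : 4 * Real.exp (-((2 + 2 * theta) * Real.log a))
      ≤ 8 / N * Real.exp (-((2 * theta - 3 * δ) * Real.log a)) := by
    have e1 : Real.exp (-((2 + 2 * theta) * Real.log a))
        = Real.exp (-(2 * Real.log a)) * Real.exp (-(2 * theta * Real.log a)) := by
      rw [← Real.exp_add]; congr 1; ring
    have e2 : Real.exp (-(2 * Real.log a)) ≤ 2 / N := by
      have : Real.exp (-(2 * Real.log a)) = (a ^ 2)⁻¹ := by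
        rw [Real.exp_neg, two_mul, Real.exp_add, Real.exp_log hpos, sq]
      rw [this, inv_eq_one_div, div_le_div_iff₀ (by positivity) hN]
      exact g3_7 h2 ha
    have e3 : Real.exp (-(2 * theta * Real.log a))
        ≤ Real.exp (-((2 * theta - 3 * δ) * Real.log a)) := by
      apply Real.exp_le_exp.2
      have : 0 ≤ 3 * δ * Real.log a := by positivity
      exact g3_8 this
    rw [e1]
    calc 4 * (Real.exp (-(2 * Real.log a)) * Real.exp (-(2 * theta * Real.log a)))
        ≤ 4 * (2 / N * Real.exp (-((2 * theta - 3 * δ) * Real.log a))) :=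
          mul_le_mul_of_nonneg_left (mul_le_mul e2 e3 (Real.exp_pos _).le (by positivity))
            (by norm_num)
      _ = _ := by ring
  have h8 : (Cl * Ch * CJ + 8) / N * Real.exp (-((2 * theta - 3 * δ) * Real.log a))
      = Cl * Ch * Real.exp (-((2 * theta - 3 * δ) * Real.log a)) * (CJ / N)
        + 8 / N * Real.exp (-((2 * theta - 3 * δ) * Real.log a)) := by ring
  rw [h8]
  have hJ'' : (PA a).real ((G ∩ H) ∩ {ω | n + K * N ≤ wa (Finset.Icc 1 n) ω
      ∧ wa (Finset.Icc 1 n) ω ≤ n + K * N + K * N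
      ∧ n ≤ wb (Finset.Icc 1 n) ω ∧ wb (Finset.Icc 1 n) ω ≤ n + 2 * K * N})
      ≤ (PA a).real G * (PA a).real H * (CJ / N) := hJ'
  linarith

/-- The upper bound. -/
theorem upper_final {δ : ℝ} (hδ : 0 < δ) : ∃ (C : ℝ) (n0 : ℕ), 0 < C ∧ ∀ n : ℕ, n0 ≤ n →
    r n ≤ C * Real.exp (-((theta - δ) * Real.log n)) := by
  rcases le_or_gt theta δ with hθ | hθ
  · refine ⟨1, 1, one_pos, fun n hn => ?_⟩
    have h1 := r_le_one n
    have h2 : 1 ≤ Real.exp (-((theta - δ) * Real.log n)) := by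
      apply Real.one_le_exp
      have h3 : 0 ≤ Real.log (n : ℝ) := Real.log_natCast_nonneg n
      nlinarith
    linarith
  have hth := theta_nonneg
  obtain ⟨K, c, a0, hK, hc, ha0, hW⟩ := W_lower
  obtain ⟨C, a1, hC, ha1, hQ⟩ := Qev_upper (half_pos hδ) (by linarith) K
  set A := max (max a0 a1) (max 24 (12 * (K : ℝ))) with hA
  have hA24 : (24 : ℝ) ≤ A := (le_max_left _ _).trans (le_max_right _ _)
  refine ⟨2 * Real.exp (12 * K) * C / c ^ 2 * Real.exp (theta * Real.log 3), ⌈3 * A ^ 2⌉₊ + 6,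
    by positivity, ?_⟩
  intro n hn
  have hn6 : 6 ≤ n := by omega
  have hnA : 3 * A ^ 2 ≤ n := by
    have h1 := Nat.le_ceil (3 * A ^ 2)
    have h2 : ((⌈3 * A ^ 2⌉₊ : ℕ) : ℝ) ≤ n := by exact_mod_cast (by omega : ⌈3 * A ^ 2⌉₊ ≤ n)
    linarith
  obtain ⟨a, ha, hna, han, hEX⟩ := exists_a hn6
  have hpos : 0 < a := by linarith
  have haA : A ≤ a := by
    have h1 : A ^ 2 ≤ a ^ 2 := by linarith
    exact (sq_le_sq₀ (by linarith) hpos.le).1 h1
  have k0 : a0 ≤ a := ((le_max_left _ _).trans (le_max_left _ _)).trans haA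
  have k1 : a1 ≤ a := ((le_max_right _ _).trans (le_max_left _ _)).trans haA
  have k2 : (24 : ℝ) ≤ a := hA24.trans haA
  have k3 : 12 * (K : ℝ) ≤ a := ((le_max_right _ _).trans (le_max_right _ _)).trans haA
  set N := ⌈a⌉₊ with hN'
  have h1 : a ≤ N := Nat.le_ceil a
  have h2 : (N : ℝ) ≤ a + 1 := (Nat.ceil_lt_add_one hpos.le).le
  have hN : (0 : ℝ) < N := by linarith
  have hsN : 0 < √(N : ℝ) := Real.sqrt_pos.2 hN
  have hKN : K * N ≤ n := by
    have hK0 : (0 : ℝ) ≤ K := Nat.cast_nonneg _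
    have h3 : (K : ℝ) * N ≤ K * (2 * a) := mul_le_mul_of_nonneg_left (by linarith) hK0
    have : (K : ℝ) * N ≤ n := by nlinarith
    exact_mod_cast this
  have hWl := hW a N n k0 h1 h2 hEX hna han
  have hQu := hQ a N n k1 h1 h2 han
  have hru := r_upper hpos (S := n) (n := n) (W := K * N) (by omega) le_rfl hKN
  have hr0 := r_nonneg n
  have e1 : (c / √N) ^ 2 = c ^ 2 / N := by rw [div_pow, Real.sq_sqrt hN.le]
  have h3 : c ^ 2 / N ≤ (PA a).real {ω | n - K * N ≤ wa (Finset.Icc 1 n) ω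
      ∧ wa (Finset.Icc 1 n) ω ≤ n - K * N + K * N} ^ 2 := by
    rw [← e1]
    exact pow_le_pow_left₀ (by positivity) hWl 2
  have h4 : Real.exp (6 * ((K * N : ℕ) : ℝ) / a) ≤ Real.exp (12 * K) := by
    apply Real.exp_le_exp.2
    rw [div_le_iff₀ hpos]
    push_cast
    have hK0 : (0 : ℝ) ≤ K := Nat.cast_nonneg _
    nlinarith
  have h5 : r n * (c ^ 2 / N) ≤ 2 * Real.exp (12 * K)
      * (C / N * Real.exp (-((2 * theta - 3 * (δ / 2)) * Real.log a))) := by
    calc r n * (c ^ 2 / N) ≤ r n * (PA a).real {ω | n - K * N ≤ wa (Finset.Icc 1 n) ω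
          ∧ wa (Finset.Icc 1 n) ω ≤ n - K * N + K * N} ^ 2 := mul_le_mul_of_nonneg_left h3 hr0
      _ ≤ 2 * Real.exp (6 * ((K * N : ℕ) : ℝ) / a) * (PA a).real (Qev n (n + K * N) (K * N)) := hru
      _ ≤ _ := mul_le_mul (mul_le_mul_of_nonneg_left h4 (by norm_num)) hQu measureReal_nonneg
          (by positivity)
  have h6 : r n ≤ 2 * Real.exp (12 * K) * C / c ^ 2
      * Real.exp (-((2 * theta - 3 * (δ / 2)) * Real.log a)) := by
    have h7 := mul_le_mul_of_nonneg_right h5 (by positivity : 0 ≤ (N : ℝ) / c ^ 2)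
    have e2 : r n * (c ^ 2 / N) * (N / c ^ 2) = r n := by field_simp
    have e3 : 2 * Real.exp (12 * K)
      * (C / N * Real.exp (-((2 * theta - 3 * (δ / 2)) * Real.log a))) * (N / c ^ 2)
      = 2 * Real.exp (12 * K) * C / c ^ 2
      * Real.exp (-((2 * theta - 3 * (δ / 2)) * Real.log a)) := by field_simp
    rw [e2, e3] at h7
    exact h7
  refine h6.trans ?_
  rw [mul_assoc (2 * Real.exp (12 * K) * C / c ^ 2)]
  apply mul_le_mul_of_nonneg_left _ (by positivity)
  rw [← Real.exp_add]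
  apply Real.exp_le_exp.2
  have hn0 : (0 : ℝ) < n := by exact_mod_cast (by omega : 0 < n)
  have hlogn : 0 ≤ Real.log (n : ℝ) := Real.log_natCast_nonneg n
  have hlog3 : 0 ≤ Real.log 3 := Real.log_nonneg (by norm_num)
  have h8 : Real.log n ≤ Real.log 3 + 2 * Real.log a := by
    have h9 : Real.log (n : ℝ) ≤ Real.log (3 * a ^ 2) := Real.log_le_log hn0 hna
    rw [Real.log_mul (by norm_num) (by positivity), Real.log_pow] at h9
    push_cast at h9
    exact h9
  have h9 := mul_le_mul_of_nonneg_left h8 (by linarith : 0 ≤ theta - 3 / 4 * δ)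
  nlinarith

end Pool.Agent.Helper95.Dom
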