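import Mathlib
import Pool.Agent.Helper76.BQ

set_option autoImplicit false

namespace Pool.Agent.Helper76

open Nat Dioph Finset

theorem ex' {α : Type} {P : (α → ℕ) → ℕ → Prop}
    (h : Dioph {v : Option α → ℕ | P (v ∘ some) (v none)}) : Dioph {v : α → ℕ | ∃ x, P v x} :=
  Dioph.ext (ex1_dioph h) fun v => by
    constructor
    · rintro ⟨x, hx⟩; exact ⟨x, hx⟩
    · rintro ⟨x, hx⟩; exact ⟨x, hx⟩

theorem bq' {α : Type} {P : (α → ℕ) → ℕ → Prop} {g : (α → ℕ) → ℕ} (dg : DiophFn g)
    (h : Dioph {v : Option α → ℕ | P (v ∘ some) (v none)}) :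
    Dioph {v : α → ℕ | ∀ k < g v, P v k} :=
  Dioph.ext (diophFn_comp1 (bq h) dg) fun v => by
    constructor
    · intro H k hk; exact H k hk
    · intro H k hk; exact H k hk

theorem diophFn_some {α : Type} {f : (α → ℕ) → ℕ} (df : DiophFn f) :
    DiophFn (fun v : Option α → ℕ => f (v ∘ some)) := reindex_diophFn some df

theorem proj_none {α : Type} : DiophFn (fun v : Option α → ℕ => v none) := proj_dioph none

theorem and_dioph {α : Type} {P Q : (α → ℕ) → Prop} (hP : Dioph {v | P v}) (hQ : Dioph {v | Q v}) :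
    Dioph {v | P v ∧ Q v} := hP.inter hQ

theorem or_dioph {α : Type} {P Q : (α → ℕ) → Prop} (hP : Dioph {v | P v}) (hQ : Dioph {v | Q v}) :
    Dioph {v | P v ∨ Q v} := hP.union hQ

theorem pair_dioph {α : Type} {f g : (α → ℕ) → ℕ} (df : DiophFn f) (dg : DiophFn g) :
    DiophFn fun v => Nat.pair (f v) (g v) := by
  have df' := diophFn_some df
  have dg' := diophFn_some dg
  have dn : DiophFn (fun v : Option α → ℕ => v none) := proj_none
  have := or_dioph (and_dioph (lt_dioph df' dg') (eq_dioph (add_dioph (mul_dioph dg' dg') df') dn))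
    (and_dioph (le_dioph dg' df')
      (eq_dioph (add_dioph (add_dioph (mul_dioph df' df') df') dg') dn))
  refine Dioph.ext this fun v => ?_
  rw [Set.mem_ofPred_eq, Set.mem_ofPred_eq]
  unfold Nat.pair
  by_cases h : f (v ∘ some) < g (v ∘ some)
  · simp [h]
  · simp [h, not_lt.1 h]

/-- `f` preserves Diophantine functions under composition -/
def D1 (f : ℕ → ℕ) : Prop :=
  ∀ (α : Type) (g : (α → ℕ) → ℕ), DiophFn g → DiophFn fun v => f (g v)

theorem D1_left : D1 fun n => n.unpair.1 := by
  intro α g dg
  have : Dioph {v : Option α → ℕ | ∃ w, Nat.pair (v none) w = g (v ∘ some)} :=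
    ex' (P := fun v w => Nat.pair (v none) w = g (v ∘ some))
      (eq_dioph (pair_dioph (diophFn_some proj_none) proj_none)
        (diophFn_some (diophFn_some dg)))
  refine Dioph.ext this fun v => ?_
  rw [Set.mem_ofPred_eq, Set.mem_ofPred_eq]
  constructor
  · rintro ⟨w, hw⟩
    change (g (v ∘ some)).unpair.1 = v none
    rw [← hw, Nat.unpair_pair]
  · intro h
    change (g (v ∘ some)).unpair.1 = v none at h
    exact ⟨(g (v ∘ some)).unpair.2, by rw [← h, Nat.pair_unpair]⟩

theorem D1_right : D1 fun n => n.unpair.2 := by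
  intro α g dg
  have : Dioph {v : Option α → ℕ | ∃ w, Nat.pair w (v none) = g (v ∘ some)} :=
    ex' (P := fun v w => Nat.pair w (v none) = g (v ∘ some))
      (eq_dioph (pair_dioph proj_none (diophFn_some proj_none))
        (diophFn_some (diophFn_some dg)))
  refine Dioph.ext this fun v => ?_
  rw [Set.mem_ofPred_eq, Set.mem_ofPred_eq]
  constructor
  · rintro ⟨w, hw⟩
    change (g (v ∘ some)).unpair.2 = v none
    rw [← hw, Nat.unpair_pair]
  · intro h
    change (g (v ∘ some)).unpair.2 = v none at h
    exact ⟨(g (v ∘ some)).unpair.1, by rw [← h, Nat.pair_unpair]⟩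

/-- Goedel's beta function in two-parameter form -/
def beta2 (a b i : ℕ) : ℕ := a % ((i + 1) * b + 1)

theorem beta2_dioph {α : Type} {a b i : (α → ℕ) → ℕ} (da : DiophFn a) (db : DiophFn b)
    (di : DiophFn i) : DiophFn fun v => beta2 (a v) (b v) (i v) :=
  mod_dioph da (add_dioph (mul_dioph (add_dioph di (const_dioph 1)) db) (const_dioph 1))

theorem exists_beta2 (n : ℕ) (s : ℕ → ℕ) : ∃ a b, ∀ i < n, beta2 a b i = s i := by
  let l : List ℕ := List.ofFn (fun i : Fin n => s i)
  have hl : l.length = n := by simp [l]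
  refine ⟨(Nat.unbeta l).unpair.1, (Nat.unbeta l).unpair.2, fun i hi => ?_⟩
  have := Nat.beta_unbeta_coe l ⟨i, by rw [hl]; exact hi⟩
  simp only [Nat.beta] at this
  unfold beta2
  rw [this]
  simp [l]

theorem rec_iff (f G : ℕ → ℕ) (x y z : ℕ) :
    (Nat.rec (f x) (fun k IH => G (Nat.pair x (Nat.pair k IH))) y : ℕ) = z ↔
    ∃ a b, beta2 a b 0 = f x ∧
      (∀ k < y, beta2 a b (k + 1) = G (Nat.pair x (Nat.pair k (beta2 a b k)))) ∧
      beta2 a b y = z := by
  constructor
  · intro h
    obtain ⟨a, b, hab⟩ := exists_beta2 (y + 1)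
      (fun i => (Nat.rec (f x) (fun k IH => G (Nat.pair x (Nat.pair k IH))) i : ℕ))
    refine ⟨a, b, hab 0 (by omega), fun k hk => ?_, ?_⟩
    · rw [hab (k + 1) (by omega), hab k (by omega)]
    · rw [hab y (by omega), h]
  · rintro ⟨a, b, h0, hs, hz⟩
    rw [← hz]
    clear hz
    induction y with
    | zero => exact h0.symm
    | succ y ih =>
      rw [hs y (by omega)]
      rw [← ih (fun k hk => hs k (by omega))]

theorem D1_of_primrec {f : ℕ → ℕ} (hf : Nat.Primrec f) : D1 f := by
  induction hf with
  | zero => intro α g _; exact const_dioph 0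
  | succ => intro α g dg; exact add_dioph dg (const_dioph 1)
  | left => exact D1_left
  | right => exact D1_right
  | pair _ _ hf hg => intro α g dg; exact pair_dioph (hf α g dg) (hg α g dg)
  | comp _ _ hf hg => intro α g dg; exact hf α _ (hg α g dg)
  | @prec f G _ _ hf hG =>
    intro α g dg
    have dx : DiophFn (fun v : Option α → ℕ => (g (v ∘ some)).unpair.1) :=
      D1_left _ _ (diophFn_some dg)
    have dy : DiophFn (fun v : Option α → ℕ => (g (v ∘ some)).unpair.2) :=
      D1_right _ _ (diophFn_some dg)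
    have key : Dioph {v : Option α → ℕ | ∃ a, ∃ b,
        beta2 a b 0 = f ((g (v ∘ some)).unpair.1) ∧
        (∀ k < (g (v ∘ some)).unpair.2, beta2 a b (k + 1) =
          G (Nat.pair ((g (v ∘ some)).unpair.1) (Nat.pair k (beta2 a b k)))) ∧
        beta2 a b ((g (v ∘ some)).unpair.2) = v none} := by
      apply ex' (P := fun v a => ∃ b,
        beta2 a b 0 = f ((g (v ∘ some)).unpair.1) ∧
        (∀ k < (g (v ∘ some)).unpair.2, beta2 a b (k + 1) =
          G (Nat.pair ((g (v ∘ some)).unpair.1) (Nat.pair k (beta2 a b k)))) ∧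
        beta2 a b ((g (v ∘ some)).unpair.2) = v none)
      apply ex' (P := fun v b =>
        beta2 (v none) b 0 = f ((g ((v ∘ some) ∘ some)).unpair.1) ∧
        (∀ k < (g ((v ∘ some) ∘ some)).unpair.2, beta2 (v none) b (k + 1) =
          G (Nat.pair ((g ((v ∘ some) ∘ some)).unpair.1) (Nat.pair k (beta2 (v none) b k)))) ∧
        beta2 (v none) b ((g ((v ∘ some) ∘ some)).unpair.2) = (v ∘ some) none)
      -- now over `Option (Option (Option α))`
      have dx2 := diophFn_some (diophFn_some dx)
      have dy2 := diophFn_some (diophFn_some dy)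
      have da := diophFn_some (proj_none (α := Option α))
      have db := proj_none (α := Option (Option α))
      have dz := diophFn_some (diophFn_some (proj_none (α := α)))
      refine and_dioph (eq_dioph (beta2_dioph da db (const_dioph 0)) (hf _ _ dx2)) ?_
      refine and_dioph ?_ (eq_dioph (beta2_dioph da db dy2) dz)
      refine bq' (P := fun v k => beta2 ((v ∘ some) none) (v none) (k + 1) =
          G (Nat.pair ((g (((v ∘ some) ∘ some) ∘ some)).unpair.1)
            (Nat.pair k (beta2 ((v ∘ some) none) (v none) k)))) dy2 ?_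
      have dx3 := diophFn_some dx2
      have da3 := diophFn_some da
      have db3 := diophFn_some db
      have dk := proj_none (α := Option (Option (Option α)))
      exact eq_dioph (beta2_dioph da3 db3 (add_dioph dk (const_dioph 1)))
        (hG _ _ (pair_dioph dx3 (pair_dioph dk (beta2_dioph da3 db3 dk))))
    refine Dioph.ext key fun v => ?_
    rw [Set.mem_ofPred_eq, Set.mem_ofPred_eq]
    exact (rec_iff f G _ _ _).symm

/-- A non-computable Diophantine set (**MRDP theorem** in the form needed). -/
theorem exists_dioph_not_computable :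
    ∃ K : ℕ → Prop, ¬ ComputablePred K ∧ Dioph {v : Unit → ℕ | K (v ())} := by
  open Nat.Partrec in
  let F : ℕ → ℕ := fun n =>
    cond (Code.evaln n.unpair.2 (Denumerable.ofNat Code n.unpair.1) 0).isSome 0 1
  have hF : Nat.Primrec F := by
    rw [← Primrec.nat_iff]
    refine Primrec.cond (Primrec.option_isSome.comp (Nat.Partrec.Code.primrec_evaln.comp
      (Primrec.pair (Primrec.pair (Primrec.snd.comp Primrec.unpair)
        ((Primrec.ofNat Nat.Partrec.Code).comp (Primrec.fst.comp Primrec.unpair)))
        (Primrec.const 0)))) (Primrec.const 0) (Primrec.const 1)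
  refine ⟨fun n => ∃ k, F (Nat.pair n k) = 0, ?_, ?_⟩
  · intro hK
    apply ComputablePred.halting_problem 0
    have he : (fun c : Nat.Partrec.Code => (Nat.Partrec.Code.eval c 0).Dom) =
        fun c => ∃ k, F (Nat.pair (Encodable.encode c) k) = 0 := by
      funext c
      apply propext
      rw [Part.dom_iff_mem]
      simp only [F, Nat.unpair_pair, Denumerable.ofNat_encode]
      constructor
      · rintro ⟨y, hy⟩
        obtain ⟨k, hk⟩ := Nat.Partrec.Code.evaln_complete.1 hy
        refine ⟨k, ?_⟩
        have : (Nat.Partrec.Code.evaln k c 0).isSome = true := Option.isSome_iff_exists.2 ⟨y, hk⟩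
        rw [this]; rfl
      · rintro ⟨k, hk⟩
        by_cases h : (Nat.Partrec.Code.evaln k c 0).isSome = true
        · obtain ⟨y, hy⟩ := Option.isSome_iff_exists.1 h
          exact ⟨y, Nat.Partrec.Code.evaln_complete.2 ⟨k, hy⟩⟩
        · simp only [Bool.not_eq_true] at h
          rw [h] at hk
          simp at hk
    rw [he]
    exact ComputablePred.computable_of_manyOneReducible
      ⟨Encodable.encode, Computable.encode, fun _ => Iff.rfl⟩ hK
  · refine ex' (P := fun v k => F (Nat.pair (v ()) k) = 0) ?_
    exact eq_dioph (D1_of_primrec hF _ _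
      (pair_dioph (diophFn_some (proj_dioph ())) proj_none)) (const_dioph 0)

end Pool.Agent.Helper76
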