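import Mathlib

set_option autoImplicit false

namespace Pool.Agent.Helper76

/-! ## The monoid `⟨b, c ∣ b²c² = 1⟩` and its normal forms.
`false` stands for `b`, `true` for `c`. -/

/-- the defining relation -/
def rr : FreeMonoid (Fin 2) := FreeMonoid.ofList [0, 0, 1, 1]

def con0 : Con (FreeMonoid (Fin 2)) := conGen (fun u v : FreeMonoid (Fin 2) => u = rr ∧ v = 1)

abbrev M := con0.Quotient

/-- left multiplication of a normal form by a letter -/
def push : Bool → List Bool → List Bool
  | false, false :: true :: true :: t => t
  | x, s => x :: s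

@[simp] theorem push_true (s : List Bool) : push true s = true :: s := by
  cases s <;> rfl

@[simp] theorem push_pop (s : List Bool) : push false (false :: true :: true :: s) = s := rfl

theorem push_nil (x : Bool) : push x [] = [x] := by cases x <;> rfl

theorem push_false_true (s : List Bool) : push false (true :: s) = false :: true :: s := rfl

theorem push_false_false (s : List Bool) :
    push false (false :: false :: s) = false :: false :: false :: s := rfl

theorem push_false_ftf (s : List Bool) :
    push false (false :: true :: false :: s) = false :: false :: true :: false :: s := rfl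

theorem push_false_f : push false [false] = [false, false] := rfl

theorem push_false_ft : push false [false, true] = [false, false, true] := rfl

/-- action of a word on a stack -/
def act (W s : List Bool) : List Bool := W.foldr push s

@[simp] theorem act_nil (s : List Bool) : act [] s = s := rfl
@[simp] theorem act_cons (x : Bool) (W s : List Bool) : act (x :: W) s = push x (act W s) := rfl
theorem act_append (W V s : List Bool) : act (W ++ V) s = act W (act V s) := by
  simp [act, List.foldr_append]

theorem push_length_le (x : Bool) (s : List Bool) : (push x s).length ≤ s.length + 1 := by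
  unfold push
  split
  · simp; omega
  · simp

theorem push_eq_of_length {x : Bool} {s : List Bool} (h : (push x s).length = s.length + 1) :
    push x s = x :: s := by
  revert h
  unfold push
  split
  · intro h; simp at h; omega
  · intro _; rfl

theorem act_length_le (W s : List Bool) : (act W s).length ≤ W.length + s.length := by
  induction W with
  | nil => simp
  | cons x W ih =>
    rw [act_cons]
    have := push_length_le x (act W s)
    simp only [List.length_cons]
    omega

/-- full length implies no cancellation -/
theorem act_eq_of_length {W s : List Bool} (h : (act W s).length = W.length + s.length) :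
    act W s = W ++ s := by
  induction W with
  | nil => rfl
  | cons x W ih =>
    rw [act_cons] at h ⊢
    have h1 := push_length_le x (act W s)
    have h2 := act_length_le W s
    simp only [List.length_cons] at h
    have h3 : (act W s).length = W.length + s.length := by omega
    rw [ih h3] at h ⊢
    have h4 : (push x (W ++ s)).length = (W ++ s).length + 1 := by
      simp only [List.length_append]; omega
    rw [push_eq_of_length h4]
    rfl

/-- starts with `bcc` -/
def P3 (l : List Bool) : Prop := ∃ t, l = false :: true :: true :: t

theorem push_eq_cons_iff (x : Bool) (s : List Bool) :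
    push x s = x :: s ↔ ¬ (x = false ∧ P3 s) := by
  constructor
  · rintro h ⟨rfl, t, rfl⟩
    rw [push_pop] at h
    have := congrArg List.length h
    simp at this
    omega
  · intro h
    apply push_eq_of_length
    unfold push
    split
    · exact absurd ⟨rfl, _, rfl⟩ h
    · rfl

/-- Transfer of irreducibility. -/
theorem act_transfer {s s' : List Bool} (hC : ∀ L, P3 (L ++ s') → P3 (L ++ s)) {W : List Bool}
    (h : act W s = W ++ s) : act W s' = W ++ s' := by
  induction W with
  | nil => rfl
  | cons x W ih =>
    rw [act_cons] at h ⊢
    have h1 := push_length_le x (act W s)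
    have h2 := act_length_le W s
    have h3 : (act W s).length = W.length + s.length := by
      have := congrArg List.length h
      simp only [List.length_append, List.length_cons] at this
      omega
    have h4 := act_eq_of_length h3
    rw [ih h4]
    rw [h4] at h
    have h5 : ¬ (x = false ∧ P3 (W ++ s)) := (push_eq_cons_iff _ _).1 h
    exact (push_eq_cons_iff _ _).2 fun ⟨hx, hp⟩ => h5 ⟨hx, hC W hp⟩

theorem C_bb (t : List Bool) : ∀ L, P3 (L ++ (false :: false :: t)) → P3 (L ++ []) := by
  rintro L ⟨t', h⟩
  rcases L with _ | ⟨x, _ | ⟨y, _ | ⟨z, L⟩⟩⟩ <;> simp at h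
  obtain ⟨rfl, rfl, rfl, rfl⟩ := h
  exact ⟨L, by simp⟩

theorem C_b : ∀ L, P3 (L ++ [false]) → P3 (L ++ []) := by
  rintro L ⟨t', h⟩
  rcases L with _ | ⟨x, _ | ⟨y, _ | ⟨z, L⟩⟩⟩ <;> simp at h
  obtain ⟨rfl, rfl, rfl, rfl⟩ := h
  exact ⟨L, by simp⟩

theorem C_cb (V : List Bool) : ∀ L, P3 (L ++ (true :: false :: V)) → P3 (L ++ [true]) := by
  rintro L ⟨t', h⟩
  rcases L with _ | ⟨x, _ | ⟨y, _ | ⟨z, L⟩⟩⟩ <;> simp at h
  · obtain ⟨rfl, rfl, h⟩ := h
    exact ⟨[], by simp⟩
  · obtain ⟨rfl, rfl, rfl, h⟩ := h
    exact ⟨L ++ [true], by simp⟩

/-! ### The quotient monoid -/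

/-- letters in `M` -/
def lt (x : Bool) : M := Con.mk' con0 (FreeMonoid.of (if x then 1 else 0))

/-- a word in `M` -/
def toM (l : List Bool) : M := (l.map lt).prod

@[simp] theorem toM_nil : toM [] = 1 := rfl
@[simp] theorem toM_cons (x : Bool) (l : List Bool) : toM (x :: l) = lt x * toM l := rfl
theorem toM_append (l l' : List Bool) : toM (l ++ l') = toM l * toM l' := by
  simp [toM]

theorem rel0 : lt false * lt false * lt true * lt true = 1 := by
  have : Con.mk' con0 rr = Con.mk' con0 1 := by
    change ((rr : FreeMonoid (Fin 2)) : M) = ((1 : FreeMonoid (Fin 2)) : M)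
    rw [Con.eq]
    exact ConGen.Rel.of _ _ ⟨rfl, rfl⟩
  have h2 : Con.mk' con0 rr = lt false * lt false * lt true * lt true := by
    unfold lt
    rw [← map_mul, ← map_mul, ← map_mul]
    rfl
  rw [← h2, this, map_one]

/-- the action hom on the free monoid -/
def phi0 : FreeMonoid (Fin 2) →* Function.End (List Bool) :=
  FreeMonoid.lift (fun i => push (decide (i = 1)))

theorem phi0_rel : phi0 rr = 1 := by
  funext s
  have : phi0 rr = (fun s => push false (push false (push true (push true s)))) := by
    unfold rr phi0
    rfl
  rw [this]
  simp [push_false_true]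
  rfl

/-- the action hom on `M` -/
def phi : M →* Function.End (List Bool) :=
  Con.lift con0 phi0 (by
    unfold con0
    rw [Con.conGen_le]
    rintro u v ⟨rfl, rfl⟩
    rw [Con.ker_rel, phi0_rel, map_one])

theorem phi_lt (x : Bool) (s : List Bool) : phi (lt x) s = push x s := by
  unfold phi lt
  cases x <;> rfl

theorem phi_mul (m n : M) (s : List Bool) : phi (m * n) s = phi m (phi n s) := by
  rw [map_mul]; rfl

theorem phi_toM (W s : List Bool) : phi (toM W) s = act W s := by
  induction W with
  | nil => rw [toM_nil, map_one]; rfl
  | cons x W ih => rw [toM_cons, phi_mul, ih, phi_lt, act_cons]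

theorem toM_push (x : Bool) (s : List Bool) : toM (push x s) = lt x * toM s := by
  unfold push
  split
  · rename_i t
    simp only [toM_cons]
    rw [← mul_assoc, ← mul_assoc, ← mul_assoc, rel0, one_mul]
  · rfl

/-- normal form -/
def nf (m : M) : List Bool := phi m []

theorem exists_word (m : M) : ∃ W, m = toM W := by
  induction m using Con.induction_on with
  | H w =>
    induction w using FreeMonoid.inductionOn with
    | one => exact ⟨[], rfl⟩
    | of i =>
      refine ⟨[decide (i = 1)], ?_⟩
      simp only [toM_cons, toM_nil, mul_one, lt]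
      fin_cases i <;> rfl
    | mul x y hx hy =>
      obtain ⟨W, hW⟩ := hx
      obtain ⟨V, hV⟩ := hy
      exact ⟨W ++ V, by rw [toM_append, ← hW, ← hV]; rfl⟩

theorem toM_phi (m : M) (s : List Bool) : toM (phi m s) = m * toM s := by
  obtain ⟨W, rfl⟩ := exists_word m
  rw [phi_toM]
  induction W with
  | nil => simp
  | cons x W ih => rw [act_cons, toM_push, ih, toM_cons, mul_assoc]

theorem toM_nf (m : M) : toM (nf m) = m := by
  rw [nf, toM_phi, toM_nil, mul_one]

theorem nf_inj {m n : M} (h : nf m = nf n) : m = n := by
  rw [← toM_nf m, h, toM_nf]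

theorem nf_toM (W : List Bool) : nf (toM W) = act W [] := phi_toM W []

theorem nf_one : nf 1 = [] := by rw [nf, map_one]; rfl

theorem nf_mul (m n : M) : nf (m * n) = act (nf m) (nf n) := by
  rw [nf, phi_mul]
  conv_lhs => rw [← toM_nf m]
  rw [phi_toM]
  rfl

theorem nf_lt_mul (x : Bool) (n : M) : nf (lt x * n) = push x (nf n) := by
  rw [nf, phi_mul, phi_lt]; rfl

theorem nf_irred (m : M) : act (nf m) [] = nf m := by
  rw [← nf_toM, toM_nf]

theorem nf_irred' (m : M) : act (nf m) [] = nf m ++ [] := by
  rw [nf_irred, List.append_nil]

theorem nf_lt (x : Bool) : nf (lt x) = [x] := by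
  rw [← mul_one (lt x), nf_lt_mul, nf_one, push_nil]

/-! ### Units are trivial -/

theorem not_right_inv_c (z : M) : lt true * z ≠ 1 := by
  intro h
  have := congrArg nf h
  rw [nf_lt_mul, nf_one, push_true] at this
  exact List.cons_ne_nil _ _ this

theorem push_ends_b (x : Bool) (s : List Bool) : ∃ t, push x (s ++ [false]) = t ++ [false] := by
  unfold push
  split
  · rename_i t h
    rcases s with _ | ⟨x1, _ | ⟨x2, _ | ⟨x3, s⟩⟩⟩ <;> simp at h
    exact ⟨s, h.2.2.2.symm⟩
  · exact ⟨_ :: s, rfl⟩

theorem act_ends_b (W s : List Bool) : ∃ t, act W (s ++ [false]) = t ++ [false] := by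
  induction W with
  | nil => exact ⟨s, rfl⟩
  | cons x W ih =>
    obtain ⟨t, ht⟩ := ih
    rw [act_cons, ht]
    exact push_ends_b x t

theorem not_left_inv_b (z : M) : z * lt false ≠ 1 := by
  intro h
  have h1 := congrArg nf h
  rw [nf_mul, nf_one, nf_lt] at h1
  obtain ⟨t, ht⟩ := act_ends_b (nf z) []
  rw [List.nil_append, h1] at ht
  simp at ht

theorem units_trivial (x y : M) (hxy : x * y = 1) (hyx : y * x = 1) : x = 1 := by
  by_contra hx
  have hne : nf x ≠ [] := fun h => hx (nf_inj (by rw [h, nf_one]))
  have hyne : nf y ≠ [] := by
    intro h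
    have : y = 1 := nf_inj (by rw [h, nf_one])
    rw [this, mul_one] at hxy
    exact hx hxy
  -- last letter of nf x is c
  obtain ⟨W, e, hW⟩ : ∃ W e, nf x = W ++ [e] :=
    ⟨(nf x).dropLast, (nf x).getLast hne, (List.dropLast_append_getLast hne).symm⟩
  have he : e = true := by
    cases e with
    | true => rfl
    | false =>
      exfalso
      have : x = toM W * lt false := by
        rw [← toM_nf x, hW, toM_append]; simp
      rw [this, ← mul_assoc] at hyx
      exact not_left_inv_b _ hyx
  subst he
  -- first letter of nf y is b
  obtain ⟨f, V, hV⟩ : ∃ f V, nf y = f :: V := List.exists_cons_of_ne_nil hyne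
  have hf : f = false := by
    cases f with
    | false => rfl
    | true =>
      exfalso
      have : y = lt true * toM V := by rw [← toM_nf y, hV]; rfl
      rw [this, mul_assoc] at hyx
      exact not_right_inv_c _ hyx
  subst hf
  have h1 : act (W ++ [true]) [] = W ++ [true] := by rw [← hW, nf_irred]
  rw [act_append] at h1
  have h2 : act W [true] = W ++ [true] := by simpa using h1
  have h3 : act W (true :: false :: V) = W ++ (true :: false :: V) := act_transfer (C_cb V) h2
  have h4 : nf (x * y) = W ++ (true :: false :: V) := by
    rw [nf_mul, hW, hV, act_append]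
    simpa using h3
  rw [hxy, nf_one] at h4
  simp at h4

end Pool.Agent.Helper76
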