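import Mathlib
import Pool.Agent.Helper76.Mon

set_option autoImplicit false

namespace Pool.Agent.Helper76

/-! ## Words commuting with a given word -/

theorem comm_word (β : Bool) (k : ℕ) (hk : 2 ≤ k) (U : List Bool)
    (hU : U = [β, β, !β, β, β, !β] ++ List.replicate k β) :
    ∀ (n : ℕ) (X : List Bool), X.length ≤ n → X ++ U = U ++ X →
      ∃ m, X = (List.replicate m U).flatten := by
  have hlen : U.length = k + 6 := by rw [hU]; simp
  have hget : ∀ i, U[i]? = some (!β) → i = 2 ∨ i = 5 := by
    intro i hi
    rw [hU] at hi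
    rcases i with _ | _ | _ | _ | _ | _ | i
    · simp at hi
    · simp at hi
    · left; rfl
    · simp at hi
    · simp at hi
    · right; rfl
    · exfalso
      simp only [List.cons_append, List.nil_append, List.getElem?_cons_succ] at hi
      rw [List.getElem?_replicate] at hi
      split at hi <;> simp at hi
  have h2 : U[2]? = some (!β) := by rw [hU]; rfl
  have h5 : U[5]? = some (!β) := by rw [hU]; rfl
  intro n
  induction n with
  | zero =>
    intro X hX _
    exact ⟨0, by simpa using hX⟩
  | succ n ih =>
    intro X hX h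
    by_cases h0 : X = []
    · exact ⟨0, by simpa using h0⟩
    have hd : 0 < X.length := List.length_pos_iff.2 h0
    by_cases hlt : X.length < U.length
    · exfalso
      have hpre : ∀ i, i < X.length → X[i]? = U[i]? := by
        intro i hi
        have : (X ++ U)[i]? = (U ++ X)[i]? := by rw [h]
        rw [List.getElem?_append_left hi, List.getElem?_append_left (by omega)] at this
        exact this
      have key : ∀ j : ℕ, (X ++ U)[j]? = (U ++ X)[j]? := fun j => by rw [h]
      have k2 := key (X.length + 2)
      rw [List.getElem?_append_right (by omega)] at k2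
      simp only [Nat.add_sub_cancel_left] at k2
      rw [h2] at k2
      by_cases hc : X.length + 2 < U.length
      · rw [List.getElem?_append_left hc] at k2
        have hX3 : X.length = 3 := by
          rcases hget _ k2.symm with h | h <;> omega
        have k5 := key (X.length + 5)
        rw [List.getElem?_append_right (by omega)] at k5
        simp only [Nat.add_sub_cancel_left] at k5
        rw [h5] at k5
        by_cases hc2 : X.length + 5 < U.length
        · rw [List.getElem?_append_left hc2] at k5
          rcases hget _ k5.symm with h | h <;> omega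
        · rw [List.getElem?_append_right (by omega)] at k5
          have : X.length + 5 - U.length = 0 := by omega
          rw [this, hpre 0 hd] at k5
          rcases hget _ k5.symm with h | h <;> omega
      · rw [List.getElem?_append_right (by omega)] at k2
        rw [hpre _ (by omega)] at k2
        rcases hget _ k2.symm with h | h <;> omega
    · -- U is a prefix of X
      obtain ⟨X', hX'⟩ : ∃ X', X = U ++ X' := by
        refine ⟨X.drop U.length, ?_⟩
        have := congrArg (List.take U.length) h
        rw [List.take_append_of_le_length (by omega), List.take_left'  rfl] at this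
        conv_lhs => rw [← List.take_append_drop U.length X, this]
      rw [hX', List.append_assoc, List.append_right_inj] at h
      obtain ⟨m, hm⟩ := ih X' (by
        have := congrArg List.length hX'
        simp only [List.length_append] at this
        omega) h
      refine ⟨m + 1, ?_⟩
      rw [hX', hm, List.replicate_succ, List.flatten_cons]

theorem toM_flatten (U : List Bool) (m : ℕ) :
    toM (List.replicate m U).flatten = toM U ^ m := by
  induction m with
  | zero => simp
  | succ m ih => rw [List.replicate_succ, List.flatten_cons, toM_append, ih, pow_succ']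

theorem toM_replicate (x : Bool) (m : ℕ) : toM (List.replicate m x) = lt x ^ m := by
  induction m with
  | zero => simp
  | succ m ih => rw [List.replicate_succ, toM_cons, ih, pow_succ']

theorem comm_letter (x : Bool) : ∀ (X : List Bool), X ++ [x] = x :: X →
    X = List.replicate X.length x := by
  intro X
  induction X with
  | nil => intro _; rfl
  | cons y X ih =>
    intro h
    simp only [List.cons_append, List.cons.injEq] at h
    obtain ⟨rfl, h⟩ := h
    rw [List.length_cons, List.replicate_succ, ← ih h]



/-! ## Centralizers in `M` -/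

theorem nf_bb (z : M) : nf (lt false * z) = push false (nf z) := nf_lt_mul _ _

/-- full-length comparison: if `nf (x * y)` has full length then it is the concatenation. -/
theorem nf_mul_eq {x y : M} (h : (nf (x * y)).length = (nf x).length + (nf y).length) :
    nf (x * y) = nf x ++ nf y := by
  rw [nf_mul] at h ⊢
  exact act_eq_of_length h

theorem cent_b {z : M} (h : z * lt false = lt false * z) : ∃ k, z = lt false ^ k := by
  have h1 : nf (z * lt false) = nf z ++ [false] := by
    rw [nf_mul, nf_lt]
    exact act_transfer C_b (nf_irred' z)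
  have h2 : nf (lt false * z) = [false] ++ nf z := by
    rw [← nf_lt false]
    apply nf_mul_eq
    rw [← h, h1, nf_lt]
    simp [add_comm]
  have h3 : nf z ++ [false] = false :: nf z := by rw [← h1, h, h2]; rfl
  refine ⟨(nf z).length, ?_⟩
  rw [← toM_replicate, ← comm_letter _ _ h3, toM_nf]

theorem cent_c {z : M} (h : z * lt true = lt true * z) : ∃ k, z = lt true ^ k := by
  have h1 : nf (lt true * z) = true :: nf z := by rw [nf_lt_mul, push_true]
  have h2 : nf (z * lt true) = nf z ++ [true] := by
    rw [← nf_lt true]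
    apply nf_mul_eq
    rw [h, h1, nf_lt]
    simp
  have h3 : nf z ++ [true] = true :: nf z := by rw [← h1, ← h, h2]
  refine ⟨(nf z).length, ?_⟩
  rw [← toM_replicate, ← comm_letter _ _ h3, toM_nf]

/-- words over `{b, bbc}` etc.: irreducible words starting with `bb` -/
theorem cent_u {z : M} {k : ℕ} (hk : 2 ≤ k) {U : List Bool}
    (hU : U = [false, false, true, false, false, true] ++ List.replicate k false)
    (h : z * toM U = toM U * z) : ∃ m, z = toM U ^ m := by
  have hirr : nf (toM U) = U := by
    rw [nf_toM, hU, act_append]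
    have : act (List.replicate k false) [] = List.replicate k false := by
      clear hk hU
      induction k with
      | zero => rfl
      | succ k ih =>
        rw [List.replicate_succ, act_cons, ih]
        rcases k with _ | _ | k <;> rfl
    rw [this]
    obtain ⟨j, rfl⟩ : ∃ j, k = j + 2 := ⟨k - 2, by omega⟩
    rfl
  have h1 : nf (z * toM U) = nf z ++ U := by
    rw [nf_mul, hirr, hU]
    exact act_transfer (C_bb _) (nf_irred' z)
  have h2 : nf (toM U * z) = U ++ nf z := by
    conv_rhs => rw [← hirr]
    apply nf_mul_eq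
    rw [← h, h1, hirr]
    simp [add_comm]
  have h3 : nf z ++ U = U ++ nf z := by rw [← h1, h, h2]
  obtain ⟨m, hm⟩ := comm_word false k hk U (by simpa using hU) _ _ le_rfl h3
  exact ⟨m, by rw [← toM_flatten, ← hm, toM_nf]⟩

theorem push_c_act (k : ℕ) (s : List Bool) :
    act (List.replicate k true) s = List.replicate k true ++ s := by
  induction k with
  | zero => rfl
  | succ k ih => rw [List.replicate_succ, act_cons, ih, push_true]; rfl

theorem act_V (k : ℕ) (s : List Bool) :
    act (List.replicate k true ++ [false, true, true, false, true, true]) s =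
      (List.replicate k true ++ [false, true, true, false, true, true]) ++ s := by
  rw [act_append, List.append_assoc, ← push_c_act]
  simp [push_false_true]

theorem cent_v {z : M} {k : ℕ} (hk : 2 ≤ k) {V : List Bool}
    (hV : V = List.replicate k true ++ [false, true, true, false, true, true])
    (h : z * toM V = toM V * z) : ∃ m, z = toM V ^ m := by
  have hirr : nf (toM V) = V := by
    rw [nf_toM, hV, act_V, List.append_nil]
  have h1 : nf (toM V * z) = V ++ nf z := by
    rw [nf_mul, hirr, hV, act_V]
  have h2 : nf (z * toM V) = nf z ++ V := by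
    conv_rhs => rw [← hirr]
    apply nf_mul_eq
    rw [h, h1, hirr]
    simp [add_comm]
  have h3 : nf z ++ V = V ++ nf z := by rw [← h1, ← h, h2]
  have h4 : (nf z).reverse ++ V.reverse = V.reverse ++ (nf z).reverse := by
    rw [← List.reverse_append, ← List.reverse_append, h3]
  have hVr : V.reverse = [true, true, !true, true, true, !true] ++ List.replicate k true := by
    rw [hV]; simp
  obtain ⟨m, hm⟩ := comm_word true k hk V.reverse hVr _ _ le_rfl h4
  refine ⟨m, ?_⟩
  have h5 : nf z = (List.replicate m V).flatten := by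
    have := congrArg List.reverse hm
    rw [List.reverse_reverse, List.reverse_flatten] at this
    simpa using this
  rw [← toM_flatten, ← h5, toM_nf]

theorem bc_pow : ∀ (k l : ℕ), lt false ^ k * lt true ^ l = 1 → k = l ∧ Even k
  | 0, 0, _ => ⟨rfl, Even.zero⟩
  | 0, l + 1, h => by
    exfalso
    rw [pow_zero, one_mul, pow_succ'] at h
    exact not_right_inv_c _ h
  | k + 1, 0, h => by
    exfalso
    rw [pow_zero, mul_one, pow_succ] at h
    exact not_left_inv_b _ h
  | 1, l + 1, h => by
    exfalso
    rw [pow_one, pow_succ'] at h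
    have := congrArg nf h
    rw [nf_lt_mul, nf_lt_mul, nf_one, push_true, push_false_true] at this
    exact List.cons_ne_nil _ _ this
  | k + 2, 1, h => by
    exfalso
    have h' := congrArg nf h
    rw [nf_mul, nf_one, pow_one, nf_lt, ← toM_replicate, nf_toM] at h'
    have hS : ∀ L : List Bool, P3 (L ++ [true]) → P3 (L ++ [true]) := fun _ h => h
    have e1 : ∀ k, act (List.replicate k false) [] = List.replicate k false := by
      intro k
      induction k with
      | zero => rfl
      | succ k ih =>
        rw [List.replicate_succ, act_cons, ih]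
        rcases k with _ | _ | k <;> rfl
    have e2 : ∀ k, act (List.replicate k false) [true] = List.replicate k false ++ [true] := by
      intro k
      induction k with
      | zero => rfl
      | succ k ih =>
        rw [List.replicate_succ, act_cons, ih]
        rcases k with _ | _ | k <;> rfl
    rw [e1, e2] at h'
    simp at h'
  | k + 2, l + 2, h => by
    have : lt false ^ (k + 2) * lt true ^ (l + 2) = lt false ^ k * lt true ^ l := by
      have e : lt false ^ (k + 2) * lt true ^ (l + 2)
          = lt false ^ k * (lt false * lt false * lt true * lt true) * lt true ^ l := by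
        rw [pow_add, pow_two, show l + 2 = 2 + l by ring, pow_add, pow_two]
        simp only [mul_assoc]
      rw [e, rel0, mul_one]
    rw [this] at h
    obtain ⟨h1, h2⟩ := bc_pow k l h
    exact ⟨by omega, by obtain ⟨r, hr⟩ := h2; exact ⟨r + 1, by omega⟩⟩

/-! ## The two alphabets -/

def b0 : M := lt false * lt false
def b1 : M := lt false * lt false * lt true * (lt false * lt false * lt true)
def cA : M := lt true * lt true
def cq : M := lt false * lt true * lt true * (lt false * lt true * lt true)

theorem r4 (z : M) : lt false * (lt false * (lt true * (lt true * z))) = z := by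
  have := congrArg (fun w => w * z) rel0
  simpa [mul_assoc] using this

theorem b0_A (z : M) : b0 * (cA * z) = z := by
  simp only [b0, cA, mul_assoc, r4]

theorem b1_A (z : M) : b1 * (cA * z) = z := by
  simp only [b1, cA, mul_assoc, r4]

theorem b0_q (z : M) : b0 * (cq * z) = z := by
  simp only [b0, cq, mul_assoc, r4]

theorem b0_A_pow (i : ℕ) : ∀ z : M, b0 ^ i * (cA ^ i * z) = z := by
  induction i with
  | zero => intro z; simp
  | succ i ih =>
    intro z
    rw [pow_succ b0, pow_succ' cA, mul_assoc, mul_assoc, b0_A, ih]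

theorem b0_A_pow_lt {i j : ℕ} (h : i ≤ j) (z : M) : b0 ^ i * (cA ^ j * z) = cA ^ (j - i) * z := by
  have : cA ^ j = cA ^ i * cA ^ (j - i) := by rw [← pow_add]; congr 1; omega
  rw [this, mul_assoc, b0_A_pow]

theorem b0_A_pow_gt {i j : ℕ} (h : j ≤ i) (z : M) : b0 ^ i * (cA ^ j * z) = b0 ^ (i - j) * z := by
  have : b0 ^ i = b0 ^ (i - j) * b0 ^ j := by rw [← pow_add]; congr 1; omega
  rw [this, mul_assoc, b0_A_pow]

/-- normal form starts with `bb` -/
def S2 (z : M) : Prop := ∃ t, nf z = false :: false :: t

theorem S2.ne_one {z : M} (h : S2 z) : z ≠ 1 := by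
  rintro rfl
  obtain ⟨t, ht⟩ := h
  rw [nf_one] at ht
  exact List.cons_ne_nil _ _ ht.symm

theorem S2.b0 {z : M} (h : S2 z) : S2 (b0 * z) := by
  obtain ⟨t, ht⟩ := h
  refine ⟨false :: false :: t, ?_⟩
  unfold Helper76.b0
  rw [mul_assoc, nf_lt_mul, nf_lt_mul, ht]
  rfl

theorem S2_bbc {z : M} (h : ∀ t, nf z ≠ true :: t) : S2 (lt false * lt false * lt true * z) := by
  refine ⟨true :: nf z, ?_⟩
  rw [mul_assoc, mul_assoc, nf_lt_mul, nf_lt_mul, nf_lt_mul, push_true, push_false_true]
  rcases hz : nf z with _ | ⟨x, s⟩
  · rfl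
  · cases x with
    | false => rfl
    | true => exact absurd hz (h s)

theorem S2.b1 {z : M} (h : S2 z) : S2 (b1 * z) := by
  unfold Helper76.b1
  rw [mul_assoc]
  apply S2_bbc
  intro t ht
  obtain ⟨s, hs⟩ := h
  have : S2 (lt false * lt false * lt true * z) := S2_bbc (fun t ht => by rw [hs] at ht; simp at ht)
  obtain ⟨s', hs'⟩ := this
  rw [hs'] at ht
  simp at ht

theorem nf_bcc (z : M) : nf (lt false * lt true * lt true * z) = false :: true :: true :: nf z := by
  rw [mul_assoc, mul_assoc, nf_lt_mul, nf_lt_mul, nf_lt_mul, push_true, push_true, push_false_true]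

theorem b1_q (z : M) : S2 (b1 * (cq * z)) := by
  unfold b1 cq
  rw [mul_assoc (lt false * lt false * lt true), mul_assoc (lt false * lt true * lt true)]
  apply S2_bbc
  intro t ht
  have : S2 (lt false * lt false * lt true *
      (lt false * lt true * lt true * (lt false * lt true * lt true * z))) :=
    S2_bbc (fun t ht => by rw [nf_bcc] at ht; simp at ht)
  obtain ⟨s', hs'⟩ := this
  rw [hs'] at ht
  simp at ht

theorem q_ne_one (z : M) : cq * z ≠ 1 := by
  intro h
  have := congrArg nf h
  unfold cq at this
  rw [mul_assoc, nf_bcc, nf_one] at this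
  exact List.cons_ne_nil _ _ this

theorem A_ne_one (z : M) : cA * z ≠ 1 := by
  unfold cA
  rw [mul_assoc]
  exact not_right_inv_c _

theorem A_pow_q_ne_one (i : ℕ) (z : M) : cA ^ i * (cq * z) ≠ 1 := by
  cases i with
  | zero => rw [pow_zero, one_mul]; exact q_ne_one z
  | succ i => rw [pow_succ', mul_assoc]; exact A_ne_one _

theorem b0_ne_one (z : M) : z * b0 ≠ 1 := by
  unfold b0
  rw [← mul_assoc]
  exact not_left_inv_b _

theorem push_ends_bbc (x : Bool) (s : List Bool) :
    ∃ t, push x (s ++ [false, false, true]) = t ++ [false, false, true] := by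
  unfold push
  split
  · rename_i t h
    rcases s with _ | ⟨x1, _ | ⟨x2, _ | ⟨x3, s⟩⟩⟩ <;> simp at h
    exact ⟨s, h.2.2.2.symm⟩
  · exact ⟨_ :: s, rfl⟩

theorem act_ends_bbc (W s : List Bool) :
    ∃ t, act W (s ++ [false, false, true]) = t ++ [false, false, true] := by
  induction W with
  | nil => exact ⟨s, rfl⟩
  | cons x W ih =>
    obtain ⟨t, ht⟩ := ih
    rw [act_cons, ht]
    exact push_ends_bbc x t

theorem b1_ne_one (z : M) : z * b1 ≠ 1 := by
  intro h
  unfold b1 at h
  rw [← mul_assoc] at h
  set y := z * (lt false * lt false * lt true) with hy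
  have h1 := congrArg nf h
  rw [nf_mul, nf_one] at h1
  have h2 : nf (lt false * lt false * lt true) = [] ++ [false, false, true] := by
    rw [mul_assoc, nf_lt_mul, nf_lt_mul, nf_lt]; rfl
  rw [h2] at h1
  obtain ⟨t, ht⟩ := act_ends_bbc (nf y) []
  rw [ht] at h1
  simp at h1

variable {n : ℕ}

/-- the block `u = b1 b0^n` -/
def uu (n : ℕ) : M := b1 * b0 ^ n
/-- the block `v = A^(n+1) q` -/
def vv (n : ℕ) : M := cA ^ (n + 1) * cq

theorem S2_uu_pow {z : M} (h : S2 z) (n m : ℕ) : S2 (uu n ^ m * z) := by
  have hu : ∀ z, S2 z → S2 (uu n * z) := by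
    intro z hz
    unfold uu
    rw [mul_assoc]
    apply S2.b1
    clear h
    induction n with
    | zero => simpa using hz
    | succ n ih => rw [pow_succ', mul_assoc]; exact S2.b0 ih
  induction m with
  | zero => simpa using h
  | succ m ih => rw [pow_succ', mul_assoc]; exact hu _ ih

theorem main_count (hn : 1 ≤ n) : ∀ (k m j : ℕ), j ≤ n →
    (uu n ^ m * (b1 * b0 ^ j) * (vv n ^ k * cA) = 1 ↔ m = j ∧ k = j) := by
  intro k
  induction k with
  | zero =>
    intro m j hj
    rw [pow_zero, one_mul]
    cases j with
    | zero =>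
      rw [pow_zero, mul_one, mul_assoc]
      have e : b1 * cA = 1 := by simpa using b1_A 1
      rw [e, mul_one]
      constructor
      · intro h
        refine ⟨?_, rfl⟩
        cases m with
        | zero => rfl
        | succ m =>
          exfalso
          obtain ⟨n', rfl⟩ : ∃ n', n = n' + 1 := ⟨n - 1, by omega⟩
          have : uu (n' + 1) ^ (m + 1) = (uu (n' + 1) ^ m * (b1 * b0 ^ n')) * b0 := by
            rw [pow_succ, uu, pow_succ, mul_assoc, mul_assoc]
          rw [this] at h
          exact b0_ne_one _ h
      · rintro ⟨rfl, _⟩; rfl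
    | succ j =>
      have e : uu n ^ m * (b1 * b0 ^ (j + 1)) * cA = uu n ^ m * (b1 * b0 ^ j) := by
        have : b0 * cA = 1 := by simpa using b0_A 1
        rw [pow_succ, mul_assoc, mul_assoc, mul_assoc, this, mul_one]
      rw [e]
      constructor
      · intro h
        exfalso
        cases j with
        | zero =>
          rw [pow_zero, mul_one] at h
          exact b1_ne_one _ h
        | succ j =>
          rw [pow_succ, ← mul_assoc, ← mul_assoc] at h
          exact b0_ne_one _ h
      · rintro ⟨_, h⟩; omega
  | succ k ih =>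
    intro m j hj
    have e1 : uu n ^ m * (b1 * b0 ^ j) * (vv n ^ (k + 1) * cA)
        = uu n ^ m * (cA ^ (n - j) * (cq * (vv n ^ k * cA))) := by
      have h1 : b0 ^ j * (cA ^ (n + 1) * (cq * (vv n ^ k * cA))) =
          cA ^ (n + 1 - j) * (cq * (vv n ^ k * cA)) := b0_A_pow_lt (by omega) _
      have h2 : cA ^ (n + 1 - j) = cA * cA ^ (n - j) := by
        rw [← pow_succ']; congr 1; omega
      calc uu n ^ m * (b1 * b0 ^ j) * (vv n ^ (k + 1) * cA)
          = uu n ^ m * (b1 * (b0 ^ j * (cA ^ (n + 1) * (cq * (vv n ^ k * cA))))) := by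
            rw [pow_succ' (vv n)]
            conv_lhs => rw [show vv n * vv n ^ k = cA ^ (n + 1) * cq * vv n ^ k from rfl]
            simp only [mul_assoc]
        _ = uu n ^ m * (b1 * (cA * (cA ^ (n - j) * (cq * (vv n ^ k * cA))))) := by
            rw [h1, h2, mul_assoc]
        _ = _ := by rw [b1_A]
    rw [e1]
    cases m with
    | zero =>
      rw [pow_zero, one_mul]
      constructor
      · intro h; exact absurd h (A_pow_q_ne_one _ _)
      · rintro ⟨h1, h2⟩; omega
    | succ m =>
      have e2 : uu n ^ (m + 1) * (cA ^ (n - j) * (cq * (vv n ^ k * cA)))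
          = uu n ^ m * (b1 * (b0 ^ j * (cq * (vv n ^ k * cA)))) := by
        rw [pow_succ, mul_assoc]
        conv_lhs => rw [show uu n * (cA ^ (n - j) * (cq * (vv n ^ k * cA))) =
          b1 * (b0 ^ n * (cA ^ (n - j) * (cq * (vv n ^ k * cA)))) by
            unfold uu; rw [mul_assoc]]
        rw [b0_A_pow_gt (by omega)]
        congr 4
        omega
      rw [e2]
      cases j with
      | zero =>
        rw [pow_zero, one_mul]
        constructor
        · intro h
          exact absurd h (S2_uu_pow (b1_q _) n m).ne_one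
        · rintro ⟨h1, h2⟩; omega
      | succ j =>
        have e3 : uu n ^ m * (b1 * (b0 ^ (j + 1) * (cq * (vv n ^ k * cA))))
            = uu n ^ m * (b1 * b0 ^ j) * (vv n ^ k * cA) := by
          rw [pow_succ, mul_assoc, b0_q]
          simp only [mul_assoc]
        rw [e3, ih m j (by omega)]
        constructor
        · rintro ⟨h1, h2⟩; omega
        · rintro ⟨h1, h2⟩; omega

/-- Key lemma: `u^m v^k A = 1` iff `m = n+1` and `k = n`. -/
theorem key (hn : 1 ≤ n) (m k : ℕ) : uu n ^ m * (vv n ^ k * cA) = 1 ↔ m = n + 1 ∧ k = n := by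
  cases m with
  | zero =>
    rw [pow_zero, one_mul]
    constructor
    · intro h
      exfalso
      cases k with
      | zero =>
        rw [pow_zero, one_mul] at h
        exact A_ne_one 1 (by rw [mul_one, h])
      | succ k =>
        have : vv n ^ (k + 1) * cA = cA * (cA ^ n * (cq * (vv n ^ k * cA))) := by
          rw [pow_succ' (vv n)]
          conv_lhs => rw [show vv n * vv n ^ k = cA ^ (n + 1) * cq * vv n ^ k from rfl]
          rw [pow_succ' cA]
          simp only [mul_assoc]
        rw [this] at h
        exact A_ne_one _ h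
    · rintro ⟨h, _⟩; omega
  | succ m =>
    rw [pow_succ]
    have := main_count hn k m n le_rfl
    rw [show b1 * b0 ^ n = uu n from rfl] at this
    rw [this]
    constructor
    · rintro ⟨h1, h2⟩; exact ⟨by omega, h2⟩
    · rintro ⟨h1, h2⟩; exact ⟨by omega, h2⟩

/-! ## Squares -/

theorem b0_eq : b0 = lt false ^ 2 := by rw [pow_two]; rfl
theorem cA_eq : cA = lt true ^ 2 := by rw [pow_two]; rfl

theorem b0_pow (i : ℕ) : b0 ^ i = lt false ^ (2 * i) := by rw [b0_eq, ← pow_mul]
theorem cA_pow (i : ℕ) : cA ^ i = lt true ^ (2 * i) := by rw [cA_eq, ← pow_mul]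

theorem b0_cA_pow (i : ℕ) : b0 ^ i * cA ^ i = 1 := by
  simpa using b0_A_pow i 1

theorem b0_pow_inj {i j : ℕ} (h : b0 ^ i = b0 ^ j) : i = j := by
  have h1 : b0 ^ i * cA ^ j = 1 := by rw [h, b0_cA_pow]
  rw [b0_pow, cA_pow] at h1
  have := (bc_pow _ _ h1).1
  omega

/-- `x` is an even power of `b` -/
theorem num_iff (X : M) : (∃ α : M, X * lt false = lt false * X ∧ α * lt true = lt true * α ∧
    X * α = 1) ↔ ∃ n, X = b0 ^ n := by
  constructor
  · rintro ⟨α, h1, h2, h3⟩
    obtain ⟨k, rfl⟩ := cent_b h1
    obtain ⟨l, rfl⟩ := cent_c h2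
    obtain ⟨_, r, hr⟩ := bc_pow _ _ h3
    exact ⟨r, by rw [b0_pow]; congr 1; omega⟩
  · rintro ⟨n, rfl⟩
    refine ⟨cA ^ n, ?_, ?_, b0_cA_pow n⟩
    · rw [b0_pow, ← pow_succ, ← pow_succ']
    · rw [cA_pow, ← pow_succ, ← pow_succ']

theorem c_pow_unique {z : M} {i j : ℕ} (hi : z * lt true ^ i = 1) (hj : z * lt true ^ j = 1) :
    i = j := by
  wlog h : i ≤ j generalizing i j
  · exact (this hj hi (by omega)).symm
  obtain ⟨d, rfl⟩ := Nat.exists_eq_add_of_le h
  rw [pow_add, ← mul_assoc, hi, one_mul] at hj
  cases d with
  | zero => rfl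
  | succ d => rw [pow_succ'] at hj; exact absurd hj (not_right_inv_c _)

theorem uu_pow_cA (n m : ℕ) : uu n ^ m * cA ^ (m * (n + 1)) = 1 := by
  induction m with
  | zero => simp
  | succ m ih =>
    have : uu n ^ (m + 1) * cA ^ ((m + 1) * (n + 1)) =
        uu n ^ m * (b1 * (b0 ^ n * (cA ^ (n + 1) * cA ^ (m * (n + 1))))) := by
      rw [pow_succ (uu n), show (m + 1) * (n + 1) = (n + 1) + m * (n + 1) by ring, pow_add]
      conv_lhs => rw [show uu n ^ m * uu n = uu n ^ m * (b1 * b0 ^ n) from rfl]
      simp only [mul_assoc]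
    rw [this, b0_A_pow_lt (by omega)]
    rw [show n + 1 - n = 1 by omega, pow_one, b1_A, ih]

theorem uu_word (x : ℕ) : toM ([false, false, true, false, false, true] ++
    List.replicate (2 * x + 2) false) = b1 * b0 ^ x * b0 := by
  rw [toM_append, toM_replicate, b0_pow, b0_eq, mul_assoc, ← pow_add]
  unfold b1
  simp only [toM_cons, toM_nil, mul_one, mul_assoc]

theorem vv_word (k : ℕ) : toM (List.replicate k true ++ [false, true, true, false, true, true]) =
    lt true ^ k * cq := by
  rw [toM_append, toM_replicate]
  unfold cq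
  simp only [toM_cons, toM_nil, mul_one, mul_assoc]

/-- **Squares are definable**. -/
theorem sq_iff (x y : ℕ) :
    (∃ α Z W δ : M, α * lt true = lt true * α ∧
      b0 ^ x * (b0 * b0) * α = 1 ∧
      Z * (b1 * b0 ^ x * b0) = (b1 * b0 ^ x * b0) * Z ∧
      W * (α * cq) = (α * cq) * W ∧
      Z * (W * cA) = 1 ∧
      δ * lt true = lt true * δ ∧
      Z * δ = 1 ∧
      b0 ^ y * (b0 ^ x * b0 ^ x * b0 ^ x * b0 ^ x * b0 ^ 4) * δ = 1) ↔ y = x ^ 2 := by
  constructor
  · rintro ⟨α, Z, W, δ, h1, h2, h3, h4, h5, h6, h7, h8⟩
    obtain ⟨k, rfl⟩ := cent_c h1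
    have hk : k = 2 * (x + 2) := by
      have e : b0 ^ x * (b0 * b0) = lt false ^ (2 * (x + 2)) := by
        rw [← b0_pow, pow_add, pow_two]
      rw [e] at h2
      exact ((bc_pow _ _ h2).1).symm
    subst hk
    rw [← uu_word] at h3
    obtain ⟨m, hm⟩ := cent_u (k := 2 * x + 2) (by omega) rfl h3
    rw [← vv_word] at h4
    obtain ⟨m', hm'⟩ := cent_v (k := 2 * (x + 2)) (by omega) rfl h4
    rw [uu_word] at hm
    rw [vv_word, ← cA_pow] at hm'
    have eu : b1 * b0 ^ x * b0 = uu (x + 1) := by rw [uu, pow_succ, mul_assoc]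
    have ev : cA ^ (x + 2) * cq = vv (x + 1) := rfl
    rw [eu] at hm
    rw [ev] at hm'
    rw [hm, hm'] at h5
    obtain ⟨hm1, _⟩ := (key (n := x + 1) (by omega) m m').1 h5
    obtain ⟨l, rfl⟩ := cent_c h6
    have hl : l = 2 * (m * (x + 1 + 1)) := by
      rw [hm] at h7
      have := uu_pow_cA (x + 1) m
      rw [cA_pow] at this
      exact c_pow_unique h7 this
    have h9 : b0 ^ y * (b0 ^ x * b0 ^ x * b0 ^ x * b0 ^ x * b0 ^ 4) =
        lt false ^ (2 * (y + (x + x + x + x + 4))) := by
      rw [← b0_pow]
      simp only [← pow_add]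
    rw [h9] at h8
    have h10 := (bc_pow _ _ h8).1
    rw [hl, hm1] at h10
    nlinarith
  · rintro rfl
    refine ⟨cA ^ (x + 2), uu (x + 1) ^ (x + 2), vv (x + 1) ^ (x + 1), cA ^ ((x + 2) * (x + 2)),
      ?_, ?_, ?_, ?_, ?_, ?_, ?_, ?_⟩
    · rw [cA_pow, ← pow_succ, ← pow_succ']
    · have : b0 ^ x * (b0 * b0) = b0 ^ (x + 2) := by rw [pow_add, pow_two]
      rw [this, b0_cA_pow]
    · have eu : b1 * b0 ^ x * b0 = uu (x + 1) := by rw [uu, pow_succ, mul_assoc]
      rw [eu, ← pow_succ, ← pow_succ']
    · have ev : cA ^ (x + 2) * cq = vv (x + 1) := rfl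
      rw [ev, ← pow_succ, ← pow_succ']
    · exact (key (n := x + 1) (by omega) _ _).2 ⟨rfl, rfl⟩
    · rw [cA_pow, ← pow_succ, ← pow_succ']
    · exact uu_pow_cA (x + 1) (x + 2)
    · have h9 : b0 ^ (x ^ 2) * (b0 ^ x * b0 ^ x * b0 ^ x * b0 ^ x * b0 ^ 4) =
          b0 ^ ((x + 2) * (x + 2)) := by
        simp only [← pow_add]
        congr 1
        ring
      rw [h9, b0_cA_pow]

end Pool.Agent.Helper76
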