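import Mathlib
import Pool.Agent.Helper76.Sq
import Pool.Agent.Helper76.MRDP

set_option autoImplicit false

namespace Pool.Agent.Helper76

/-! ## Systems of equations over `M` with an arbitrary type of variables -/

/-- value of a word with variables -/
def ev {V : Type} (σ : V → M) (l : List (Fin 2 ⊕ V)) : M :=
  (l.map (Sum.elim (fun a : Fin 2 => Con.mk' con0 (FreeMonoid.of a)) σ)).prod

def Sol {V : Type} (E : List (List (Fin 2 ⊕ V) × List (Fin 2 ⊕ V))) (σ : V → M) : Prop :=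
  ∀ e ∈ E, ev σ e.1 = ev σ e.2

/-- letter `b` -/
def vb {V : Type} : Fin 2 ⊕ V := Sum.inl 0
/-- letter `c` -/
def vc {V : Type} : Fin 2 ⊕ V := Sum.inl 1
def vx {V : Type} (v : V) : Fin 2 ⊕ V := Sum.inr v

section
variable {V W : Type} (σ : V → M)

theorem ev_nil : ev σ [] = 1 := rfl
theorem ev_vb (l : List (Fin 2 ⊕ V)) : ev σ (vb :: l) = lt false * ev σ l := rfl
theorem ev_vc (l : List (Fin 2 ⊕ V)) : ev σ (vc :: l) = lt true * ev σ l := rfl
theorem ev_vx (v : V) (l : List (Fin 2 ⊕ V)) : ev σ (vx v :: l) = σ v * ev σ l := rfl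

/-- renaming of variables -/
def ren (g : V → W) (l : List (Fin 2 ⊕ V)) : List (Fin 2 ⊕ W) := l.map (Sum.map id g)

theorem ev_ren (g : V → W) (τ : W → M) (l : List (Fin 2 ⊕ V)) : ev τ (ren g l) = ev (τ ∘ g) l := by
  unfold ev ren
  rw [List.map_map]
  congr 2
  funext x
  rcases x with x | x <;> rfl

def renE (g : V → W) (E : List (List (Fin 2 ⊕ V) × List (Fin 2 ⊕ V))) :
    List (List (Fin 2 ⊕ W) × List (Fin 2 ⊕ W)) :=
  E.map (fun e => (ren g e.1, ren g e.2))

theorem sol_ren (g : V → W) (τ : W → M) (E : List (List (Fin 2 ⊕ V) × List (Fin 2 ⊕ V))) :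
    Sol (renE g E) τ ↔ Sol E (τ ∘ g) := by
  unfold Sol renE
  simp only [List.mem_map, forall_exists_index, and_imp, forall_apply_eq_imp_iff₂, ev_ren]

theorem sol_append (E E' : List (List (Fin 2 ⊕ V) × List (Fin 2 ⊕ V))) :
    Sol (E ++ E') σ ↔ Sol E σ ∧ Sol E' σ := by
  unfold Sol
  simp only [List.mem_append]
  constructor
  · intro h; exact ⟨fun e he => h e (Or.inl he), fun e he => h e (Or.inr he)⟩
  · rintro ⟨h1, h2⟩ e (he | he)
    · exact h1 e he
    · exact h2 e he

theorem sol_cons (e : List (Fin 2 ⊕ V) × List (Fin 2 ⊕ V))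
    (E : List (List (Fin 2 ⊕ V) × List (Fin 2 ⊕ V))) :
    Sol (e :: E) σ ↔ ev σ e.1 = ev σ e.2 ∧ Sol E σ := by
  unfold Sol; simp

theorem sol_nil : Sol [] σ ↔ True := by unfold Sol; simp

end

/-- A set of tuples of naturals (with `n` coded as `b^(2n)`) definable by a finite system. -/
def Good {ι : Type} (S : Set (ι → ℕ)) : Prop :=
  ∃ (κ : Type) (E : List (List (Fin 2 ⊕ (ι ⊕ κ)) × List (Fin 2 ⊕ (ι ⊕ κ)))),
    ∀ v : ι → ℕ, v ∈ S ↔ ∃ τ : κ → M, Sol E (Sum.elim (fun i => b0 ^ v i) τ)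

theorem Good.ext {ι : Type} {S S' : Set (ι → ℕ)} (h : Good S) (H : ∀ v, v ∈ S ↔ v ∈ S') :
    Good S' := by
  have : S = S' := Set.ext H
  rwa [← this]

theorem Good.reindex {ι ι' : Type} {S : Set (ι → ℕ)} (h : Good S) (g : ι → ι') :
    Good {v : ι' → ℕ | v ∘ g ∈ S} := by
  obtain ⟨κ, E, hE⟩ := h
  refine ⟨κ, renE (Sum.map g id) E, fun v => ?_⟩
  rw [Set.mem_ofPred_eq, hE]
  refine exists_congr fun τ => ?_
  rw [sol_ren]
  have : (Sum.elim (fun i => b0 ^ v i) τ) ∘ Sum.map g id =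
      Sum.elim (fun i => b0 ^ (v ∘ g) i) τ := by
    funext s; rcases s with s | s <;> rfl
  rw [this]

theorem Good.inter {ι : Type} {S S' : Set (ι → ℕ)} (h : Good S) (h' : Good S') :
    Good (S ∩ S') := by
  obtain ⟨κ, E, hE⟩ := h
  obtain ⟨κ', E', hE'⟩ := h'
  refine ⟨κ ⊕ κ', renE (Sum.map id Sum.inl) E ++ renE (Sum.map id Sum.inr) E', fun v => ?_⟩
  rw [Set.mem_inter_iff, hE, hE']
  simp only [sol_append, sol_ren]
  constructor
  · rintro ⟨⟨τ, h1⟩, ⟨τ', h2⟩⟩
    refine ⟨Sum.elim τ τ', ?_, ?_⟩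
    · convert h1 using 1
      funext s; rcases s with s | s <;> rfl
    · convert h2 using 1
      funext s; rcases s with s | s <;> rfl
  · rintro ⟨τ, h1, h2⟩
    refine ⟨⟨τ ∘ Sum.inl, ?_⟩, ⟨τ ∘ Sum.inr, ?_⟩⟩
    · convert h1 using 1
      funext s; rcases s with s | s <;> rfl
    · convert h2 using 1
      funext s; rcases s with s | s <;> rfl

/-- existential quantification over one natural number -/
theorem Good.ex {ι : Type} {P : (ι → ℕ) → ℕ → Prop}
    (h : Good {v : Option ι → ℕ | P (v ∘ some) (v none)}) : Good {v : ι → ℕ | ∃ x, P v x} := by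
  obtain ⟨κ, E, hE⟩ := h
  -- new variables: `inl false` the number, `inl true` its inverse
  let g : Option ι ⊕ κ → ι ⊕ (Bool ⊕ κ) :=
    Sum.elim (fun o => Option.elim o (Sum.inr (Sum.inl false)) Sum.inl) (fun k => Sum.inr (Sum.inr k))
  let X : ι ⊕ (Bool ⊕ κ) := Sum.inr (Sum.inl false)
  let Y : ι ⊕ (Bool ⊕ κ) := Sum.inr (Sum.inl true)
  refine ⟨Bool ⊕ κ, [([vx X, vb], [vb, vx X]), ([vx Y, vc], [vc, vx Y]), ([vx X, vx Y], [])] ++
    renE g E, fun v => ?_⟩
  rw [Set.mem_ofPred_eq]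
  simp only [sol_append, sol_ren, sol_cons, sol_nil, ev_vx, ev_vb, ev_vc, ev_nil, mul_one, and_true]
  constructor
  · rintro ⟨x, hx⟩
    have hx' : (fun o : Option ι => Option.elim o x v) ∈
        {v : Option ι → ℕ | P (v ∘ some) (v none)} := hx
    obtain ⟨τ, hτ⟩ := (hE _).1 hx'
    obtain ⟨α, h1, h2, h3⟩ := (num_iff (b0 ^ x)).2 ⟨x, rfl⟩
    refine ⟨Sum.elim (fun c => if c then α else b0 ^ x) τ, ⟨h1, h2, h3⟩, ?_⟩
    convert hτ using 1
    funext s
    rcases s with (_ | s) | s <;> rfl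
  · rintro ⟨τ, ⟨h1, h2, h3⟩, h4⟩
    obtain ⟨x, hx⟩ := (num_iff (τ (Sum.inl false))).1 ⟨_, h1, h2, h3⟩
    refine ⟨x, ?_⟩
    have hmem : (fun o : Option ι => Option.elim o x v) ∈
        {v : Option ι → ℕ | P (v ∘ some) (v none)} := by
      rw [hE]
      refine ⟨τ ∘ Sum.inr, ?_⟩
      convert h4 using 1
      funext s
      rcases s with (_ | s) | s
      · exact hx.symm
      · rfl
      · rfl
    exact hmem

theorem good_const {ι : Type} (i : ι) (n : ℕ) : Good {v : ι → ℕ | v i = n} := by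
  refine ⟨Empty, [([vx (Sum.inl i)], List.replicate (2 * n) vb)], fun v => ?_⟩
  have hrep : ∀ (σ : ι ⊕ Empty → M) k, ev σ (List.replicate k vb) = lt false ^ k := by
    intro σ k
    induction k with
    | zero => rfl
    | succ k ih => rw [List.replicate_succ, ev_vb, ih, pow_succ']
  simp only [sol_cons, sol_nil, ev_vx, ev_nil, mul_one, and_true, hrep, Sum.elim_inl]
  rw [Set.mem_ofPred_eq, ← b0_pow]
  constructor
  · rintro h; exact ⟨fun e => e.elim, by rw [h]⟩
  · rintro ⟨_, h⟩; exact b0_pow_inj h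

theorem good_add {ι : Type} (i j k : ι) : Good {v : ι → ℕ | v i + v j = v k} := by
  refine ⟨Empty, [([vx (Sum.inl i), vx (Sum.inl j)], [vx (Sum.inl k)])], fun v => ?_⟩
  simp only [sol_cons, sol_nil, ev_vx, ev_nil, mul_one, and_true, Sum.elim_inl, ← pow_add]
  rw [Set.mem_ofPred_eq]
  constructor
  · rintro h; exact ⟨fun e => e.elim, by rw [h]⟩
  · rintro ⟨_, h⟩; exact b0_pow_inj h

theorem good_sq {ι : Type} (i j : ι) : Good {v : ι → ℕ | v j = v i ^ 2} := by
  let x : ι ⊕ Fin 4 := Sum.inl i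
  let y : ι ⊕ Fin 4 := Sum.inl j
  let α : ι ⊕ Fin 4 := Sum.inr 0
  let Z : ι ⊕ Fin 4 := Sum.inr 1
  let W : ι ⊕ Fin 4 := Sum.inr 2
  let δ : ι ⊕ Fin 4 := Sum.inr 3
  refine ⟨Fin 4, [
    ([vx α, vc], [vc, vx α]),
    ([vx x, vb, vb, vb, vb, vx α], []),
    ([vx Z, vb, vb, vc, vb, vb, vc, vx x, vb, vb], [vb, vb, vc, vb, vb, vc, vx x, vb, vb, vx Z]),
    ([vx W, vx α, vb, vc, vc, vb, vc, vc], [vx α, vb, vc, vc, vb, vc, vc, vx W]),
    ([vx Z, vx W, vc, vc], []),
    ([vx δ, vc], [vc, vx δ]),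
    ([vx Z, vx δ], []),
    ([vx y, vx x, vx x, vx x, vx x, vb, vb, vb, vb, vb, vb, vb, vb, vx δ], [])],
    fun v => ?_⟩
  rw [Set.mem_ofPred_eq, ← sq_iff]
  simp only [sol_cons, sol_nil, ev_vx, ev_vb, ev_vc, ev_nil, mul_one, and_true]
  have e4 : b0 ^ 4 = lt false * (lt false * (lt false * (lt false *
      (lt false * (lt false * (lt false * lt false)))))) := by
    unfold b0
    simp only [pow_succ, pow_zero, one_mul, mul_assoc]
  constructor
  · rintro ⟨a, z, w, d, h1, h2, h3, h4, h5, h6, h7, h8⟩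
    refine ⟨![a, z, w, d], ?_⟩
    simp only [b1, cA, cq, mul_assoc, e4] at h2 h3 h4 h5 h8
    simp only [b0, mul_assoc] at h2 h3 h8
    refine ⟨h1, ?_, ?_, h4, h5, h6, h7, ?_⟩
    · simpa [x, α, b0, mul_assoc] using h2
    · simpa [x, Z, b0, mul_assoc] using h3
    · simpa [x, y, δ, b0, mul_assoc] using h8
  · rintro ⟨τ, h1, h2, h3, h4, h5, h6, h7, h8⟩
    refine ⟨τ 0, τ 1, τ 2, τ 3, h1, ?_, ?_, ?_, ?_, h6, h7, ?_⟩
    · simpa [x, α, b0, mul_assoc] using h2
    · simpa [x, Z, b0, b1, mul_assoc] using h3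
    · simpa [W, α, cq, mul_assoc] using h4
    · simpa [Z, W, cA, mul_assoc] using h5
    · rw [e4]
      simpa [x, y, δ, b0, mul_assoc] using h8

theorem Good.some {ι : Type} {S : Set (ι → ℕ)} (h : Good S) :
    Good {v : Option ι → ℕ | v ∘ Option.some ∈ S} := h.reindex Option.some

theorem good_and {ι : Type} {P Q : (ι → ℕ) → Prop} (hP : Good {v | P v}) (hQ : Good {v | Q v}) :
    Good {v | P v ∧ Q v} := hP.inter hQ

/-- multiplication -/
theorem good_mul {ι : Type} (i j k : ι) : Good {v : ι → ℕ | v i * v j = v k} := by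
  -- `s = i + j, p = i^2, q = j^2, r = s^2, t = p + q, w = k + k, t + w = r`
  let I : Option (Option (Option (Option (Option (Option ι))))) → Prop := fun _ => True
  have h : Good {v : ι → ℕ | ∃ s, ∃ p, ∃ q, ∃ r, ∃ t, ∃ w,
      v i + v j = s ∧ p = v i ^ 2 ∧ q = v j ^ 2 ∧ r = s ^ 2 ∧ p + q = t ∧ v k + v k = w ∧
      t + w = r} := by
    apply Good.ex (P := fun v s => ∃ p, ∃ q, ∃ r, ∃ t, ∃ w,
      v i + v j = s ∧ p = v i ^ 2 ∧ q = v j ^ 2 ∧ r = s ^ 2 ∧ p + q = t ∧ v k + v k = w ∧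
      t + w = r)
    apply Good.ex (P := fun v p => ∃ q, ∃ r, ∃ t, ∃ w,
      v (some i) + v (some j) = v none ∧ p = v (some i) ^ 2 ∧ q = v (some j) ^ 2 ∧
      r = v none ^ 2 ∧ p + q = t ∧ v (some k) + v (some k) = w ∧ t + w = r)
    apply Good.ex (P := fun v q => ∃ r, ∃ t, ∃ w,
      v (some (some i)) + v (some (some j)) = v (some none) ∧ v none = v (some (some i)) ^ 2 ∧
      q = v (some (some j)) ^ 2 ∧
      r = v (some none) ^ 2 ∧ v none + q = t ∧ v (some (some k)) + v (some (some k)) = w ∧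
      t + w = r)
    apply Good.ex (P := fun v r => ∃ t, ∃ w,
      v (some (some (some i))) + v (some (some (some j))) = v (some (some none)) ∧
      v (some none) = v (some (some (some i))) ^ 2 ∧
      v none = v (some (some (some j))) ^ 2 ∧
      r = v (some (some none)) ^ 2 ∧ v (some none) + v none = t ∧
      v (some (some (some k))) + v (some (some (some k))) = w ∧
      t + w = r)
    apply Good.ex (P := fun v t => ∃ w,
      v (some (some (some (some i)))) + v (some (some (some (some j)))) =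
        v (some (some (some none))) ∧
      v (some (some none)) = v (some (some (some (some i)))) ^ 2 ∧
      v (some none) = v (some (some (some (some j)))) ^ 2 ∧
      v none = v (some (some (some none))) ^ 2 ∧ v (some (some none)) + v (some none) = t ∧
      v (some (some (some (some k)))) + v (some (some (some (some k)))) = w ∧
      t + w = v none)
    apply Good.ex (P := fun v w =>
      v (some (some (some (some (some i))))) + v (some (some (some (some (some j))))) =
        v (some (some (some (some none)))) ∧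
      v (some (some (some none))) = v (some (some (some (some (some i))))) ^ 2 ∧
      v (some (some none)) = v (some (some (some (some (some j))))) ^ 2 ∧
      v (some none) = v (some (some (some (some none)))) ^ 2 ∧
      v (some (some (some none))) + v (some (some none)) = v none ∧
      v (some (some (some (some (some k))))) + v (some (some (some (some (some k))))) = w ∧
      v none + w = v (some none))
    exact good_and (good_add _ _ _) (good_and (good_sq _ _) (good_and (good_sq _ _)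
      (good_and (good_sq _ _) (good_and (good_add _ _ _) (good_and (good_add _ _ _)
      (good_add _ _ _))))))
  refine h.ext fun v => ?_
  rw [Set.mem_ofPred_eq, Set.mem_ofPred_eq]
  constructor
  · rintro ⟨s, p, q, r, t, w, rfl, rfl, rfl, rfl, rfl, rfl, h⟩
    nlinarith
  · intro h
    refine ⟨_, _, _, _, _, _, rfl, rfl, rfl, rfl, rfl, rfl, ?_⟩
    rw [← h]; ring

/-! ## Functions with definable graph -/

def GoodFn {ι : Type} (f : (ι → ℕ) → ℕ) : Prop :=
  Good {v : Option ι → ℕ | f (v ∘ some) = v none}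

theorem goodFn_proj {ι : Type} (i : ι) : GoodFn (fun v : ι → ℕ => v i) := by
  unfold GoodFn
  have h0 : Good {v : Option ι → ℕ | ∃ z, v (some i) + z = v none ∧ z = 0} := by
    apply Good.ex (P := fun v z => v (some i) + z = v none ∧ z = 0)
    exact good_and (good_add (some (some i)) none (some none)) (good_const none 0)
  refine h0.ext fun v => ?_
  rw [Set.mem_ofPred_eq, Set.mem_ofPred_eq]
  constructor
  · rintro ⟨z, h, rfl⟩; exact h
  · intro h; exact ⟨0, h, rfl⟩

theorem goodFn_const {ι : Type} (n : ℕ) : GoodFn (fun _ : ι → ℕ => n) := by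
  unfold GoodFn
  refine (good_const none n).ext fun v => ?_
  rw [Set.mem_ofPred_eq, Set.mem_ofPred_eq]
  exact eq_comm

theorem goodFn_op {ι : Type} {op : ℕ → ℕ → ℕ}
    (hop : ∀ (κ : Type) (i j k : κ), Good {v : κ → ℕ | op (v i) (v j) = v k})
    {f g : (ι → ℕ) → ℕ} (hf : GoodFn f) (hg : GoodFn g) : GoodFn (fun v => op (f v) (g v)) := by
  unfold GoodFn at *
  have h0 : Good {v : Option ι → ℕ | ∃ x, ∃ y, f (v ∘ some) = x ∧ g (v ∘ some) = y ∧
      op x y = v none} := by
    apply Good.ex (P := fun v x => ∃ y, f (v ∘ some) = x ∧ g (v ∘ some) = y ∧ op x y = v none)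
    apply Good.ex (P := fun v y => f ((v ∘ some) ∘ some) = v none ∧ g ((v ∘ some) ∘ some) = y ∧
      op (v none) y = v (some none))
    refine good_and ?_ (good_and ?_ (hop _ _ _ _))
    · exact hf.reindex (fun o => Option.elim o (some none) (fun i => some (some (some i))))
    · exact hg.reindex (fun o => Option.elim o none (fun i => some (some (some i))))
  refine h0.ext fun v => ?_
  rw [Set.mem_ofPred_eq, Set.mem_ofPred_eq]
  constructor
  · rintro ⟨x, y, rfl, rfl, h⟩; exact h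
  · intro h; exact ⟨_, _, rfl, rfl, h⟩

theorem goodFn_add {ι : Type} {f g : (ι → ℕ) → ℕ} (hf : GoodFn f) (hg : GoodFn g) :
    GoodFn (fun v => f v + g v) := goodFn_op (fun _ i j k => good_add i j k) hf hg

theorem goodFn_mul {ι : Type} {f g : (ι → ℕ) → ℕ} (hf : GoodFn f) (hg : GoodFn g) :
    GoodFn (fun v => f v * g v) := goodFn_op (fun _ i j k => good_mul i j k) hf hg

theorem good_eq {ι : Type} {f g : (ι → ℕ) → ℕ} (hf : GoodFn f) (hg : GoodFn g) :
    Good {v : ι → ℕ | f v = g v} := by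
  have h0 : Good {v : ι → ℕ | ∃ x, f v = x ∧ g v = x} := by
    apply Good.ex (P := fun v x => f v = x ∧ g v = x)
    exact good_and hf hg
  refine h0.ext fun v => ?_
  rw [Set.mem_ofPred_eq, Set.mem_ofPred_eq]
  constructor
  · rintro ⟨x, rfl, h⟩; exact h.symm
  · intro h; exact ⟨_, rfl, h.symm⟩

/-- zero sets of integer polynomials are definable -/
theorem good_poly {γ : Type} (p : Poly γ) : Good {v : γ → ℕ | p v = 0} := by
  have h : ∃ f g : (γ → ℕ) → ℕ, GoodFn f ∧ GoodFn g ∧ ∀ v, p v = (f v : ℤ) - g v := by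
    induction p using Poly.induction with
    | H1 i => exact ⟨fun v => v i, fun _ => 0, goodFn_proj i, goodFn_const 0, fun v => by simp⟩
    | H2 n =>
      refine ⟨fun _ => n.toNat, fun _ => (-n).toNat, goodFn_const _, goodFn_const _, fun v => ?_⟩
      rw [Poly.const_apply]
      change n = ((n.toNat : ℕ) : ℤ) - (((-n).toNat : ℕ) : ℤ)
      omega
    | H3 f g hf hg =>
      obtain ⟨f1, f2, h1, h2, hf⟩ := hf
      obtain ⟨g1, g2, h3, h4, hg⟩ := hg
      refine ⟨_, _, goodFn_add h1 h4, goodFn_add h2 h3, fun v => ?_⟩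
      rw [Poly.sub_apply, hf, hg]
      push_cast
      ring
    | H4 f g hf hg =>
      obtain ⟨f1, f2, h1, h2, hf⟩ := hf
      obtain ⟨g1, g2, h3, h4, hg⟩ := hg
      refine ⟨_, _, goodFn_add (goodFn_mul h1 h3) (goodFn_mul h2 h4),
        goodFn_add (goodFn_mul h1 h4) (goodFn_mul h2 h3), fun v => ?_⟩
      rw [Poly.mul_apply, hf, hg]
      push_cast
      ring
  obtain ⟨f, g, hf, hg, h⟩ := h
  refine (good_eq hf hg).ext fun v => ?_
  rw [Set.mem_ofPred_eq, Set.mem_ofPred_eq, h, sub_eq_zero, Nat.cast_inj]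

theorem good_exFin : ∀ {m : ℕ} {ι : Type} {S : Set (ι ⊕ Fin m → ℕ)}, Good S →
    Good {v : ι → ℕ | ∃ t : Fin m → ℕ, Sum.elim v t ∈ S}
  | 0, ι, S, h => by
    refine (h.reindex (Sum.elim id Fin.elim0)).ext fun v => ?_
    rw [Set.mem_ofPred_eq, Set.mem_ofPred_eq]
    have : ∀ t : Fin 0 → ℕ, v ∘ Sum.elim id Fin.elim0 = Sum.elim v t := by
      intro t; funext s; rcases s with s | s
      · rfl
      · exact s.elim0
    constructor
    · intro h; exact ⟨Fin.elim0, by rwa [← this]⟩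
    · rintro ⟨t, h⟩; rwa [this t]
  | m + 1, ι, S, h => by
    let g : ι ⊕ Fin (m + 1) → Option (ι ⊕ Fin m) :=
      Sum.elim (fun i => some (Sum.inl i)) (Fin.cons none (fun j => some (Sum.inr j)))
    have h1 : Good {v : Option (ι ⊕ Fin m) → ℕ | v ∘ g ∈ S} := h.reindex g
    have h2 : Good {v : ι ⊕ Fin m → ℕ | ∃ x, (Sum.elim (v ∘ Sum.inl) (Fin.cons x (v ∘ Sum.inr)) :
        ι ⊕ Fin (m + 1) → ℕ) ∈ S} := by
      apply Good.ex (P := fun v x => (Sum.elim (v ∘ Sum.inl) (Fin.cons x (v ∘ Sum.inr)) :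
        ι ⊕ Fin (m + 1) → ℕ) ∈ S)
      refine h1.ext fun v => ?_
      rw [Set.mem_ofPred_eq, Set.mem_ofPred_eq]
      have : v ∘ g = (Sum.elim ((v ∘ some) ∘ Sum.inl) (Fin.cons (v none) ((v ∘ some) ∘ Sum.inr)) :
        ι ⊕ Fin (m + 1) → ℕ) := by
        funext s; rcases s with s | s
        · rfl
        · refine Fin.cases ?_ (fun j => ?_) s <;> rfl
      rw [this]
    refine (good_exFin h2).ext fun v => ?_
    rw [Set.mem_ofPred_eq, Set.mem_ofPred_eq]
    constructor
    · rintro ⟨t, x, hx⟩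
      exact ⟨Fin.cons x t, hx⟩
    · rintro ⟨t, ht⟩
      refine ⟨Fin.tail t, t 0, ?_⟩
      change (Sum.elim v (Fin.cons (t 0) (Fin.tail t)) : ι ⊕ Fin (m + 1) → ℕ) ∈ S
      rwa [Fin.cons_self_tail]

end Pool.Agent.Helper76
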