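import Mathlib
import Pool.Agent.Helper76.Good

set_option autoImplicit false

namespace Pool.Agent.Helper76

theorem ev_congr {V : Type} {σ τ : V → M} {l : List (Fin 2 ⊕ V)}
    (h : ∀ v, Sum.inr v ∈ l → σ v = τ v) : ev σ l = ev τ l := by
  unfold ev
  congr 1
  apply List.map_congr_left
  intro x hx
  rcases x with x | x
  · rfl
  · exact h x hx

/-- variables of a system -/
def vars {V : Type} (E : List (List (Fin 2 ⊕ V) × List (Fin 2 ⊕ V))) : List V :=
  E.flatMap (fun e => (e.1 ++ e.2).filterMap (Sum.elim (fun _ => none) some))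

theorem sol_congr {V : Type} {σ τ : V → M} {E : List (List (Fin 2 ⊕ V) × List (Fin 2 ⊕ V))}
    (h : ∀ v ∈ vars E, σ v = τ v) : Sol E σ ↔ Sol E τ := by
  unfold Sol
  refine forall_congr' fun e => forall_congr' fun he => ?_
  have hmem : ∀ v, Sum.inr v ∈ e.1 ++ e.2 → v ∈ vars E := by
    intro v hv
    unfold vars
    rw [List.mem_flatMap]
    refine ⟨e, he, ?_⟩
    rw [List.mem_filterMap]
    exact ⟨Sum.inr v, hv, rfl⟩
  rw [ev_congr (fun v hv => h v (hmem v (List.mem_append_left _ hv))),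
    ev_congr (fun v hv => h v (hmem v (List.mem_append_right _ hv)))]

theorem exists_system : ∃ (K : ℕ → Prop) (E : List (List (Fin 2 ⊕ ℕ) × List (Fin 2 ⊕ ℕ))),
    ¬ ComputablePred K ∧ ∀ n, K n ↔ ∃ σ : ℕ → M, σ 0 = b0 ^ n ∧ Sol E σ := by
  classical
  obtain ⟨K, hK, β, p, hp⟩ := exists_dioph_not_computable
  obtain ⟨m, q, hq⟩ := finite_dummies p
  obtain ⟨κ, E, hE⟩ := good_exFin (good_poly q)
  have hKE : ∀ n, K n ↔ ∃ τ : κ → M, Sol E (Sum.elim (fun _ => b0 ^ n) τ) := by
    intro n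
    have h1 := hp (fun _ => n)
    rw [Set.mem_ofPred_eq, hq] at h1
    have h2 := hE (fun _ => n)
    rw [Set.mem_ofPred_eq] at h2
    rw [h1, ← h2]
    rfl
  let L : List κ := (vars E).filterMap (Sum.elim (fun _ => none) some)
  let g : Unit ⊕ κ → ℕ := Sum.elim (fun _ => 0) (fun k => L.idxOf k + 1)
  refine ⟨K, renE g E, hK, fun n => ?_⟩
  rw [hKE]
  constructor
  · rintro ⟨τ, hτ⟩
    refine ⟨fun j => match j with
      | 0 => b0 ^ n
      | j + 1 => if h : j < L.length then τ (L[j]) else 1, rfl, ?_⟩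
    rw [sol_ren]
    refine (sol_congr ?_).1 hτ
    rintro (v | v) hv
    · rfl
    · have hvL : v ∈ L := by
        rw [List.mem_filterMap]
        exact ⟨Sum.inr v, hv, rfl⟩
      have hlt : L.idxOf v < L.length := List.idxOf_lt_length_iff.2 hvL
      simp only [Sum.elim_inr, Function.comp_apply, g]
      rw [dif_pos hlt, List.getElem_idxOf]
  · rintro ⟨σ, h0, hσ⟩
    rw [sol_ren] at hσ
    refine ⟨fun k => σ (g (Sum.inr k)), ?_⟩
    convert hσ using 1
    funext s
    rcases s with s | s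
    · exact h0.symm
    · rfl

theorem undecidable : ¬ ComputablePred
    (fun E : List (List (Fin 2 ⊕ ℕ) × List (Fin 2 ⊕ ℕ)) => ∃ σ : ℕ → M, ∀ e ∈ E,
      (e.1.map (Sum.elim (fun a : Fin 2 => Con.mk' con0 (FreeMonoid.of a)) σ)).prod =
      (e.2.map (Sum.elim (fun a : Fin 2 => Con.mk' con0 (FreeMonoid.of a)) σ)).prod) := by
  intro hP
  obtain ⟨K, E, hK, hE⟩ := exists_system
  apply hK
  refine ComputablePred.computable_of_manyOneReducible
    ⟨fun n => (([Sum.inr 0] : List (Fin 2 ⊕ ℕ)),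
      ((List.range (2 * n)).map (fun _ => (Sum.inl 0 : Fin 2 ⊕ ℕ)))) :: E, ?_, fun n => ?_⟩ hP
  · apply Primrec.to_comp
    refine Primrec.list_cons.comp (Primrec.pair (Primrec.const _) ?_) (Primrec.const _)
    exact Primrec.list_map (Primrec.list_range.comp (Primrec.nat_mul.comp (Primrec.const 2)
      Primrec.id)) (Primrec.const _).to₂
  · rw [hE]
    have hrep : ∀ (σ : ℕ → M) k, ev σ ((List.range k).map (fun _ => (Sum.inl 0 : Fin 2 ⊕ ℕ))) =
        lt false ^ k := by
      intro σ k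
      rw [List.map_const', List.length_range]
      induction k with
      | zero => rfl
      | succ k ih => rw [List.replicate_succ, pow_succ', ← ih]; rfl
    refine exists_congr fun σ => ?_
    change _ ↔ Sol _ σ
    rw [sol_cons, hrep, ← b0_pow]
    refine and_congr ?_ Iff.rfl
    change σ 0 = _ ↔ ev σ (vx 0 :: []) = _
    rw [ev_vx, ev_nil, mul_one]

end Pool.Agent.Helper76
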