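import Mathlib
import Pool.Agent.Helper76.Final

set_option autoImplicit false

namespace Pool.Agent.Helper76

open Dioph

/-! Every recursively enumerable set of natural numbers is defined by a finite system of equations over
the monoid `M = ⟨b, c ∣ b²c² = 1⟩`. -/

/-- the MRDP theorem for sets of natural numbers -/
theorem dioph_of_re {K : ℕ → Prop} (hK : REPred K) : Dioph {v : Unit → ℕ | K (v ())} := by
  open Nat.Partrec in
  have h1 : Nat.Partrec (fun n => Part.bind (Encodable.decode (α := ℕ) n : Option ℕ)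
    (fun a => (Part.assert (K a) fun _ => Part.some ()).map Encodable.encode)) := hK
  obtain ⟨c, hc⟩ := Nat.Partrec.Code.exists_code.1 h1
  have hdom : ∀ n, (c.eval n).Dom ↔ K n := by
    intro n
    rw [hc]
    simp [Part.assert]
  let F : ℕ → ℕ := fun n =>
    cond (Nat.Partrec.Code.evaln n.unpair.2 c n.unpair.1).isSome 0 1
  have hF : Nat.Primrec F := by
    rw [← Primrec.nat_iff]
    refine Primrec.cond (Primrec.option_isSome.comp (Nat.Partrec.Code.primrec_evaln.comp
      (Primrec.pair (Primrec.pair (Primrec.snd.comp Primrec.unpair) (Primrec.const c))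
        (Primrec.fst.comp Primrec.unpair)))) (Primrec.const 0) (Primrec.const 1)
  have hKF : ∀ n, K n ↔ ∃ k, F (Nat.pair n k) = 0 := by
    intro n
    rw [← hdom, Part.dom_iff_mem]
    simp only [F, Nat.unpair_pair]
    constructor
    · rintro ⟨y, hy⟩
      obtain ⟨k, hk⟩ := Nat.Partrec.Code.evaln_complete.1 hy
      refine ⟨k, ?_⟩
      have : (Nat.Partrec.Code.evaln k c n).isSome = true := Option.isSome_iff_exists.2 ⟨y, hk⟩
      rw [this]; rfl
    · rintro ⟨k, hk⟩
      by_cases h : (Nat.Partrec.Code.evaln k c n).isSome = true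
      · obtain ⟨y, hy⟩ := Option.isSome_iff_exists.1 h
        exact ⟨y, Nat.Partrec.Code.evaln_complete.2 ⟨k, hy⟩⟩
      · simp only [Bool.not_eq_true] at h
        rw [h] at hk
        simp at hk
  have h3 : Dioph {v : Unit → ℕ | ∃ k, F (Nat.pair (v ()) k) = 0} := by
    refine ex' (P := fun v k => F (Nat.pair (v ()) k) = 0) ?_
    exact eq_dioph (D1_of_primrec hF _ _
      (pair_dioph (diophFn_some (proj_dioph ())) proj_none)) (const_dioph 0)
  refine Dioph.ext h3 fun v => ?_
  rw [Set.mem_ofPred_eq, Set.mem_ofPred_eq]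
  exact (hKF _).symm

theorem system_of_re {K : ℕ → Prop} (hK : REPred K) :
    ∃ E : List (List (Fin 2 ⊕ ℕ) × List (Fin 2 ⊕ ℕ)),
      ∀ n, K n ↔ ∃ σ : ℕ → M, σ 0 = b0 ^ n ∧ Sol E σ := by
  classical
  obtain ⟨β, p, hp⟩ := dioph_of_re hK
  obtain ⟨m, q, hq⟩ := finite_dummies p
  obtain ⟨κ, E, hE⟩ := good_exFin (good_poly q)
  have hKE : ∀ n, K n ↔ ∃ τ : κ → M, Sol E (Sum.elim (fun _ => b0 ^ n) τ) := by
    intro n
    have h1 := hp (fun _ => n)
    rw [Set.mem_ofPred_eq, hq] at h1
    have h2 := hE (fun _ => n)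
    rw [Set.mem_ofPred_eq] at h2
    rw [h1, ← h2]
    rfl
  let L : List κ := (vars E).filterMap (Sum.elim (fun _ => none) some)
  let g : Unit ⊕ κ → ℕ := Sum.elim (fun _ => 0) (fun k => L.idxOf k + 1)
  refine ⟨renE g E, fun n => ?_⟩
  rw [hKE]
  constructor
  · rintro ⟨τ, hτ⟩
    refine ⟨fun j => match j with
      | 0 => b0 ^ n
      | j + 1 => if h : j < L.length then τ (L[j]) else 1, rfl, ?_⟩
    rw [sol_ren]
    refine (sol_congr ?_).1 hτ
    rintro (v | v) hv
    · rfl
    · have hvL : v ∈ L := by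
        rw [List.mem_filterMap]
        exact ⟨Sum.inr v, hv, rfl⟩
      have hlt : L.idxOf v < L.length := List.idxOf_lt_length_iff.2 hvL
      simp only [Sum.elim_inr, Function.comp_apply, g]
      rw [dif_pos hlt, List.getElem_idxOf]
  · rintro ⟨σ, h0, hσ⟩
    rw [sol_ren] at hσ
    refine ⟨fun k => σ (g (Sum.inr k)), ?_⟩
    convert hσ using 1
    funext s
    rcases s with s | s
    · exact h0.symm
    · rfl

end Pool.Agent.Helper76
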